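import Mathlib
import Pool.Agent.Lib.MP_4fb322_lc_h91.Sparse

set_option autoImplicit false

/-!
# Weakly sparse ages: definitions and basic facts

Part 1: graph notions for a symmetric irreflexive relation `A` on a set `V`.
Part 2: rooted embeddings of structures on `V`.
Part 3: the limit structure of Part I and the package `Core`.
-/

namespace Pool.Agent.Lib.MP_4fb322_lc_h21

open Set Pool.Agent.Lib.MP_4fb322_lc_h70 Pool.Agent.Lib.MP_4fb322_lc_h91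

variable {I : Type} {ar : I → ℕ} {V : Type}

/-! ## Part 1: graphs -/

/-- `w 0, w 1, ..., w n` is a walk inside `W` -/
def IsWalk (A : V → V → Prop) (W : Set V) (n : ℕ) (w : ℕ → V) : Prop :=
  (∀ i, i ≤ n → w i ∈ W) ∧ ∀ i, i < n → A (w i) (w (i + 1))

/-- there is a walk of length `n` from `x` to `y` inside `W` -/
def Wk (A : V → V → Prop) (W : Set V) (n : ℕ) (x y : V) : Prop :=
  ∃ w : ℕ → V, IsWalk A W n w ∧ w 0 = x ∧ w n = y

/-- `x` and `y` are connected inside `W` (in particular both lie in `W`) -/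
def Linked (A : V → V → Prop) (W : Set V) (x y : V) : Prop := ∃ n, Wk A W n x y

/-- no `K_{t,t}` subgraph -/
def Sparse (A : V → V → Prop) (t : ℕ) : Prop :=
  ¬ ∃ a b : Fin t → V, Function.Injective a ∧ Function.Injective b ∧ ∀ i j, A (a i) (b j)

/-- the finite subsets of `X`, as induced subgraphs, contain no bad sequence -/
def GWqo (A : V → V → Prop) (X : Set V) : Prop :=
  ∀ Z : ℕ → Finset V, (∀ n, (Z n : Set V) ⊆ X) → ∃ i j, i < j ∧ ∃ f : V → V,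
    Set.InjOn f (Z i) ∧ (∀ x ∈ Z i, f x ∈ Z j) ∧
      ∀ x ∈ Z i, ∀ y ∈ Z i, (A (f x) (f y) ↔ A x y)

/-- connectedness of a set: a nonempty subset closed under adjacency is everything -/
def Cn (A : V → V → Prop) (S : Set V) : Prop :=
  ∀ R : Set V, R ⊆ S → R.Nonempty → (∀ x ∈ R, ∀ y ∈ S, A x y → y ∈ R) → R = S

/-- `S` induces a cycle: connected and every vertex has exactly two neighbours in `S` -/
def CycSet (A : V → V → Prop) (S : Finset V) : Prop :=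
  (∀ x ∈ S, ∃ a ∈ S, ∃ b ∈ S, a ≠ b ∧ A x a ∧ A x b ∧ ∀ c ∈ S, A x c → c = a ∨ c = b) ∧
    Cn A (S : Set V)

/-- `x` has at least three neighbours in `W` -/
def Deg3 (A : V → V → Prop) (W : Set V) (x : V) : Prop :=
  ∃ a ∈ W, ∃ b ∈ W, ∃ c ∈ W, a ≠ b ∧ a ≠ c ∧ b ≠ c ∧ A x a ∧ A x b ∧ A x c

/-- `x` has infinitely many neighbours -/
def InfDeg (A : V → V → Prop) (x : V) : Prop := {y | A x y}.Infinite

/-- the data delivered by the iterated star lemma: hubs `h 0, h 1, ...` outside `T0`, a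
decreasing sequence of infinite sets `U r`, and for every `u ∈ U r` a path `p r u` of length
`ℓ r u` from `h r` to `u`, these paths (fixed `r`, variable `u`) being disjoint apart
from `h r` -/
structure Hubs (A : V → V → Prop) (Z : Set V) (B : ℕ) (h : ℕ → V) (U : ℕ → Set V)
    (p : ℕ → V → ℕ → V) (ℓ : ℕ → V → ℕ) : Prop where
  inj : Function.Injective h
  inf : ∀ r, (U r).Infinite
  anti : ∀ r, U (r + 1) ⊆ U r
  len : ∀ r, ∀ u ∈ U r, 1 ≤ ℓ r u ∧ ℓ r u ≤ B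
  walk : ∀ r, ∀ u ∈ U r, IsWalk A Z (ℓ r u) (p r u) ∧ p r u 0 = h r ∧ p r u (ℓ r u) = u
  disj : ∀ r, ∀ u ∈ U r, ∀ v ∈ U r, u ≠ v → ∀ i j, 1 ≤ i → i ≤ ℓ r u → 1 ≤ j → j ≤ ℓ r v →
    p r u i ≠ p r v j
  hub : ∀ r, ∀ u ∈ U r, ∀ i, 1 ≤ i → i ≤ ℓ r u → p r u i ≠ h r

/-- the cyclic configuration: pairwise non adjacent centres `c 0, ..., c (m-1)` and pairwise
disjoint non adjacent blocks `Q 0, ..., Q (m-1)`, block `Q i` linking `c i` to `c (i+1)` and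
not adjacent to the other centres -/
structure Ring (A : V → V → Prop) (Z : Set V) (m : ℕ) (c : ℕ → V) (Q : ℕ → Finset V) :
    Prop where
  cZ : ∀ i, i < m → c i ∈ Z
  QZ : ∀ i, i < m → (Q i : Set V) ⊆ Z
  inj : ∀ i, i < m → ∀ j, j < m → c i = c j → i = j
  cc : ∀ i, i < m → ∀ j, j < m → ¬ A (c i) (c j)
  cQ : ∀ i, i < m → ∀ j, j < m → c j ∉ Q i
  QQ : ∀ i, i < m → ∀ j, j < m → i ≠ j → ∀ x ∈ Q i, ∀ y ∈ Q j, x ≠ y ∧ ¬ A x y
  Qc : ∀ i, i < m → ∀ j, j < m → j ≠ i → j ≠ (i + 1) % m → ∀ x ∈ Q i, ¬ A x (c j)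
  link : ∀ i, i < m → Linked A (insert (c i) (insert (c ((i + 1) % m)) (Q i : Set V)))
    (c i) (c ((i + 1) % m))

/-- a dumbbell of length `d` on the finite set `Z`: an induced path `w 0, ..., w d`, two more
neighbours `a, b` of `w 0` and two more neighbours `a', b'` of `w d`; the extra vertices are
adjacent to nothing else than the first (last) three vertices of the path and each other -/
def Dumb (A : V → V → Prop) (d : ℕ) (Z : Finset V) : Prop :=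
  ∃ (w : ℕ → V) (a b a' b' : V),
    (∀ x, x ∈ Z ↔ (∃ i, i ≤ d ∧ w i = x) ∨ x = a ∨ x = b ∨ x = a' ∨ x = b') ∧
    (∀ i, i ≤ d → ∀ j, j ≤ d → w i = w j → i = j) ∧
    (∀ i, i < d → A (w i) (w (i + 1))) ∧
    (∀ i, i ≤ d → ∀ j, j ≤ d → A (w i) (w j) → i ≤ j + 1 ∧ j ≤ i + 1) ∧
    (∀ i, i ≤ d → w i ≠ a ∧ w i ≠ b ∧ w i ≠ a' ∧ w i ≠ b') ∧
    a ≠ b ∧ a' ≠ b' ∧ a ≠ a' ∧ a ≠ b' ∧ b ≠ a' ∧ b ≠ b' ∧
    A (w 0) a ∧ A (w 0) b ∧ A (w d) a' ∧ A (w d) b' ∧
    (∀ i, i ≤ d → (A (w i) a ∨ A (w i) b) → i ≤ 2) ∧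
    (∀ i, i ≤ d → (A (w i) a' ∨ A (w i) b') → d ≤ i + 2) ∧
    ¬ A a a' ∧ ¬ A a b' ∧ ¬ A b a' ∧ ¬ A b b'

/-! ## Part 2: rooted embeddings -/

/-- adjacency witnessed by a tuple with all entries in `W` -/
def Rel (M : (i : I) → Set (Fin (ar i) → V)) (δ : I → Prop) (W : Set V) (x y : V) : Prop :=
  x ≠ y ∧ ∃ (i : I) (s : Fin (ar i) → V), (∀ l, s l ∈ W) ∧ (∃ j, s j = x) ∧ (∃ k, s k = y) ∧
    ¬ (s ∈ M i ↔ δ i)

/-- `Y` embeds into `X` by a map which is the identity on `T`, and which is an embedding of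
`T ∪ Y` -/
def RE (M : (i : I) → Set (Fin (ar i) → V)) (T Y X : Set V) : Prop :=
  ∃ f : V → V, PE M (T ∪ Y) f ∧ (∀ x ∈ T, f x = x) ∧ ∀ y ∈ Y, f y ∈ X

/-- the package obtained in Part I and refuted in Part II: a structure `M` on `V` with a set
`P` of pins, pieces `{x ∉ P | pc x = n}`, and an antichain of finite sets `a n`, any
infinitely many of which generate everything -/
structure Core (M : (i : I) → Set (Fin (ar i) → V)) (δ : I → Prop) (t : ℕ) (P : Set V)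
    (pc : V → ℕ) (a : ℕ → Finset V) : Prop where
  wf : SubagesWF (ageOn M Set.univ)
  sparse : ¬ HasBiclique M δ t
  pin : ∀ p ∈ P, ∃ Y : Set V, Y.Finite ∧ ¬ VE M Y {p}ᶜ
  shift : ∀ X : Set V, X.Finite → ∃ f : V → V, PE M Set.univ f ∧ (∀ p ∈ P, f p = p) ∧
    ∀ x, x ∉ P → f x ∉ P ∧ f x ∉ X
  piece : ∀ x, x ∉ P → ∀ y, y ∉ P → Adj M δ x y → pc x = pc y
  piece_fin : ∀ n : ℕ, {x | x ∉ P ∧ pc x = n}.Finite
  anti : ∀ i j, i ≠ j → ¬ VE M (a i : Set V) (a j : Set V)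
  min : ∀ X : Set V, (∀ n, ∃ j, n ≤ j ∧ VE M (a j : Set V) X) → ∀ Y : Set V, Y.Finite →
    VE M Y X

/-! ## Part 3: the limit structure -/

/-- vertex set of the limit structure: the pins and infinitely many copies of every `E j` -/
abbrev LV (P : Set ℕ) (E : ℕ → Type) : Type := P ⊕ (Σ j : ℕ, ℕ × E j)

/-- realisation of the limit structure at time `k` -/
def real {P : Set ℕ} {E : ℕ → Type} (ψ : (j : ℕ) → ℕ → E j → ℕ) (k : ℕ) : LV P E → ℕ
  | Sum.inl p => p.1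
  | Sum.inr ⟨j, _, e⟩ => ψ j k e

/-- the piece of a vertex (`none` for pins) -/
def grp {P : Set ℕ} {E : ℕ → Type} : LV P E → Option (ℕ × ℕ)
  | Sum.inl _ => none
  | Sum.inr ⟨j, n, _⟩ => some (j, n)

/-- all entries of the tuple are pins or lie in one piece -/
def OneGrp {P : Set ℕ} {E : ℕ → Type} {n : ℕ} (s : Fin n → LV P E) : Prop :=
  ∃ g : ℕ × ℕ, ∀ l, grp (s l) = none ∨ grp (s l) = some g

/-- the limit structure along the ultrafilter `U` -/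
def LM (M₀ : (i : I) → Set (Fin (ar i) → ℕ)) (δ : I → Prop) (U : Ultrafilter ℕ) {P : Set ℕ}
    {E : ℕ → Type} (ψ : (j : ℕ) → ℕ → E j → ℕ) : (i : I) → Set (Fin (ar i) → LV P E) :=
  fun i => {s | (OneGrp s ∧ ∀ᶠ k in (U : Filter ℕ), (real ψ k ∘ s) ∈ M₀ i) ∨
    (¬ OneGrp s ∧ δ i)}

end Pool.Agent.Lib.MP_4fb322_lc_h21
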