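import Mathlib
import Pool.Agent.Lib.MP_4fb322_lc_h21.Defs

set_option autoImplicit false

/-!
# Weakly sparse ages: basic lemmas (all proved)
-/

namespace Pool.Agent.Lib.MP_4fb322_lc_h21

open Set Pool.Agent.Lib.MP_4fb322_lc_h70 Pool.Agent.Lib.MP_4fb322_lc_h91

variable {I : Type} {ar : I → ℕ} {V : Type}

section Graph

variable {A : V → V → Prop} {W W' : Set V}

theorem IsWalk.mono {n : ℕ} {w : ℕ → V} (h : IsWalk A W n w) (hW : W ⊆ W') :
    IsWalk A W' n w := ⟨fun i hi => hW (h.1 i hi), h.2⟩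

theorem Wk.mono {n : ℕ} {x y : V} (h : Wk A W n x y) (hW : W ⊆ W') : Wk A W' n x y := by
  obtain ⟨w, h1, h2⟩ := h
  exact ⟨w, h1.mono hW, h2⟩

theorem Linked.mono {x y : V} (h : Linked A W x y) (hW : W ⊆ W') : Linked A W' x y := by
  obtain ⟨n, hn⟩ := h
  exact ⟨n, hn.mono hW⟩

theorem Wk.left {n : ℕ} {x y : V} (h : Wk A W n x y) : x ∈ W := by
  obtain ⟨w, h1, h2, -⟩ := h
  rw [← h2]
  exact h1.1 0 (Nat.zero_le _)

theorem Wk.right {n : ℕ} {x y : V} (h : Wk A W n x y) : y ∈ W := by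
  obtain ⟨w, h1, -, h3⟩ := h
  rw [← h3]
  exact h1.1 n le_rfl

theorem Wk.refl {x : V} (h : x ∈ W) : Wk A W 0 x x :=
  ⟨fun _ => x, ⟨fun _ _ => h, fun i hi => absurd hi (Nat.not_lt_zero i)⟩, rfl, rfl⟩

theorem Wk.single {x y : V} (hx : x ∈ W) (hy : y ∈ W) (h : A x y) : Wk A W 1 x y := by
  refine ⟨fun i => if i = 0 then x else y, ⟨?_, ?_⟩, rfl, rfl⟩
  · intro i _
    by_cases hi : i = 0 <;> simp [hi, hx, hy]
  · intro i hi
    obtain rfl : i = 0 := by omega
    simpa using h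

theorem Wk.trans {m n : ℕ} {x y z : V} (h : Wk A W m x y) (h' : Wk A W n y z) :
    Wk A W (m + n) x z := by
  obtain ⟨w, h1, h2, h3⟩ := h
  obtain ⟨w', h1', h2', h3'⟩ := h'
  refine ⟨fun i => if i ≤ m then w i else w' (i - m), ⟨?_, ?_⟩, ?_, ?_⟩
  · intro i hi
    by_cases him : i ≤ m
    · simp only [him, if_true]
      exact h1.1 i him
    · simp only [him, if_false]
      exact h1'.1 _ (by omega)
  · intro i hi
    by_cases him : i + 1 ≤ m
    · have : i ≤ m := by omega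
      simp only [this, him, if_true]
      exact h1.2 i (by omega)
    · by_cases him' : i ≤ m
      · obtain rfl : i = m := by omega
        simp only [him', him, if_true, if_false]
        rw [h3, ← h2']
        have : i + 1 - i = 0 + 1 := by omega
        rw [this]
        exact h1'.2 0 (by omega)
      · simp only [him', him, if_false]
        have : i + 1 - m = (i - m) + 1 := by omega
        rw [this]
        exact h1'.2 _ (by omega)
  · simp [h2]
  · by_cases hn : n = 0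
    · subst hn
      simp only [Nat.add_zero, le_refl, if_true]
      rw [h3, ← h3', h2']
    · have : ¬ (m + n ≤ m) := by omega
      simp only [this, if_false]
      rw [Nat.add_sub_cancel_left, h3']

theorem Wk.symm (hs : ∀ x y, A x y → A y x) {n : ℕ} {x y : V} (h : Wk A W n x y) :
    Wk A W n y x := by
  obtain ⟨w, h1, h2, h3⟩ := h
  refine ⟨fun i => w (n - i), ⟨fun i _ => h1.1 _ (by omega), ?_⟩, by simpa using h3,
    by simpa using h2⟩
  intro i hi
  apply hs
  have : n - i = (n - (i + 1)) + 1 := by omega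
  change A (w (n - (i + 1))) (w (n - i))
  rw [this]
  exact h1.2 _ (by omega)

/-- a walk can be cut -/
theorem IsWalk.wk {n : ℕ} {w : ℕ → V} (h : IsWalk A W n w) {i j : ℕ} (hij : i ≤ j)
    (hj : j ≤ n) : Wk A W (j - i) (w i) (w j) := by
  refine ⟨fun k => w (i + k), ⟨fun k hk => h.1 _ (by omega), fun k hk => ?_⟩, by simp, ?_⟩
  · have := h.2 (i + k) (by omega)
    simpa [Nat.add_assoc] using this
  · change w (i + (j - i)) = w j
    congr 1
    omega

theorem Linked.refl {x : V} (h : x ∈ W) : Linked A W x x := ⟨0, Wk.refl h⟩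

theorem Linked.trans {x y z : V} (h : Linked A W x y) (h' : Linked A W y z) :
    Linked A W x z := by
  obtain ⟨m, hm⟩ := h
  obtain ⟨n, hn⟩ := h'
  exact ⟨m + n, hm.trans hn⟩

theorem Linked.symm (hs : ∀ x y, A x y → A y x) {x y : V} (h : Linked A W x y) :
    Linked A W y x := by
  obtain ⟨m, hm⟩ := h
  exact ⟨m, hm.symm hs⟩

theorem Linked.single {x y : V} (hx : x ∈ W) (hy : y ∈ W) (h : A x y) : Linked A W x y :=
  ⟨1, Wk.single hx hy h⟩

theorem Linked.left {x y : V} (h : Linked A W x y) : x ∈ W := by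
  obtain ⟨n, hn⟩ := h
  exact hn.left

theorem Linked.right {x y : V} (h : Linked A W x y) : y ∈ W := by
  obtain ⟨n, hn⟩ := h
  exact hn.right

/-- shortest walks are induced paths -/
theorem exists_shortest (hs : ∀ x y, A x y → A y x) {x y : V} (h : Linked A W x y) :
    ∃ (n : ℕ) (w : ℕ → V), IsWalk A W n w ∧ w 0 = x ∧ w n = y ∧
      (∀ m, Wk A W m x y → n ≤ m) ∧
      (∀ i, i ≤ n → ∀ m, Wk A W m x (w i) → i ≤ m) ∧
      (∀ i, i ≤ n → ∀ m, Wk A W m (w i) y → n - i ≤ m) ∧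
      (∀ i, i ≤ n → ∀ j, j ≤ n → w i = w j → i = j) ∧
      (∀ i, i ≤ n → ∀ j, j ≤ n → A (w i) (w j) → i ≤ j + 1 ∧ j ≤ i + 1) := by
  classical
  have hex : ∃ n, Wk A W n x y := h
  set n := Nat.find hex with hn
  obtain ⟨w, hw, hw0, hwn⟩ := Nat.find_spec hex
  have hmin : ∀ m, Wk A W m x y → n ≤ m := fun m hm => Nat.find_le hm
  have h1 : ∀ i, i ≤ n → ∀ m, Wk A W m x (w i) → i ≤ m := by
    intro i hi m hm
    have h2 := hm.trans (hw.wk hi le_rfl)
    rw [hwn] at h2
    have := hmin _ h2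
    omega
  have h2 : ∀ i, i ≤ n → ∀ m, Wk A W m (w i) y → n - i ≤ m := by
    intro i hi m hm
    have h3 := (hw.wk (Nat.zero_le i) hi).trans hm
    rw [hw0] at h3
    have := hmin _ h3
    omega
  have h3 : ∀ i, i ≤ n → ∀ j, j ≤ n → w i = w j → i ≤ j := by
    intro i hi j hj hij
    have h4 := hw.wk (Nat.zero_le j) hj
    rw [hw0, ← hij] at h4
    have := h1 i hi _ h4
    omega
  have h5 : ∀ i, i ≤ n → ∀ j, j ≤ n → A (w i) (w j) → j ≤ i + 1 := by
    intro i hi j hj hij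
    have h4 := (hw.wk (Nat.zero_le i) hi).trans (Wk.single (hw.1 i hi) (hw.1 j hj) hij)
    rw [hw0] at h4
    have := h1 j hj _ h4
    omega
  refine ⟨n, w, hw, hw0, hwn, hmin, h1, h2, fun i hi j hj hij =>
    le_antisymm (h3 i hi j hj hij) (h3 j hj i hi hij.symm), fun i hi j hj hij =>
    ⟨h5 j hj i hi (hs _ _ hij), h5 i hi j hj hij⟩⟩

end Graph

section Structures

variable {M : (i : I) → Set (Fin (ar i) → V)} {δ : I → Prop}

theorem adj_symm : ∀ x y : V, Adj M δ x y → Adj M δ y x := fun _ _ h => Adj.symm h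

theorem adj_irrefl (x : V) : ¬ Adj M δ x x := fun h => h.1 rfl

theorem Rel.adj {W : Set V} {x y : V} (h : Rel M δ W x y) : Adj M δ x y := by
  obtain ⟨h1, i, s, -, h2, h3, h4⟩ := h
  exact ⟨h1, i, s, h2, h3, h4⟩

theorem Rel.symm {W : Set V} {x y : V} (h : Rel M δ W x y) : Rel M δ W y x := by
  obtain ⟨h1, i, s, h0, h2, h3, h4⟩ := h
  exact ⟨h1.symm, i, s, h0, h3, h2, h4⟩

theorem Rel.mono {W W' : Set V} {x y : V} (h : Rel M δ W x y) (hW : W ⊆ W') :
    Rel M δ W' x y := by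
  obtain ⟨h1, i, s, h0, h2, h3, h4⟩ := h
  exact ⟨h1, i, s, fun l => hW (h0 l), h2, h3, h4⟩

/-- embeddings of `Y` transport adjacency witnessed inside `Y` -/
theorem Rel.map {Y : Set V} {f : V → V} (hf : PE M Y f) {x y : V} (h : Rel M δ Y x y) :
    Rel M δ (f '' Y) (f x) (f y) := by
  obtain ⟨h1, i, s, h0, ⟨j, hj⟩, ⟨k, hk⟩, h4⟩ := h
  have hx : x ∈ Y := hj ▸ h0 j
  have hy : y ∈ Y := hk ▸ h0 k
  refine ⟨fun e => h1 (hf.1 hx hy e), i, f ∘ s, fun l => ⟨s l, h0 l, rfl⟩, ⟨j, ?_⟩, ⟨k, ?_⟩,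
    ?_⟩
  · rw [Function.comp_apply, hj]
  · rw [Function.comp_apply, hk]
  · rwa [← hf.2 i s h0]

theorem sparse_adj {t : ℕ} (h : ¬ HasBiclique M δ t) : Sparse (Adj M δ) t := h

theorem PE_id (Y : Set V) : PE M Y id := ⟨fun x _ y _ h => h, fun _ _ _ => Iff.rfl⟩

theorem PE_mono {Y Y' : Set V} {f : V → V} (h : PE M Y f) (hY : Y' ⊆ Y) : PE M Y' f :=
  ⟨h.1.mono hY, fun i s hs => h.2 i s fun j => hY (hs j)⟩

theorem PE_comp {Y Z : Set V} {f g : V → V} (hf : PE M Y f) (hg : PE M Z g)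
    (hfZ : ∀ y ∈ Y, f y ∈ Z) : PE M Y (g ∘ f) := by
  refine ⟨fun x hx y hy h => hf.1 hx hy (hg.1 (hfZ x hx) (hfZ y hy) h), fun i s hs => ?_⟩
  rw [hf.2 i s hs, hg.2 i (f ∘ s) fun j => hfZ _ (hs j)]
  rfl

theorem PE_congr {Y : Set V} {f g : V → V} (hf : PE M Y f) (h : ∀ y ∈ Y, f y = g y) :
    PE M Y g := by
  refine ⟨fun x hx y hy hxy => hf.1 hx hy (by rw [h x hx, h y hy, hxy]), fun i s hs => ?_⟩
  rw [hf.2 i s hs]
  have : f ∘ s = g ∘ s := by
    funext j
    exact h _ (hs j)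
  rw [this]

/-- adjacency is preserved in the forward direction if the witnessing tuple is inside -/
theorem adj_of_PE_univ {f : V → V} (hf : PE M Set.univ f) {x y : V} (h : Adj M δ x y) :
    Adj M δ (f x) (f y) := by
  obtain ⟨h1, i, s, ⟨j, hj⟩, ⟨k, hk⟩, h4⟩ := h
  refine ⟨fun e => h1 (hf.1 (Set.mem_univ _) (Set.mem_univ _) e), i, f ∘ s, ⟨j, ?_⟩, ⟨k, ?_⟩,
    ?_⟩
  · rw [Function.comp_apply, hj]
  · rw [Function.comp_apply, hk]
  · rwa [← hf.2 i s fun _ => Set.mem_univ _]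

/-- in arity at most two a tuple containing two distinct points contains nothing else -/
theorem entries_of_binary (har : ∀ i, ar i ≤ 2) {x y : V} (hxy : x ≠ y) {i : I}
    {s : Fin (ar i) → V} (hx : ∃ j, s j = x) (hy : ∃ k, s k = y) (l : Fin (ar i)) :
    s l = x ∨ s l = y := by
  obtain ⟨j, hj⟩ := hx
  obtain ⟨k, hk⟩ := hy
  have hjk : j ≠ k := fun e => hxy (by rw [← hj, ← hk, e])
  have h2 := har i
  have hj2 := j.2
  have hk2 := k.2
  have hl2 := l.2
  have hne : j.1 ≠ k.1 := fun e => hjk (Fin.ext e)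
  have : l = j ∨ l = k := by
    have : l.1 = j.1 ∨ l.1 = k.1 := by omega
    rcases this with h | h
    · exact Or.inl (Fin.ext h)
    · exact Or.inr (Fin.ext h)
  rcases this with h | h
  · left; rw [h, hj]
  · right; rw [h, hk]

/-- in arity at most two embeddings preserve and reflect adjacency -/
theorem adj_iff_of_PE (har : ∀ i, ar i ≤ 2) {Y : Set V} {f : V → V} (hf : PE M Y f) {x y : V}
    (hx : x ∈ Y) (hy : y ∈ Y) : Adj M δ (f x) (f y) ↔ Adj M δ x y := by
  constructor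
  · rintro ⟨h1, i, s, hj, hk, h4⟩
    have hxy : x ≠ y := fun e => h1 (by rw [e])
    refine ⟨hxy, ?_⟩
    classical
    have hent := entries_of_binary har h1 hj hk
    -- pull the tuple back
    set s' : Fin (ar i) → V := fun l => if s l = f x then x else y with hs'
    have h5 : f ∘ s' = s := by
      funext l
      by_cases hl : s l = f x
      · simp [hs', hl]
      · rcases hent l with h | h
        · exact absurd h hl
        · change f (if s l = f x then x else y) = s l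
          rw [if_neg hl, h]
    refine ⟨i, s', ?_, ?_, ?_⟩
    · obtain ⟨j, hj⟩ := hj
      exact ⟨j, by simp [hs', hj]⟩
    · obtain ⟨k, hk⟩ := hk
      refine ⟨k, ?_⟩
      have : s k ≠ f x := fun e => h1 (by rw [← e, hk])
      simp [hs', this]
    · intro h6
      apply h4
      rw [← h6, hf.2 i s' ?_, h5]
      intro l
      by_cases hl : s l = f x
      · simp [hs', hl, hx]
      · simp [hs', hl, hy]
  · rintro ⟨h1, i, s, hj, hk, h4⟩
    have hent := entries_of_binary har h1 hj hk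
    refine ⟨fun e => h1 (hf.1 hx hy e), i, f ∘ s, ?_, ?_, ?_⟩
    · obtain ⟨j, hj⟩ := hj
      exact ⟨j, by rw [Function.comp_apply, hj]⟩
    · obtain ⟨k, hk⟩ := hk
      exact ⟨k, by rw [Function.comp_apply, hk]⟩
    · rwa [← hf.2 i s]
      intro l
      rcases hent l with h | h
      · rw [h]; exact hx
      · rw [h]; exact hy

theorem RE.mono {T Y Y' X X' : Set V} (h : RE M T Y X) (hY : Y' ⊆ Y) (hX : X ⊆ X') :
    RE M T Y' X' := by
  obtain ⟨f, hf, hT, hfX⟩ := h
  exact ⟨f, PE_mono hf (Set.union_subset_union_right _ hY), hT, fun y hy => hX (hfX y (hY hy))⟩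

theorem RE.trans {T Y Z X : Set V} (h : RE M T Y Z) (h' : RE M T Z X) : RE M T Y X := by
  obtain ⟨f, hf, hT, hfZ⟩ := h
  obtain ⟨g, hg, hgT, hgX⟩ := h'
  refine ⟨g ∘ f, PE_comp hf hg ?_, fun x hx => ?_, fun y hy => hgX _ (hfZ y hy)⟩
  · intro y hy
    rcases hy with hy | hy
    · rw [hT y hy]; exact Or.inl hy
    · exact Or.inr (hfZ y hy)
  · rw [Function.comp_apply, hT x hx, hgT x hx]

theorem RE.refl (T Y : Set V) : RE M T Y Y := ⟨id, PE_id _, fun _ _ => rfl, fun _ h => h⟩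

theorem VE_refl (Y : Set V) : VE M Y Y := ⟨id, PE_id _, fun _ h => h⟩

theorem RE.ve {T Y X : Set V} (h : RE M T Y X) : VE M Y X := by
  obtain ⟨f, hf, -, hfX⟩ := h
  exact ⟨f, PE_mono hf Set.subset_union_right, hfX⟩

/-- inclusion of ages on sets, in terms of `VE` -/
theorem ageOn_subset_iff {X X' : Set V} : ageOn M X ⊆ ageOn M X' ↔
    ∀ Y : Set V, Y.Finite → VE M Y X → VE M Y X' := by
  classical
  constructor
  · intro h Y hY hYX
    have h1 : indV M hY.toFinset ∈ ageOn M X := by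
      apply indV_mem_ageOn
      rwa [Set.Finite.coe_toFinset]
    have h2 := VE_of_indV M (h h1)
    rwa [Set.Finite.coe_toFinset] at h2
  · intro h G hG
    obtain ⟨Y, hYX, h1, h2⟩ := exists_indV_of_mem M hG
    have h3 : VE M (Y : Set V) X := ⟨id, PE_id _, fun y hy => hYX hy⟩
    exact (ageOn_isAge M X').2.1 G _ (indV_mem_ageOn M (h Y (Finset.finite_toSet Y) h3)) h1

/-- a decreasing sequence of sets: the ages stabilise somewhere -/
theorem exists_stable (hwf : SubagesWF (ageOn M Set.univ)) (X : ℕ → Set V)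
    (hX : ∀ n, X (n + 1) ⊆ X n) :
    ∃ k, ∀ Y : Set V, Y.Finite → VE M Y (X k) → VE M Y (X (k + 1)) := by
  by_contra hno
  push Not at hno
  apply hwf
  refine ⟨fun n => ageOn M (X n), fun k => ⟨ageOn_mono M (Set.subset_univ _),
    ageOn_isAge M _⟩, fun k => ⟨ageOn_mono M (hX k), fun h => ?_⟩⟩
  obtain ⟨Y, hY, h1, h2⟩ := hno k
  exact h2 (ageOn_subset_iff.1 h Y hY h1)

end Structures

end Pool.Agent.Lib.MP_4fb322_lc_h21
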