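import Mathlib
import Pool.Agent.Lib.MP_4fb322_lc_h21.Basic

set_option autoImplicit false

/-!
# Row W01

Recognition of finite sets of pins. PROOF. For `p ∈ P` choose a finite `Y p` with `¬ VE M (Y p) {p}ᶜ`
(hpin); WLOG `p ∈ Y p`. For `p ∈ P` let `S p = {x | ∀ E finite, ∃ f, PE M (insert x E) f ∧ f x = p}`.
(a) `S p ⊆ Y p`: if `x ∉ Y p` take `E = Y p` and `f` with `f x = p`; `f` restricted to `Y p` is an
embedding, so it does not avoid `p` (otherwise VE M (Y p) {p}ᶜ), so `f y = p = f x` for some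
`y ∈ Y p`, contradicting injectivity on `insert x (Y p)`. So `S p` is finite. (b) `p ∈ S p` (identity).
(c) `S p ⊆ P`: if `x ∈ S p`, `x ∉ P`: take the finite set `Y p`; by hnon some embedding `f1` of `Y p`
avoids `x`, so with `E = f1 '' Y p` some `f2` is an embedding of `insert x E` with `f2 x = p`;
`f2 ∘ f1` embeds `Y p` and avoids `p` (injectivity of `f2` on `insert x E`): contradiction.
(d) `y ∈ S x`, `x ∈ S p` implies `y ∈ S p`: given `E`, take `f1` on `insert y E` with `f1 y = x`, then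
`f2` on `insert x (f1 '' (insert y E))` with `f2 x = p`; compose. (e) `T := ⋃ p ∈ T1, S p`: finite,
contains `T1`, inside `P`, and `p ∈ T` implies `S p ⊆ T`. For `p ∈ T` and `x ∈ Y p`, `x ∉ S p`, choose a
finite `E p x` such that no `f` is an embedding of `insert x (E p x)` with `f x = p`. Let `F` be the
(finite) union of `T`, all `Y p` (`p ∈ T`) and all `insert x (E p x)` (`p ∈ T`, `x ∈ Y p \ S p`).
If `f` is an embedding of `F` and `p ∈ T`: `f` does not avoid `p` on `Y p`, so `f x = p` with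
`x ∈ Y p`, and `x ∈ S p ⊆ T` by the choice of `E p x`. Hence `T ⊆ f '' T`; both are finite of the same
cardinality (`f` injective on `T`), so `f '' T = T`. (About 120 lines.)
-/

namespace Pool.Agent.Lib.MP_4fb322_lc_h21

open Set Pool.Agent.Lib.MP_4fb322_lc_h70 Pool.Agent.Lib.MP_4fb322_lc_h91

variable {I : Type} {ar : I → ℕ} {V : Type}

theorem recog {M : (i : I) → Set (Fin (ar i) → V)} {P : Set V}
    (hpin : ∀ p ∈ P, ∃ Y : Set V, Y.Finite ∧ ¬ VE M Y {p}ᶜ)
    (hnon : ∀ x, x ∉ P → ∀ Y : Set V, Y.Finite → VE M Y {x}ᶜ)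
    {T1 : Set V} (h1 : T1.Finite) (h1P : T1 ⊆ P) :
    ∃ T F : Set V, T.Finite ∧ F.Finite ∧ T1 ⊆ T ∧ T ⊆ P ∧ T ⊆ F ∧
      ∀ f : V → V, PE M F f → f '' T = T := by
  classical
  have hY0 : ∀ p, ∃ Y : Set V, Y.Finite ∧ (p ∈ P → ¬ VE M Y {p}ᶜ) := by
    intro p
    by_cases hp : p ∈ P
    · obtain ⟨Y, h2, h3⟩ := hpin p hp
      exact ⟨Y, h2, fun _ => h3⟩
    · exact ⟨∅, Set.finite_empty, fun h => absurd h hp⟩
  choose Y hYf hYn using hY0
  -- an embedding of `Y p` does not avoid `p`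
  have hit : ∀ p ∈ P, ∀ f : V → V, PE M (Y p) f → ∃ y ∈ Y p, f y = p := by
    intro p hp f hf
    by_contra hno
    push Not at hno
    exact hYn p hp ⟨f, hf, fun y hy => hno y hy⟩
  set S : V → Set V := fun p => {x | ∀ E : Set V, E.Finite → ∃ f, PE M (insert x E) f ∧ f x = p}
    with hS
  have ha : ∀ p ∈ P, S p ⊆ Y p := by
    intro p hp x hx
    by_contra hxY
    obtain ⟨f, hf, hfx⟩ := hx (Y p) (hYf p)
    obtain ⟨y, hy, hfy⟩ := hit p hp f (PE_mono hf (Set.subset_insert _ _))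
    have : x = y := hf.1 (Set.mem_insert _ _) (Set.mem_insert_of_mem _ hy) (by rw [hfx, hfy])
    exact hxY (this ▸ hy)
  have hb : ∀ p, p ∈ S p := fun p E _ => ⟨id, PE_id _, rfl⟩
  have hc : ∀ p ∈ P, S p ⊆ P := by
    intro p hp x hx
    by_contra hxP
    obtain ⟨f1, hf1, hav⟩ := hnon x hxP (Y p) (hYf p)
    obtain ⟨f2, hf2, hf2x⟩ := hx (f1 '' Y p) ((hYf p).image f1)
    have hcomp : PE M (Y p) (f2 ∘ f1) :=
      PE_comp hf1 hf2 fun y hy => Set.mem_insert_of_mem _ (Set.mem_image_of_mem f1 hy)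
    obtain ⟨y, hy, hyp⟩ := hit p hp _ hcomp
    have : f1 y = x := hf2.1 (Set.mem_insert_of_mem _ (Set.mem_image_of_mem f1 hy))
      (Set.mem_insert _ _) (by
        rw [hf2x]
        exact hyp)
    exact hav y hy this
  have hd : ∀ p x y, y ∈ S x → x ∈ S p → y ∈ S p := by
    intro p x y hy hx E hE
    obtain ⟨f1, hf1, hf1y⟩ := hy E hE
    obtain ⟨f2, hf2, hf2x⟩ := hx (f1 '' insert y E) ((hE.insert y).image f1)
    refine ⟨f2 ∘ f1, PE_comp hf1 hf2 fun z hz =>
      Set.mem_insert_of_mem _ (Set.mem_image_of_mem f1 hz), ?_⟩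
    rw [Function.comp_apply, hf1y, hf2x]
  have hE0 : ∀ p x, ∃ E : Set V, E.Finite ∧
      (x ∉ S p → ∀ f : V → V, PE M (insert x E) f → f x ≠ p) := by
    intro p x
    by_cases hx : x ∈ S p
    · exact ⟨∅, Set.finite_empty, fun h => absurd hx h⟩
    · have hx' : ¬ ∀ E : Set V, E.Finite → ∃ f, PE M (insert x E) f ∧ f x = p := hx
      push Not at hx'
      obtain ⟨E, hE, h2⟩ := hx'
      exact ⟨E, hE, fun _ => h2⟩
  choose E hEf hE using hE0
  set T : Set V := ⋃ p ∈ T1, S p with hT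
  have hTP : T ⊆ P := by
    intro x hx
    rw [hT, Set.mem_iUnion₂] at hx
    obtain ⟨p, hp, hxp⟩ := hx
    exact hc p (h1P hp) hxp
  have hTf : T.Finite := h1.biUnion fun p hp => (hYf p).subset (ha p (h1P hp))
  have hTS : ∀ p ∈ T, S p ⊆ T := by
    intro p hp y hy
    rw [hT, Set.mem_iUnion₂] at hp ⊢
    obtain ⟨q, hq, hpq⟩ := hp
    exact ⟨q, hq, hd q p y hy hpq⟩
  set F : Set V := T ∪ ⋃ p ∈ T, (Y p ∪ ⋃ x ∈ Y p, insert x (E p x)) with hF
  have hFf : F.Finite := hTf.union (hTf.biUnion fun p _ => (hYf p).union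
    ((hYf p).biUnion fun x _ => (hEf p x).insert x))
  refine ⟨T, F, hTf, hFf, ?_, hTP, Set.subset_union_left, fun f hf => ?_⟩
  · intro p hp
    rw [hT, Set.mem_iUnion₂]
    exact ⟨p, hp, hb p⟩
  · have hsub : T ⊆ f '' T := by
      intro p hp
      have hYF : Y p ⊆ F := by
        intro y hy
        refine Or.inr ?_
        rw [Set.mem_iUnion₂]
        exact ⟨p, hp, Or.inl hy⟩
      obtain ⟨x, hx, hfx⟩ := hit p (hTP hp) f (PE_mono hf hYF)
      have hxS : x ∈ S p := by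
        by_contra hxS
        refine hE p x hxS f (PE_mono hf ?_) hfx
        intro z hz
        refine Or.inr ?_
        rw [Set.mem_iUnion₂]
        refine ⟨p, hp, Or.inr ?_⟩
        rw [Set.mem_iUnion₂]
        exact ⟨x, hx, hz⟩
      exact ⟨x, hTS p hp hxS, hfx⟩
    exact (Set.eq_of_subset_of_ncard_le hsub (Set.ncard_image_le hTf) (hTf.image f)).symm

end Pool.Agent.Lib.MP_4fb322_lc_h21
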