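import Mathlib
import Pool.Agent.Lib.MP_4fb322_lc_h21.Basic

set_option autoImplicit false

/-!
# Row W02

Rooted stability. PROOF. Apply `exists_stable` (Basic) to the sets `T ∪ X n`: there is `k` with
VE M Y (T ∪ X k) → VE M Y (T ∪ X (k+1)) for all finite `Y`. Claim: for every finite `Z` with
`F \ T ⊆ Z ⊆ X k` there is `f` with `PE M (T ∪ Z) f` and `f y ∈ X (k+1)` for `y ∈ Z`, and `f '' T = T`:
apply the above to `T ∪ Z` (which embeds into `T ∪ X k` by `id`); `F ⊆ T ∪ Z` so `f '' T = T` by hrec;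
for `y ∈ Z`, `f y ∈ T ∪ X (k+1)`, and `f y ∈ T = f '' T` would contradict injectivity (`y ∉ T` because
`Z ⊆ X k` is disjoint from `T`). Now given `Y`, put `Z 0 = Y ∪ (F \ T)`, `f n` the map for `Z n`,
`Z (n+1) = Z n ∪ f n '' Z n` (still inside `X k` because `X (k+1) ⊆ X k`). Let `g 0 = id`,
`g (n+1) = f n ∘ g n`; all `g n` map `T` onto `T` bijectively. By pigeonhole (finitely many maps
`T → T`) `g m = g n` on `T` for some `m < n`. Let `h = f (n-1) ∘ ... ∘ f m`: it is an embedding of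
`T ∪ Z m`, maps `Z m` into `X (k+1)` (as `n > m`), and `h ∘ g m = g n = g m` on `T`, `g m '' T = T`, so
`h` is the identity on `T`. It gives `RE M T Y (X (k+1))`. (About 120 lines.)
-/

namespace Pool.Agent.Lib.MP_4fb322_lc_h21

open Set Pool.Agent.Lib.MP_4fb322_lc_h70 Pool.Agent.Lib.MP_4fb322_lc_h91

variable {I : Type} {ar : I → ℕ} {V : Type}

theorem wf_rooted {M : (i : I) → Set (Fin (ar i) → V)} (hwf : SubagesWF (ageOn M Set.univ))
    {T F : Set V} (hT : T.Finite) (hTF : T ⊆ F) (hF : F.Finite)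
    (hrec : ∀ f : V → V, PE M F f → f '' T = T) (X : ℕ → Set V)
    (hX : ∀ n, X (n + 1) ⊆ X n) (hFX : ∀ n, F \ T ⊆ X n) (hXT : ∀ n, Disjoint (X n) T) :
    ∃ k, ∀ Y : Set V, Y.Finite → Y ⊆ X k → RE M T Y (X (k + 1)) := by
  classical
  obtain ⟨k, hk⟩ := exists_stable hwf (fun n => T ∪ X n)
    (fun n => Set.union_subset_union_right _ (hX n))
  refine ⟨k, fun Y hY hYX => ?_⟩
  -- one step
  have step : ∀ Z : Set V, ∃ f : V → V, (Z.Finite ∧ F \ T ⊆ Z ∧ Z ⊆ X k) →
      (PE M (T ∪ Z) f ∧ (∀ y ∈ Z, f y ∈ X (k + 1)) ∧ f '' T = T) := by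
    intro Z
    by_cases hZ : Z.Finite ∧ F \ T ⊆ Z ∧ Z ⊆ X k
    · obtain ⟨hZf, hFZ, hZX⟩ := hZ
      have h1 : VE M (T ∪ Z) (T ∪ X k) :=
        ⟨id, PE_id _, fun y hy => hy.elim (fun h => Or.inl h) (fun h => Or.inr (hZX h))⟩
      obtain ⟨f, hf, hfX⟩ := hk (T ∪ Z) (hT.union hZf) h1
      have hFTZ : F ⊆ T ∪ Z := by
        intro x hx
        by_cases hxT : x ∈ T
        · exact Or.inl hxT
        · exact Or.inr (hFZ ⟨hx, hxT⟩)
      have hfT : f '' T = T := hrec f (PE_mono hf hFTZ)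
      refine ⟨f, fun _ => ⟨hf, fun y hy => ?_, hfT⟩⟩
      rcases hfX y (Or.inr hy) with h | h
      · exfalso
        rw [← hfT] at h
        obtain ⟨x, hx, hxy⟩ := h
        have hxy' : x = y := hf.1 (Or.inl hx) (Or.inr hy) hxy
        rw [hxy'] at hx
        exact Set.disjoint_left.1 (hXT k) (hZX hy) hx
      · exact h
    · exact ⟨id, fun h => absurd h hZ⟩
  choose φ hφ using step
  -- the sets
  let Z : ℕ → Set V := fun n => Nat.rec (Y ∪ (F \ T)) (fun _ W => W ∪ φ W '' W) n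
  have hZ0 : Z 0 = Y ∪ (F \ T) := rfl
  have hZs : ∀ n, Z (n + 1) = Z n ∪ φ (Z n) '' Z n := fun n => rfl
  have hgood : ∀ n, (Z n).Finite ∧ F \ T ⊆ Z n ∧ Z n ⊆ X k := by
    intro n
    induction n with
    | zero =>
      rw [hZ0]
      exact ⟨hY.union (hF.subset Set.sdiff_subset), Set.subset_union_right,
        Set.union_subset hYX (hFX k)⟩
    | succ n ih =>
      rw [hZs]
      obtain ⟨h1, h2, h3⟩ := ih
      refine ⟨h1.union (h1.image _), h2.trans Set.subset_union_left, Set.union_subset h3 ?_⟩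
      rintro _ ⟨y, hy, rfl⟩
      exact hX k ((hφ (Z n) ⟨h1, h2, h3⟩).2.1 y hy)
  have hZmono : ∀ n, Y ⊆ Z n := by
    intro n
    induction n with
    | zero => exact Set.subset_union_left
    | succ n ih => exact ih.trans Set.subset_union_left
  -- the compositions
  let H : ℕ → ℕ → V → V := fun m j => Nat.rec id (fun i g => φ (Z (m + i)) ∘ g) j
  have hH0 : ∀ m, H m 0 = id := fun m => rfl
  have hHs : ∀ m j, H m (j + 1) = φ (Z (m + j)) ∘ H m j := fun m j => rfl
  have hHZ : ∀ m j, ∀ y ∈ Z m, H m j y ∈ Z (m + j) := by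
    intro m j
    induction j with
    | zero => exact fun y hy => hy
    | succ j ih =>
      intro y hy
      have : m + (j + 1) = (m + j) + 1 := by omega
      rw [this, hZs, hHs]
      exact Or.inr ⟨H m j y, ih y hy, rfl⟩
  have hHT : ∀ m j, H m j '' T = T := by
    intro m j
    induction j with
    | zero => rw [hH0, Set.image_id]
    | succ j ih => rw [hHs, Set.image_comp, ih, (hφ _ (hgood _)).2.2]
  have hHP : ∀ m j, PE M (T ∪ Z m) (H m j) := by
    intro m j
    induction j with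
    | zero => exact PE_id _
    | succ j ih =>
      rw [hHs]
      refine PE_comp ih (hφ _ (hgood (m + j))).1 fun y hy => ?_
      rcases hy with hy | hy
      · left
        rw [← hHT m j]
        exact ⟨y, hy, rfl⟩
      · exact Or.inr (hHZ m j y hy)
  have hHc : ∀ m j, H 0 (m + j) = H m j ∘ H 0 m := by
    intro m j
    induction j with
    | zero => rfl
    | succ j ih =>
      have : m + (j + 1) = (m + j) + 1 := by omega
      rw [this, hHs, ih, hHs]
      have h0 : 0 + (m + j) = m + j := by omega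
      rw [h0]
      rfl
  -- pigeonhole
  have hfin : Finite T := hT.to_subtype
  let G : ℕ → (T → T) := fun n x => ⟨H 0 n x, by
    have := hHT 0 n
    have h2 : H 0 n x ∈ H 0 n '' T := ⟨x, x.2, rfl⟩
    rwa [this] at h2⟩
  have hp : ∃ m j, ∀ x ∈ T, H 0 (m + (j + 1)) x = H 0 m x := by
    obtain ⟨m, n, hmn, hG⟩ := Finite.exists_ne_map_eq_of_infinite G
    have hG' : ∀ x ∈ T, H 0 m x = H 0 n x := by
      intro x hx
      have := congrFun hG ⟨x, hx⟩
      exact congrArg Subtype.val this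
    rcases lt_or_gt_of_ne hmn with h | h
    · obtain ⟨j, rfl⟩ : ∃ j, n = m + (j + 1) := ⟨n - m - 1, by omega⟩
      exact ⟨m, j, fun x hx => (hG' x hx).symm⟩
    · obtain ⟨j, rfl⟩ : ∃ j, m = n + (j + 1) := ⟨m - n - 1, by omega⟩
      exact ⟨n, j, fun x hx => hG' x hx⟩
  obtain ⟨m, j, hmj⟩ := hp
  refine ⟨H m (j + 1), PE_mono (hHP m (j + 1)) (Set.union_subset_union_right _ (hZmono m)), ?_, ?_⟩
  · intro x hx
    have hx' : x ∈ H 0 m '' T := by
      rw [hHT]
      exact hx
    obtain ⟨y, hy, rfl⟩ := hx'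
    have h1 := hmj y hy
    rw [hHc] at h1
    exact h1
  · intro y hy
    rw [hHs]
    exact (hφ _ (hgood (m + j))).2.1 _ (hHZ m j y (hZmono m hy))

end Pool.Agent.Lib.MP_4fb322_lc_h21
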