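import Mathlib
import Pool.Agent.Lib.MP_4fb322_lc_h21.Basic

set_option autoImplicit false

/-!
# Row W03

Gluing of rooted embeddings. PROOF. `h x = f x` if `x ∈ Y1`, `h x = g x` otherwise (on `T` use hfT, hgT
and disjointness). Injectivity on `T ∪ (Y1 ∪ Y2)`: cases, using injectivity of `f` on `T ∪ Y1`, of `g` on
`T ∪ Y2`, and `f x ≠ g y`. Tuples `s` with entries in `T ∪ (Y1 ∪ Y2)`: if no entry lies in `Y2`, then
all entries are in `T ∪ Y1` and `h ∘ s = f ∘ s`; if no entry lies in `Y1`, similarly with `g`;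
otherwise some entry `x ∈ Y1` and some entry `y ∈ Y2`, `x ≠ y`, and hn gives `s ∈ M i ↔ δ i`, while him
gives `h ∘ s ∈ M i ↔ δ i` (its entries lie in `T ∪ (f '' Y1 ∪ g '' Y2)`, and contain `f x` and `g y`).
-/

namespace Pool.Agent.Lib.MP_4fb322_lc_h21

open Set Pool.Agent.Lib.MP_4fb322_lc_h70 Pool.Agent.Lib.MP_4fb322_lc_h91

variable {I : Type} {ar : I → ℕ} {V : Type}

theorem glue_rooted {M : (i : I) → Set (Fin (ar i) → V)} {δ : I → Prop} {T Y1 Y2 : Set V}
    {f g : V → V} (hf : PE M (T ∪ Y1) f) (hfT : ∀ x ∈ T, f x = x) (hg : PE M (T ∪ Y2) g)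
    (hgT : ∀ x ∈ T, g x = x) (hd : Disjoint Y1 Y2) (hT1 : Disjoint T Y1) (hT2 : Disjoint T Y2)
    (hn : ∀ x ∈ Y1, ∀ y ∈ Y2, ¬ Rel M δ (T ∪ (Y1 ∪ Y2)) x y)
    (him : ∀ x ∈ Y1, ∀ y ∈ Y2, f x ≠ g y ∧ ¬ Rel M δ (T ∪ (f '' Y1 ∪ g '' Y2)) (f x) (g y)) :
    ∃ h : V → V, PE M (T ∪ (Y1 ∪ Y2)) h ∧ (∀ x ∈ T, h x = x) ∧ (∀ x ∈ Y1, h x = f x) ∧
      ∀ y ∈ Y2, h y = g y := by
  classical
  let h : V → V := fun x => if x ∈ Y1 then f x else g x
  have h1 : ∀ x ∈ Y1, h x = f x := fun x hx => if_pos hx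
  have h0 : ∀ x, x ∉ Y1 → h x = g x := fun x hx => if_neg hx
  have hTn : ∀ x ∈ T, x ∉ Y1 := fun x hx hx' => Set.disjoint_left.mp hT1 hx hx'
  have h2n : ∀ x ∈ Y2, x ∉ Y1 := fun x hx hx' => Set.disjoint_left.mp hd hx' hx
  have hT : ∀ x ∈ T, h x = x := fun x hx => by rw [h0 x (hTn x hx), hgT x hx]
  have h2 : ∀ y ∈ Y2, h y = g y := fun y hy => h0 y (h2n y hy)
  have hTf : ∀ x ∈ T ∪ Y1, h x = f x := by
    rintro x (hx | hx)
    · rw [hT x hx, hfT x hx]
    · exact h1 x hx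
  have hTg : ∀ x ∈ T ∪ Y2, h x = g x := by
    rintro x (hx | hx)
    · rw [hT x hx, hgT x hx]
    · exact h2 x hx
  refine ⟨h, ⟨?_, ?_⟩, hT, h1, h2⟩
  · intro x hx y hy hxy
    by_cases hx1 : x ∈ T ∪ Y1
    · by_cases hy1 : y ∈ T ∪ Y1
      · rw [hTf x hx1, hTf y hy1] at hxy
        exact hf.1 hx1 hy1 hxy
      · have hy2 : y ∈ Y2 := by
          rcases hy with hy | hy | hy
          · exact absurd (Or.inl hy) hy1
          · exact absurd (Or.inr hy) hy1
          · exact hy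
        rcases hx1 with hxT | hxY
        · rw [hTg x (Or.inl hxT), h2 y hy2] at hxy
          exact hg.1 (Or.inl hxT) (Or.inr hy2) hxy
        · rw [h1 x hxY, h2 y hy2] at hxy
          exact absurd hxy (him x hxY y hy2).1
    · have hx2 : x ∈ Y2 := by
        rcases hx with hx | hx | hx
        · exact absurd (Or.inl hx) hx1
        · exact absurd (Or.inr hx) hx1
        · exact hx
      by_cases hy1 : y ∈ Y1
      · rw [h2 x hx2, h1 y hy1] at hxy
        exact absurd hxy.symm (him y hy1 x hx2).1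
      · have hy2 : y ∈ T ∪ Y2 := by
          rcases hy with hy | hy | hy
          · exact Or.inl hy
          · exact absurd hy hy1
          · exact Or.inr hy
        rw [h2 x hx2, hTg y hy2] at hxy
        exact hg.1 (Or.inr hx2) hy2 hxy
  · intro i s hs
    by_cases hk : ∃ k, s k ∈ Y2
    · by_cases hj : ∃ j, s j ∈ Y1
      · obtain ⟨k, hk⟩ := hk
        obtain ⟨j, hj⟩ := hj
        have hne : s j ≠ s k := fun he => Set.disjoint_left.mp hd hj (he ▸ hk)
        have e1 : s ∈ M i ↔ δ i := by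
          by_contra hcon
          exact hn (s j) hj (s k) hk ⟨hne, i, s, hs, ⟨j, rfl⟩, ⟨k, rfl⟩, hcon⟩
        have e2 : h ∘ s ∈ M i ↔ δ i := by
          by_contra hcon
          refine (him (s j) hj (s k) hk).2 ⟨(him (s j) hj (s k) hk).1, i, h ∘ s, ?_,
            ⟨j, h1 _ hj⟩, ⟨k, h2 _ hk⟩, hcon⟩
          intro l
          change h (s l) ∈ _
          rcases hs l with hl | hl | hl
          · rw [hT _ hl]
            exact Or.inl hl
          · rw [h1 _ hl]
            exact Or.inr (Or.inl ⟨_, hl, rfl⟩)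
          · rw [h2 _ hl]
            exact Or.inr (Or.inr ⟨_, hl, rfl⟩)
        exact e1.trans e2.symm
      · have hsg : ∀ l, s l ∈ T ∪ Y2 := by
          intro l
          rcases hs l with hl | hl | hl
          · exact Or.inl hl
          · exact absurd ⟨l, hl⟩ hj
          · exact Or.inr hl
        have e : h ∘ s = g ∘ s := funext fun l => hTg _ (hsg l)
        rw [e]
        exact hg.2 i s hsg
    · have hsf : ∀ l, s l ∈ T ∪ Y1 := by
        intro l
        rcases hs l with hl | hl | hl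
        · exact Or.inl hl
        · exact Or.inr hl
        · exact absurd ⟨l, hl⟩ hk
      have e : h ∘ s = f ∘ s := funext fun l => hTf _ (hsf l)
      rw [e]
      exact hf.2 i s hsf

end Pool.Agent.Lib.MP_4fb322_lc_h21
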