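import Mathlib
import Pool.Agent.Lib.MP_4fb322_lc_h21.Basic
import Pool.Agent.Lib.MP_4fb322_lc_h21.W02
import Pool.Agent.Lib.MP_4fb322_lc_h21.W03

set_option autoImplicit false

/-!
# Row W04

Only finitely many components outside T contain pins. PROOF. Suppose no two of the `κ n` are linked in
`Tᶜ`. Let `K n = {y | Linked (Adj M δ) Tᶜ (κ n) y}`. These sets are pairwise disjoint, `K n ⊆ Tᶜ`,
`κ n ∈ K n`, and `x ∈ K n`, `y ∉ T`, `Adj x y` implies `y ∈ K n` (Linked.single, trans). As `F` is finite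
and the `K n` are disjoint, `K n ∩ F = ∅` for all `n ≥ n0`; replace `κ n` by `κ (n0 + n)`. Put
`X n = Tᶜ \ ⋃ i < n, K i`. By wf_rooted: `k` with RE M T Y (X (k+1)) for all finite `Y ⊆ X k`.
Claim: every finite `Z` satisfies `VE M Z {κ k}ᶜ` (contradiction to hpin). Let `Y2 = Z ∩ X k`,
`Y1 = Z ∩ ⋃ i < k, K i`, `g` the rooted embedding of `Y2` into `X (k+1)`. Apply glue_rooted to
`T, Y1, Y2, id, g`: `x ∈ Y1`, `y ∈ X k` are never adjacent (component), nor `x` and `g y ∈ X (k+1) ⊆ X k`,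
and `x ≠ g y`. The glued map `h` is an embedding of `T ∪ (Y1 ∪ Y2) ⊇ Z` (every point is in `T`, in some
`K i` with `i < k`, or in `X k`), and its values avoid `κ k`: on `T` since `κ k ∉ T`; on `Y1` since the
`K i` are disjoint from `K k`; on `Y2` since `X (k+1)` is disjoint from `K k`. (About 110 lines.)
-/

namespace Pool.Agent.Lib.MP_4fb322_lc_h21

open Set Pool.Agent.Lib.MP_4fb322_lc_h70 Pool.Agent.Lib.MP_4fb322_lc_h91

variable {I : Type} {ar : I → ℕ} {V : Type}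

theorem fin_comps {M : (i : I) → Set (Fin (ar i) → V)} {δ : I → Prop} {P : Set V}
    (hwf : SubagesWF (ageOn M Set.univ))
    (hpin : ∀ p ∈ P, ∃ Y : Set V, Y.Finite ∧ ¬ VE M Y {p}ᶜ)
    {T F : Set V} (hT : T.Finite) (hTF : T ⊆ F) (hF : F.Finite)
    (hrec : ∀ f : V → V, PE M F f → f '' T = T) (κ : ℕ → V) (hκ : ∀ n, κ n ∈ P ∧ κ n ∉ T) :
    ∃ m n, m ≠ n ∧ Linked (Adj M δ) Tᶜ (κ m) (κ n) := by
  classical
  by_contra hno
  push Not at hno
  have hsy : ∀ x y : V, Adj M δ x y → Adj M δ y x := adj_symm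
  -- only finitely many components meet `F`
  have hfin : {n | ∃ x ∈ F, Linked (Adj M δ) Tᶜ (κ n) x}.Finite := by
    have hch : ∀ n ∈ {n | ∃ x ∈ F, Linked (Adj M δ) Tᶜ (κ n) x},
        ∃ x ∈ F, Linked (Adj M δ) Tᶜ (κ n) x := fun n hn => hn
    have : Nonempty V := ⟨κ 0⟩
    choose! φ hφF hφL using hch
    refine Set.Finite.of_injOn (f := φ) (t := F) (fun n hn => hφF n hn) ?_ hF
    intro m hm n hn hmn
    by_contra hne
    apply hno m n hne
    have h1 := hφL m hm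
    have h2 := hφL n hn
    rw [hmn] at h1
    exact h1.trans (h2.symm hsy)
  obtain ⟨n0, hn0⟩ : ∃ n0, ∀ n ∈ {n | ∃ x ∈ F, Linked (Adj M δ) Tᶜ (κ n) x}, n < n0 := by
    obtain ⟨N, hN⟩ := hfin.bddAbove
    exact ⟨N + 1, fun n hn => Nat.lt_succ_of_le (hN hn)⟩
  set c : ℕ → V := fun n => κ (n0 + n) with hc
  have hcP : ∀ n, c n ∈ P := fun n => (hκ _).1
  have hcT : ∀ n, c n ∉ T := fun n => (hκ _).2
  have hcl : ∀ m n, m ≠ n → ¬ Linked (Adj M δ) Tᶜ (c m) (c n) :=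
    fun m n hmn => hno _ _ (by omega)
  have hcF : ∀ n, ∀ x ∈ F, ¬ Linked (Adj M δ) Tᶜ (c n) x := by
    intro n x hx hL
    have := hn0 (n0 + n) ⟨x, hx, hL⟩
    omega
  set X : ℕ → Set V := fun n => {y | y ∉ T ∧ ∀ i, i < n → ¬ Linked (Adj M δ) Tᶜ (c i) y}
    with hX
  have hXs : ∀ n, X (n + 1) ⊆ X n := fun n y hy => ⟨hy.1, fun i hi => hy.2 i (by omega)⟩
  have hFX : ∀ n, F \ T ⊆ X n := fun n y hy => ⟨hy.2, fun i _ => hcF i y hy.1⟩
  have hXT : ∀ n, Disjoint (X n) T := fun n =>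
    Set.disjoint_left.2 fun y hy hyT => hy.1 hyT
  obtain ⟨k, hk⟩ := wf_rooted hwf hT hTF hF hrec X hXs hFX hXT
  obtain ⟨Z, hZf, hZ⟩ := hpin (c k) (hcP k)
  apply hZ
  obtain ⟨g, hg, hgT, hgX⟩ := hk (Z ∩ X k) (hZf.inter_of_left _) Set.inter_subset_right
  -- points of the first components
  set Y1 : Set V := {z | z ∈ Z ∧ ∃ i, i < k ∧ Linked (Adj M δ) Tᶜ (c i) z} with hY1
  have hnadj : ∀ x ∈ Y1, ∀ y ∈ X k, ¬ Adj M δ x y := by
    rintro x ⟨-, i, hi, hL⟩ y hy hA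
    exact hy.2 i hi (hL.trans (Linked.single hL.right hy.1 hA))
  have hgXk : ∀ y ∈ Z ∩ X k, g y ∈ X k := fun y hy => hXs k (hgX y hy)
  obtain ⟨h, hh, hhT, hh1, hh2⟩ := glue_rooted (M := M) (δ := δ) (T := T) (Y1 := Y1)
    (Y2 := Z ∩ X k) (f := id) (g := g) (PE_id _) (fun _ _ => rfl) hg hgT
    (Set.disjoint_left.2 (by
      rintro x ⟨-, i, hi, hL⟩ ⟨-, hx⟩
      exact hx.2 i hi hL))
    (Set.disjoint_left.2 (by
      rintro x hxT ⟨-, i, hi, hL⟩
      exact hL.right hxT))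
    (Set.disjoint_left.2 (by
      rintro x hxT ⟨-, hx⟩
      exact hx.1 hxT))
    (fun x hx y hy hR => hnadj x hx y hy.2 hR.adj)
    (fun x hx y hy => ⟨by
      intro he
      obtain ⟨-, i, hi, hL⟩ := hx
      have h1 := (hgXk y hy).2 i hi
      rw [← he] at h1
      exact h1 hL, fun hR => hnadj x hx (g y) (hgXk y hy) hR.adj⟩)
  have hcover : Z ⊆ T ∪ (Y1 ∪ Z ∩ X k) := by
    intro z hz
    by_cases hzT : z ∈ T
    · exact Or.inl hzT
    · right
      by_cases hzK : ∃ i, i < k ∧ Linked (Adj M δ) Tᶜ (c i) z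
      · exact Or.inl ⟨hz, hzK⟩
      · push Not at hzK
        exact Or.inr ⟨hz, hzT, hzK⟩
  refine ⟨h, PE_mono hh hcover, ?_⟩
  intro z hz
  rw [Set.mem_compl_iff, Set.mem_singleton_iff]
  rcases hcover hz with hzT | hz1 | hz2
  · rw [hhT z hzT]
    intro he
    exact hcT k (he ▸ hzT)
  · rw [hh1 z hz1]
    obtain ⟨-, i, hi, hL⟩ := hz1
    intro he
    have he' : z = c k := he
    rw [he'] at hL
    exact hcl i k (by omega) hL
  · rw [hh2 z hz2]
    intro he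
    have h1 := (hgX z hz2).2 k (by omega)
    rw [he] at h1
    exact h1 (Linked.refl (hcT k))

end Pool.Agent.Lib.MP_4fb322_lc_h21
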