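import Mathlib
import Pool.Agent.Lib.MP_4fb322_lc_h21.Basic

set_option autoImplicit false

/-!
# Row W05

A finite kernel inside P. PROOF. `exists_kernel` (h70 LocFin; its hypothesis is hwf) gives a finite `T'`
with `Kernel M T'`. Let `T0 = T' ∩ P`. Claim `Kernel M T0`: let `F` finite, `Y` finite, VE M Y T0ᶜ
through `f`. By hshift with the finite set `T'` there is `g` (P-fixed, moves Pᶜ off `T'` and `P`); `g ∘ f`
embeds `Y` into `T'ᶜ` (a point `x ∉ T0`: if `x ∈ P` then `g x = x ∉ T'`; if `x ∉ P` then `g x ∉ T'`). So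
VE M Y T'ᶜ, hence VE M Y (T' ∪ F)ᶜ (kernel property), hence VE M Y (T0 ∪ F)ᶜ by monotonicity. Then, as at
the end of h91 `exists_finite_deletion`: `disjointSums_of_sparse (ageOn_isAge M T0ᶜ)
(inexhaustible_of_kernel hk) (fun C hC => noBiclique_of_mem hK hC)`, `sumClosed_of_disjointSums` and
`noAntichain_of_sumClosed` (with hwf.mono). (About 40 lines.)
-/

namespace Pool.Agent.Lib.MP_4fb322_lc_h21

open Set Pool.Agent.Lib.MP_4fb322_lc_h70 Pool.Agent.Lib.MP_4fb322_lc_h91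

variable {I : Type} {ar : I → ℕ} {V : Type}

theorem kernel_pins {M : (i : I) → Set (Fin (ar i) → V)} {δ : I → Prop} {t : ℕ} {P : Set V}
    (hwf : SubagesWF (ageOn M Set.univ)) (hK : ¬ HasBiclique M δ t)
    (hshift : ∀ X : Set V, X.Finite → ∃ f : V → V, PE M Set.univ f ∧ (∀ p ∈ P, f p = p) ∧
      ∀ x, x ∉ P → f x ∉ P ∧ f x ∉ X) :
    ∃ T0 : Set V, T0.Finite ∧ T0 ⊆ P ∧ NoAntichain (ageOn M T0ᶜ) := by
  obtain ⟨T', hT', hk'⟩ := exists_kernel hwf
  have hk : Kernel M (T' ∩ P) := by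
    intro F hF Y hY hYT
    obtain ⟨g, hg, hgP, hgX⟩ := hshift T' hT'
    have h1 : VE M (T' ∩ P)ᶜ T'ᶜ := by
      refine ⟨g, ⟨hg.1.mono (Set.subset_univ _), fun i t _ => hg.2 i t fun _ => Set.mem_univ _⟩, ?_⟩
      intro x hx hgx
      by_cases hxP : x ∈ P
      · rw [hgP x hxP] at hgx
        exact hx ⟨hgx, hxP⟩
      · exact (hgX x hxP).2 hgx
    have h2 : VE M Y (T' ∪ F)ᶜ := hk' F hF Y hY (hYT.trans h1)
    exact h2.mono (le_refl Y)
      (Set.compl_subset_compl.2 (Set.union_subset_union_left F Set.inter_subset_left))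
  refine ⟨T' ∩ P, hT'.inter_of_left P, Set.inter_subset_right, ?_⟩
  exact noAntichain_of_sumClosed (ageOn_isAge M (T' ∩ P)ᶜ)
    (sumClosed_of_disjointSums (ageOn_isAge M (T' ∩ P)ᶜ)
      (disjointSums_of_sparse (ageOn_isAge M (T' ∩ P)ᶜ) (inexhaustible_of_kernel hk)
        (fun C hC => noBiclique_of_mem hK hC)))
    (hwf.mono (ageOn_mono M (Set.subset_univ _)))

end Pool.Agent.Lib.MP_4fb322_lc_h21
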