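import Mathlib
import Pool.Agent.Lib.MP_4fb322_lc_h21.Basic

set_option autoImplicit false

/-!
# Row W06

From ages to graphs (arity at most two). PROOF. Given `Z n`, apply `exists_emb_subseq` (h70 LocFin) to
`s n = indV M (Z n)` (it lies in `ageOn M X`: `indV_mem_ageOn` with the identity): strictly increasing
`g` with `Emb (s (g m)) (s (g n))` for `m < n`; take `i = g 0`, `j = g 1`. `VE_of_emb` (h70 LocFin) gives
`f : V → V` with `PE M (Z i) f` and values in `Z j` on `Z i`. Adjacency: `adj_iff_of_PE har` (Basic).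
(About 25 lines.)
-/

namespace Pool.Agent.Lib.MP_4fb322_lc_h21

open Set Pool.Agent.Lib.MP_4fb322_lc_h70 Pool.Agent.Lib.MP_4fb322_lc_h91

variable {I : Type} {ar : I → ℕ} {V : Type}

theorem gwqo_of_noAntichain (har : ∀ i, ar i ≤ 2) {M : (i : I) → Set (Fin (ar i) → V)}
    {δ : I → Prop} {X : Set V} (h : NoAntichain (ageOn M X)) : GWqo (Adj M δ) X := by
  intro Z hZ
  obtain ⟨g, hg, hE⟩ := exists_emb_subseq h (fun n => indV M (Z n))
    (fun n => indV_mem_ageOn M ⟨id, PE_id _, fun y hy => hZ n hy⟩)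
  obtain ⟨f, hf, hfX⟩ := VE_of_emb (hE 0 1 Nat.zero_lt_one)
  refine ⟨g 0, g 1, hg Nat.zero_lt_one, f, hf.1, fun x hx => hfX x hx, fun x hx y hy => ?_⟩
  exact adj_iff_of_PE har hf hx hy

end Pool.Agent.Lib.MP_4fb322_lc_h21
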