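import Mathlib
import Pool.Agent.Lib.MP_4fb322_lc_h21.Basic

set_option autoImplicit false

/-!
# Row W07

Dumbbells of very different lengths do not embed (pure graph theory). PROOF. Let `w', a1, b1, a1', b1'`
be the data of `Z'` (length `d'`), `w, ...` those of `Z`. WLOG `d' ≥ 10` (otherwise done, `d ≥ 10`).
Region function `ρ : V → ℕ` on `Z'`: `ρ x = 2` for `x ∈ L = {a1, b1, w' 0, w' 1, w' 2}`, `ρ (w' i) = i` for
`3 ≤ i ≤ d'-3`, `ρ x = d'-2` for `x ∈ R = {a1', b1', w' d', w' (d'-1), w' (d'-2)}`. Facts: adjacent vertices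
of `Z'` have `ρ` differing by at most 1; for `3 ≤ i ≤ d'-3` the only neighbours of `w' i` in `Z'` are
`w' (i-1)` and `w' (i+1)`. Let `z k = f (w k)`, `k ≤ d`: distinct points of `Z'`, consecutive ones
adjacent. `z 0` has three neighbours in `Z'` (images of `a, b, w 1`), so `z 0 ∈ L ∪ R`; same for `z d`.
The function `k ↦ ρ (z k)` changes by at most 1 in each step. If it takes both values `2` and `d'-2`,
then `d ≥ d' - 4`. Otherwise, say all `ρ (z k) < d'-2` and `z 0, z d ∈ L` (the other case is symmetric: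
use the reversed picture or repeat the argument). As `d + 1 > 5 ≥ |L|` and `z` is injective, some
`z k ∉ L`; take `k` with `ρ (z k)` maximal, `= m ≥ 3`; then `0 < k < d`, `z k = w' m`, and `z (k-1)`,
`z (k+1)` are neighbours of `w' m` with `ρ ≤ m`, so both equal `w' (m-1)` (the neighbour `w' (m+1)` has
`ρ = m+1`), contradicting injectivity. (About 200 lines; Dumb is symmetric under reversal
`w ↦ w (d - ·)`, `(a,b) ↔ (a',b')`, if A is symmetric: proving this first halves the work.)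
-/

namespace Pool.Agent.Lib.MP_4fb322_lc_h21

open Set Pool.Agent.Lib.MP_4fb322_lc_h70 Pool.Agent.Lib.MP_4fb322_lc_h91

variable {I : Type} {ar : I → ℕ} {V : Type}

/-- the data of a dumbbell -/
private structure DD (A : V → V → Prop) (d : ℕ) (Z : Finset V) (w : ℕ → V)
    (a b a' b' : V) : Prop where
  mem : ∀ x, x ∈ Z ↔ (∃ i, i ≤ d ∧ w i = x) ∨ x = a ∨ x = b ∨ x = a' ∨ x = b'
  inj : ∀ i, i ≤ d → ∀ j, j ≤ d → w i = w j → i = j
  step : ∀ i, i < d → A (w i) (w (i + 1))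
  chord : ∀ i, i ≤ d → ∀ j, j ≤ d → A (w i) (w j) → i ≤ j + 1 ∧ j ≤ i + 1
  off : ∀ i, i ≤ d → w i ≠ a ∧ w i ≠ b ∧ w i ≠ a' ∧ w i ≠ b'
  ab : a ≠ b
  ab' : a' ≠ b'
  aa' : a ≠ a'
  aab' : a ≠ b'
  ba' : b ≠ a'
  bb' : b ≠ b'
  Aa : A (w 0) a
  Ab : A (w 0) b
  Aa' : A (w d) a'
  Ab' : A (w d) b'
  nearL : ∀ i, i ≤ d → (A (w i) a ∨ A (w i) b) → i ≤ 2
  nearR : ∀ i, i ≤ d → (A (w i) a' ∨ A (w i) b') → d ≤ i + 2
  naa' : ¬ A a a'
  nab' : ¬ A a b'
  nba' : ¬ A b a'
  nbb' : ¬ A b b'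

private theorem DD.of_dumb {A : V → V → Prop} {d : ℕ} {Z : Finset V} (h : Dumb A d Z) :
    ∃ w a b a' b', DD A d Z w a b a' b' := by
  obtain ⟨w, a, b, a', b', h1, h2, h3, h4, h5, h6, h7, h8, h9, h10, h11, h12, h13, h14, h15,
    h16, h17, h18, h19, h20, h21⟩ := h
  exact ⟨w, a, b, a', b', ⟨h1, h2, h3, h4, h5, h6, h7, h8, h9, h10, h11, h12, h13, h14, h15,
    h16, h17, h18, h19, h20, h21⟩⟩

private theorem DD.rev {A : V → V → Prop} (hs : ∀ x y, A x y → A y x) {d : ℕ} {Z : Finset V}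
    {w : ℕ → V} {a b a' b' : V} (h : DD A d Z w a b a' b') :
    DD A d Z (fun i => w (d - i)) a' b' a b where
  mem := by
    intro x
    rw [h.mem x]
    constructor
    · rintro (⟨i, hi, rfl⟩ | h | h | h | h)
      · refine Or.inl ⟨d - i, by omega, ?_⟩
        congr 1
        omega
      all_goals simp [h]
    · rintro (⟨i, hi, rfl⟩ | h | h | h | h)
      · exact Or.inl ⟨d - i, by omega, rfl⟩
      all_goals simp [h]
  inj := by
    intro i hi j hj hij
    have := h.inj (d - i) (by omega) (d - j) (by omega) hij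
    omega
  step := by
    intro i hi
    apply hs
    have h1 := h.step (d - (i + 1)) (by omega)
    have h2 : d - (i + 1) + 1 = d - i := by omega
    rwa [h2] at h1
  chord := by
    intro i hi j hj hA
    have := h.chord (d - i) (by omega) (d - j) (by omega) hA
    omega
  off := by
    intro i hi
    have := h.off (d - i) (by omega)
    exact ⟨this.2.2.1, this.2.2.2, this.1, this.2.1⟩
  ab := h.ab'
  ab' := h.ab
  aa' := h.aa'.symm
  aab' := h.ba'.symm
  ba' := h.aab'.symm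
  bb' := h.bb'.symm
  Aa := by simpa using h.Aa'
  Ab := by simpa using h.Ab'
  Aa' := by simpa using h.Aa
  Ab' := by simpa using h.Ab
  nearL := by
    intro i hi hA
    have := h.nearR (d - i) (by omega) hA
    omega
  nearR := by
    intro i hi hA
    have := h.nearL (d - i) (by omega) hA
    omega
  naa' := fun hA => h.naa' (hs _ _ hA)
  nab' := fun hA => h.nba' (hs _ _ hA)
  nba' := fun hA => h.nab' (hs _ _ hA)
  nbb' := fun hA => h.nbb' (hs _ _ hA)

/-- the clipped position of a vertex of the dumbbell -/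
private def Pos (d : ℕ) (w : ℕ → V) (a b a' b' : V) (x : V) (m : ℕ) : Prop :=
  ((x = a ∨ x = b) ∧ m = 2) ∨ ((x = a' ∨ x = b') ∧ m + 2 = d) ∨
    (∃ i, i ≤ d ∧ x = w i ∧ ((i ≤ 2 ∧ m = 2) ∨ (3 ≤ i ∧ i + 3 ≤ d ∧ m = i) ∨
      (d ≤ i + 2 ∧ m + 2 = d)))

section

variable {A : V → V → Prop} {d : ℕ} {Z : Finset V} {w : ℕ → V} {a b a' b' : V}

private theorem DD.exists_pos (h : DD A d Z w a b a' b') (hd : 10 ≤ d) {x : V} (hx : x ∈ Z) :
    ∃ m, Pos d w a b a' b' x m := by
  rcases (h.mem x).1 hx with ⟨i, hi, rfl⟩ | hx | hx | hx | hx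
  · by_cases h1 : i ≤ 2
    · exact ⟨2, Or.inr (Or.inr ⟨i, hi, rfl, Or.inl ⟨h1, rfl⟩⟩)⟩
    · by_cases h2 : i + 3 ≤ d
      · exact ⟨i, Or.inr (Or.inr ⟨i, hi, rfl, Or.inr (Or.inl ⟨by omega, h2, rfl⟩)⟩)⟩
      · exact ⟨d - 2, Or.inr (Or.inr ⟨i, hi, rfl, Or.inr (Or.inr ⟨by omega, by omega⟩)⟩)⟩
  · exact ⟨2, Or.inl ⟨Or.inl hx, rfl⟩⟩
  · exact ⟨2, Or.inl ⟨Or.inr hx, rfl⟩⟩
  · exact ⟨d - 2, Or.inr (Or.inl ⟨Or.inl hx, by omega⟩)⟩
  · exact ⟨d - 2, Or.inr (Or.inl ⟨Or.inr hx, by omega⟩)⟩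

private theorem Pos.bd (hd : 10 ≤ d) {x : V} {m : ℕ} (h : Pos d w a b a' b' x m) :
    2 ≤ m ∧ m + 2 ≤ d := by
  rcases h with ⟨-, h⟩ | ⟨-, h⟩ | ⟨i, hi, -, h⟩ <;> omega

private theorem Pos.interior (hd : 10 ≤ d) {x : V} {m : ℕ} (h : Pos d w a b a' b' x m)
    (h3 : 3 ≤ m) (h4 : m + 3 ≤ d) : x = w m := by
  rcases h with ⟨-, h⟩ | ⟨-, h⟩ | ⟨i, hi, hx, h⟩
  · omega
  · omega
  · have : i = m := by omega
    rw [hx, this]

private theorem Pos.left (hd : 10 ≤ d) {x : V} (h : Pos d w a b a' b' x 2) :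
    x = a ∨ x = b ∨ x = w 0 ∨ x = w 1 ∨ x = w 2 := by
  rcases h with ⟨h | h, -⟩ | ⟨-, h⟩ | ⟨i, hi, hx, h⟩
  · exact Or.inl h
  · exact Or.inr (Or.inl h)
  · omega
  · have : i = 0 ∨ i = 1 ∨ i = 2 := by omega
    rcases this with rfl | rfl | rfl
    · exact Or.inr (Or.inr (Or.inl hx))
    · exact Or.inr (Or.inr (Or.inr (Or.inl hx)))
    · exact Or.inr (Or.inr (Or.inr (Or.inr hx)))

private theorem DD.pos_unique (h : DD A d Z w a b a' b') (hd : 10 ≤ d) {x : V} {m n : ℕ}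
    (h1 : Pos d w a b a' b' x m) (h2 : Pos d w a b a' b' x n) : m = n := by
  rcases h1 with ⟨h1, h1m⟩ | ⟨h1, h1m⟩ | ⟨i, hi, hx, h1m⟩
  · rcases h2 with ⟨h2, h2m⟩ | ⟨h2, h2m⟩ | ⟨j, hj, hy, h2m⟩
    · omega
    · exfalso
      rcases h1 with h1 | h1 <;> rcases h2 with h2 | h2
      · exact h.aa' (h1.symm.trans h2)
      · exact h.aab' (h1.symm.trans h2)
      · exact h.ba' (h1.symm.trans h2)
      · exact h.bb' (h1.symm.trans h2)
    · exfalso
      have := h.off j hj
      rcases h1 with h1 | h1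
      · exact this.1 (hy.symm.trans h1)
      · exact this.2.1 (hy.symm.trans h1)
  · rcases h2 with ⟨h2, h2m⟩ | ⟨h2, h2m⟩ | ⟨j, hj, hy, h2m⟩
    · exfalso
      rcases h1 with h1 | h1 <;> rcases h2 with h2 | h2
      · exact h.aa' (h2.symm.trans h1)
      · exact h.ba' (h2.symm.trans h1)
      · exact h.aab' (h2.symm.trans h1)
      · exact h.bb' (h2.symm.trans h1)
    · omega
    · exfalso
      have := h.off j hj
      rcases h1 with h1 | h1
      · exact this.2.2.1 (hy.symm.trans h1)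
      · exact this.2.2.2 (hy.symm.trans h1)
  · rcases h2 with ⟨h2, h2m⟩ | ⟨h2, h2m⟩ | ⟨j, hj, hy, h2m⟩
    · exfalso
      have := h.off i hi
      rcases h2 with h2 | h2
      · exact this.1 (hx.symm.trans h2)
      · exact this.2.1 (hx.symm.trans h2)
    · exfalso
      have := h.off i hi
      rcases h2 with h2 | h2
      · exact this.2.2.1 (hx.symm.trans h2)
      · exact this.2.2.2 (hx.symm.trans h2)
    · have : i = j := h.inj i hi j hj (hx.symm.trans hy)
      omega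

private theorem DD.pos_adj (hs : ∀ x y, A x y → A y x) (h : DD A d Z w a b a' b')
    (hd : 10 ≤ d) {x y : V} {m n : ℕ} (h1 : Pos d w a b a' b' x m)
    (h2 : Pos d w a b a' b' y n) (hA : A x y) : m ≤ n + 1 ∧ n ≤ m + 1 := by
  rcases h1 with ⟨h1, h1m⟩ | ⟨h1, h1m⟩ | ⟨i, hi, hx, h1m⟩
  · rcases h2 with ⟨h2, h2m⟩ | ⟨h2, h2m⟩ | ⟨j, hj, hy, h2m⟩
    · omega
    · exfalso
      rcases h1 with rfl | rfl <;> rcases h2 with rfl | rfl
      · exact h.naa' hA
      · exact h.nab' hA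
      · exact h.nba' hA
      · exact h.nbb' hA
    · subst hy
      have := h.nearL j hj (by
        rcases h1 with rfl | rfl
        · exact Or.inl (hs _ _ hA)
        · exact Or.inr (hs _ _ hA))
      omega
  · rcases h2 with ⟨h2, h2m⟩ | ⟨h2, h2m⟩ | ⟨j, hj, hy, h2m⟩
    · exfalso
      have hA' := hs _ _ hA
      rcases h1 with rfl | rfl <;> rcases h2 with rfl | rfl
      · exact h.naa' hA'
      · exact h.nba' hA'
      · exact h.nab' hA'
      · exact h.nbb' hA'
    · omega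
    · subst hy
      have := h.nearR j hj (by
        rcases h1 with rfl | rfl
        · exact Or.inl (hs _ _ hA)
        · exact Or.inr (hs _ _ hA))
      omega
  · subst hx
    rcases h2 with ⟨h2, h2m⟩ | ⟨h2, h2m⟩ | ⟨j, hj, hy, h2m⟩
    · have := h.nearL i hi (by
        rcases h2 with rfl | rfl
        · exact Or.inl hA
        · exact Or.inr hA)
      omega
    · have := h.nearR i hi (by
        rcases h2 with rfl | rfl
        · exact Or.inl hA
        · exact Or.inr hA)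
      omega
    · subst hy
      have := h.chord i hi j hj hA
      omega

private theorem DD.nbrs (hi : ∀ x, ¬ A x x) (h : DD A d Z w a b a' b') {m : ℕ} (h3 : 3 ≤ m)
    (h4 : m + 3 ≤ d) {x : V} (hx : x ∈ Z) (hA : A (w m) x) :
    x = w (m - 1) ∨ x = w (m + 1) := by
  rcases (h.mem x).1 hx with ⟨i, hid, rfl⟩ | hx | hx | hx | hx
  · have := h.chord m (by omega) i hid hA
    have hne : i ≠ m := by
      rintro rfl
      exact hi _ hA
    have : i = m - 1 ∨ i = m + 1 := by omega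
    rcases this with rfl | rfl
    · exact Or.inl rfl
    · exact Or.inr rfl
  · subst hx
    have := h.nearL m (by omega) (Or.inl hA)
    omega
  · subst hx
    have := h.nearL m (by omega) (Or.inr hA)
    omega
  · subst hx
    have := h.nearR m (by omega) (Or.inl hA)
    omega
  · subst hx
    have := h.nearR m (by omega) (Or.inr hA)
    omega

/-- a long path with both ends on the left -/
private theorem DD.leftleft (hs : ∀ x y, A x y → A y x) (hi : ∀ x, ¬ A x x)
    (h : DD A d Z w a b a' b') (hd : 10 ≤ d) {e : ℕ} (he : 10 ≤ e) (z : ℕ → V)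
    (hzZ : ∀ k, k ≤ e → z k ∈ Z) (hzi : ∀ k, k ≤ e → ∀ l, l ≤ e → z k = z l → k = l)
    (hzA : ∀ k, k < e → A (z k) (z (k + 1))) (r : ℕ → ℕ)
    (hr : ∀ k, k ≤ e → Pos d w a b a' b' (z k) (r k)) (h0 : r 0 = 2) (h1 : r e = 2) :
    d ≤ e + 4 := by
  classical
  by_contra hcon
  have hstep : ∀ k, k < e → r k ≤ r (k + 1) + 1 ∧ r (k + 1) ≤ r k + 1 := fun k hk =>
    h.pos_adj hs hd (hr k (by omega)) (hr (k + 1) (by omega)) (hzA k hk)
  have hup : ∀ k, k ≤ e → r k ≤ k + 2 := by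
    intro k
    induction k with
    | zero => intro _; omega
    | succ k ih =>
      intro hk
      have := ih (by omega)
      have := hstep k (by omega)
      omega
  obtain ⟨k, hk, hmax⟩ := Finset.exists_max_image (Finset.range (e + 1)) r ⟨0, by simp⟩
  have hke : k ≤ e := by
    have := Finset.mem_range.1 hk
    omega
  have hmax' : ∀ l, l ≤ e → r l ≤ r k := fun l hl =>
    hmax l (Finset.mem_range.2 (by omega))
  by_cases h3 : 3 ≤ r k
  · have hk0 : k ≠ 0 := by
      rintro rfl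
      omega
    have hke' : k ≠ e := by
      rintro rfl
      omega
    have h4 : r k + 3 ≤ d := by
      have := hup k hke
      omega
    have hzk : z k = w (r k) := (hr k hke).interior hd h3 h4
    have key : ∀ l, l ≤ e → A (z k) (z l) → z l = w (r k - 1) := by
      intro l hl hA
      rw [hzk] at hA
      rcases h.nbrs hi h3 h4 (hzZ l hl) hA with h5 | h5
      · exact h5
      · exfalso
        have h6 : Pos d w a b a' b' (z l) (r k + 1) := by
          refine Or.inr (Or.inr ⟨r k + 1, by omega, h5, ?_⟩)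
          by_cases h7 : r k + 1 + 3 ≤ d
          · exact Or.inr (Or.inl ⟨by omega, h7, rfl⟩)
          · exact Or.inr (Or.inr ⟨by omega, by omega⟩)
        have h8 := h.pos_unique hd h6 (hr l hl)
        have := hmax' l hl
        omega
    have h5 : z (k - 1) = w (r k - 1) := by
      apply key (k - 1) (by omega)
      apply hs
      have := hzA (k - 1) (by omega)
      have h6 : k - 1 + 1 = k := by omega
      rwa [h6] at this
    have h6 : z (k + 1) = w (r k - 1) := key (k + 1) (by omega) (hzA k (by omega))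
    have := hzi (k - 1) (by omega) (k + 1) (by omega) (h5.trans h6.symm)
    omega
  · have hall : ∀ l, l ≤ e → z l ∈ ({a, b, w 0, w 1, w 2} : Finset V) := by
      intro l hl
      have h5 := hmax' l hl
      have h6 := (hr l hl).bd hd
      have h7 : r l = 2 := by omega
      have h8 := hr l hl
      rw [h7] at h8
      have := h8.left hd
      simpa using this
    have hcard : (Finset.range (e + 1)).card ≤ ({a, b, w 0, w 1, w 2} : Finset V).card := by
      apply Finset.card_le_card_of_injOn z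
      · intro l hl
        have := Finset.mem_range.1 (Finset.mem_coe.1 hl)
        exact hall l (by omega)
      · intro l hl l' hl' hll
        have h5 := Finset.mem_range.1 (Finset.mem_coe.1 hl)
        have h6 := Finset.mem_range.1 (Finset.mem_coe.1 hl')
        exact hzi l (by omega) l' (by omega) hll
    have h5 : ({a, b, w 0, w 1, w 2} : Finset V).card ≤ 5 := Finset.card_le_five
    rw [Finset.card_range] at hcard
    omega

/-- a vertex with three neighbours is not in the interior -/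
private theorem DD.end_pos (hi : ∀ x, ¬ A x x) (h : DD A d Z w a b a' b') (hd : 10 ≤ d)
    {x : V} {m : ℕ} (hx : Pos d w a b a' b' x m) {p q s : V} (hp : p ∈ Z) (hq : q ∈ Z)
    (hsZ : s ∈ Z) (hpq : p ≠ q) (hps : p ≠ s) (hqs : q ≠ s) (hAp : A x p) (hAq : A x q)
    (hAs : A x s) : m = 2 ∨ m + 2 = d := by
  by_contra hcon
  push Not at hcon
  have hb := hx.bd hd
  have h3 : 3 ≤ m := by omega
  have h4 : m + 3 ≤ d := by omega
  have hxm := hx.interior hd h3 h4
  rw [hxm] at hAp hAq hAs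
  rcases h.nbrs hi h3 h4 hp hAp with h5 | h5 <;> rcases h.nbrs hi h3 h4 hq hAq with h6 | h6 <;>
    rcases h.nbrs hi h3 h4 hsZ hAs with h7 | h7
  · exact hpq (h5.trans h6.symm)
  · exact hpq (h5.trans h6.symm)
  · exact hps (h5.trans h7.symm)
  · exact hqs (h6.trans h7.symm)
  · exact hqs (h6.trans h7.symm)
  · exact hps (h5.trans h7.symm)
  · exact hpq (h5.trans h6.symm)
  · exact hpq (h5.trans h6.symm)

private theorem Pos.rev (hd : 10 ≤ d) {x : V} {m : ℕ} (h : Pos d w a b a' b' x m) :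
    Pos d (fun i => w (d - i)) a' b' a b x (d - m) := by
  rcases h with ⟨h, hm⟩ | ⟨h, hm⟩ | ⟨i, hi, hx, hm⟩
  · exact Or.inr (Or.inl ⟨h, by omega⟩)
  · exact Or.inl ⟨h, by omega⟩
  · refine Or.inr (Or.inr ⟨d - i, by omega, ?_, by omega⟩)
    rw [hx]
    change w i = w (d - (d - i))
    congr 1
    omega

end

theorem dumb_le {A : V → V → Prop} (hs : ∀ x y, A x y → A y x) (hi : ∀ x, ¬ A x x)
    {d d' : ℕ} {Z Z' : Finset V} (hZ : Dumb A d Z) (hZ' : Dumb A d' Z') (hd : 10 ≤ d)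
    (f : V → V) (hf : Set.InjOn f Z) (hfZ : ∀ x ∈ Z, f x ∈ Z')
    (hfA : ∀ x ∈ Z, ∀ y ∈ Z, (A (f x) (f y) ↔ A x y)) : d' ≤ d + 4 := by
  classical
  by_cases hd' : 10 ≤ d'
  swap
  · omega
  obtain ⟨w, a, b, a', b', h⟩ := DD.of_dumb hZ
  obtain ⟨v, p, q, p', q', h'⟩ := DD.of_dumb hZ'
  have hwZ : ∀ k, k ≤ d → w k ∈ Z := fun k hk => (h.mem _).2 (Or.inl ⟨k, hk, rfl⟩)
  have haZ : a ∈ Z := (h.mem _).2 (Or.inr (Or.inl rfl))
  have hbZ : b ∈ Z := (h.mem _).2 (Or.inr (Or.inr (Or.inl rfl)))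
  have ha'Z : a' ∈ Z := (h.mem _).2 (Or.inr (Or.inr (Or.inr (Or.inl rfl))))
  have hb'Z : b' ∈ Z := (h.mem _).2 (Or.inr (Or.inr (Or.inr (Or.inr rfl))))
  have hzZ : ∀ k, k ≤ d → f (w k) ∈ Z' := fun k hk => hfZ _ (hwZ k hk)
  have hzi : ∀ k, k ≤ d → ∀ l, l ≤ d → f (w k) = f (w l) → k = l := fun k hk l hl e =>
    h.inj k hk l hl (hf (hwZ k hk) (hwZ l hl) e)
  have hzA : ∀ k, k < d → A (f (w k)) (f (w (k + 1))) := fun k hk =>
    (hfA _ (hwZ k (by omega)) _ (hwZ (k + 1) (by omega))).2 (h.step k hk)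
  have hex : ∀ k, ∃ m, k ≤ d → Pos d' v p q p' q' (f (w k)) m := by
    intro k
    by_cases hk : k ≤ d
    · obtain ⟨m, hm⟩ := h'.exists_pos hd' (hzZ k hk)
      exact ⟨m, fun _ => hm⟩
    · exact ⟨0, fun hk' => absurd hk' hk⟩
  choose r hr using hex
  have hne : ∀ x ∈ Z, ∀ y ∈ Z, x ≠ y → f x ≠ f y := fun x hx y hy hxy e => hxy (hf hx hy e)
  -- the two ends
  have h0 : r 0 = 2 ∨ r 0 + 2 = d' := by
    have hw1 := hwZ 1 (by omega)
    have o := h.off 1 (by omega)
    exact h'.end_pos hi hd' (hr 0 (by omega)) (hfZ _ haZ) (hfZ _ hbZ) (hfZ _ hw1)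
      (hne _ haZ _ hbZ h.ab) (hne _ haZ _ hw1 o.1.symm) (hne _ hbZ _ hw1 o.2.1.symm)
      ((hfA _ (hwZ 0 (by omega)) _ haZ).2 h.Aa) ((hfA _ (hwZ 0 (by omega)) _ hbZ).2 h.Ab)
      (hzA 0 (by omega))
  have h1 : r d = 2 ∨ r d + 2 = d' := by
    have hw1 := hwZ (d - 1) (by omega)
    have o := h.off (d - 1) (by omega)
    refine h'.end_pos hi hd' (hr d le_rfl) (hfZ _ ha'Z) (hfZ _ hb'Z) (hfZ _ hw1)
      (hne _ ha'Z _ hb'Z h.ab') (hne _ ha'Z _ hw1 o.2.2.1.symm)
      (hne _ hb'Z _ hw1 o.2.2.2.symm)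
      ((hfA _ (hwZ d le_rfl) _ ha'Z).2 h.Aa') ((hfA _ (hwZ d le_rfl) _ hb'Z).2 h.Ab') ?_
    apply hs
    have := hzA (d - 1) (by omega)
    have h2 : d - 1 + 1 = d := by omega
    rwa [h2] at this
  have hstep : ∀ k, k < d → r k ≤ r (k + 1) + 1 ∧ r (k + 1) ≤ r k + 1 := fun k hk =>
    h'.pos_adj hs hd' (hr k (by omega)) (hr (k + 1) (by omega)) (hzA k hk)
  have hup : ∀ k, k ≤ d → r k ≤ r 0 + k ∧ r 0 ≤ r k + k := by
    intro k
    induction k with
    | zero => intro _; omega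
    | succ k ih =>
      intro hk
      have := ih (by omega)
      have := hstep k (by omega)
      omega
  have hupd := hup d le_rfl
  rcases h0 with h0 | h0 <;> rcases h1 with h1 | h1
  · exact h'.leftleft hs hi hd' hd (fun k => f (w k)) hzZ hzi hzA r hr h0 h1
  · omega
  · omega
  · refine (h'.rev hs).leftleft hs hi hd' hd (fun k => f (w k)) hzZ hzi hzA
      (fun k => d' - r k) (fun k hk => (hr k hk).rev hd') ?_ ?_
    · omega
    · omega

end Pool.Agent.Lib.MP_4fb322_lc_h21
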