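import Mathlib
import Pool.Agent.Lib.MP_4fb322_lc_h21.Basic
import Pool.Agent.Lib.MP_4fb322_lc_h21.W07

set_option autoImplicit false

/-!
# Row W08

Bounded distance between vertices of degree at least three (pure graph theory). PROOF. Suppose not. Then
for every `B` there are `W ⊆ X`, `x, y` of degree >= 3 in `W`, linked in `W`, without a walk of length `≤ B`
in `W`. Take a shortest walk (`exists_shortest`), of length `d > B`. Choose neighbours `a ≠ b` of `x` in
`W` different from `w 1` (from Deg3: among three distinct neighbours at least two differ from `w 1`), and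
similarly `a', b'` for `y`, different from `w (d-1)`. For `d ≥ 10` the set
`Z = {w 0..w d} ∪ {a,b,a',b'}` is a dumbbell of length `d`, contained in `X`: all items follow from
minimality: if `a = w i` then `A (w 0) (w i)` gives `i ≤ 1`, so `i = 1` (or `i = 0`, excluded by hi),
excluded; `A (w i) a` gives the walk `x, a, w i` of length 2, so `i ≤ 2`; `a = a'` or `A a a'` would give
a walk of length `≤ 3` from `x` to `y`. So for every `B` there is a dumbbell of length `d ≥ B` inside
`X`; choose a sequence of dumbbells `Z n` of lengths `d n` with `d 0 ≥ 10`, `d (n+1) > d n + 4`; GWqo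
gives `i < j` and an embedding, contradicting `dumb_le`. (About 150 lines.)
-/

namespace Pool.Agent.Lib.MP_4fb322_lc_h21

open Set Pool.Agent.Lib.MP_4fb322_lc_h70 Pool.Agent.Lib.MP_4fb322_lc_h91

variable {I : Type} {ar : I → ℕ} {V : Type}

private theorem two_of_three {A : V → V → Prop} {W : Set V} {x : V} (h : Deg3 A W x) (v : V) :
    ∃ a ∈ W, ∃ b ∈ W, a ≠ b ∧ a ≠ v ∧ b ≠ v ∧ A x a ∧ A x b := by
  obtain ⟨p, hp, q, hq, r, hr, hpq, hpr, hqr, hxp, hxq, hxr⟩ := h
  by_cases h1 : p = v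
  · refine ⟨q, hq, r, hr, hqr, ?_, ?_, hxq, hxr⟩
    · rw [← h1]; exact hpq.symm
    · rw [← h1]; exact hpr.symm
  · by_cases h2 : q = v
    · refine ⟨p, hp, r, hr, hpr, h1, ?_, hxp, hxr⟩
      rw [← h2]; exact hqr.symm
    · exact ⟨p, hp, q, hq, hpq, h1, h2, hxp, hxq⟩

private theorem exists_dumb {A : V → V → Prop} (hs : ∀ x y, A x y → A y x) (hi : ∀ x, ¬ A x x)
    {W : Set V} {x y : V} (hx : Deg3 A W x) (hy : Deg3 A W y) (hl : Linked A W x y) {B : ℕ}
    (hB : 10 ≤ B) (hno : ∀ n, n ≤ B → ¬ Wk A W n x y) :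
    ∃ (d : ℕ) (Z : Finset V), B < d ∧ (Z : Set V) ⊆ W ∧ Dumb A d Z := by
  classical
  obtain ⟨d, w, hw, hw0, hwd, hmin, h1, h2, hinj, hind⟩ := exists_shortest hs hl
  have hBd : B < d := by
    by_contra hcon
    exact hno d (by omega) ⟨w, hw, hw0, hwd⟩
  have hxW : x ∈ W := hl.left
  have hyW : y ∈ W := hl.right
  obtain ⟨a, ha, b, hb, hab, ha1, hb1, hxa, hxb⟩ := two_of_three hx (w 1)
  obtain ⟨a', ha', b', hb', hab', ha1', hb1', hya, hyb⟩ := two_of_three hy (w (d - 1))
  -- the facts at the end `x`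
  have F1 : ∀ c, A x c → c ≠ w 1 → ∀ i, i ≤ d → w i ≠ c := by
    intro c hc hc1 i hid hic
    have h3 : A (w 0) (w i) := by rw [hw0, hic]; exact hc
    have h4 := (hind 0 (Nat.zero_le _) i hid h3).2
    have h5 : i = 0 ∨ i = 1 := by omega
    rcases h5 with h5 | h5
    · rw [h5] at h3
      exact hi _ h3
    · rw [h5] at hic
      exact hc1 hic.symm
  have F2 : ∀ c ∈ W, A x c → ∀ i, i ≤ d → A (w i) c → i ≤ 2 := by
    intro c hcW hc i hid hic
    exact h1 i hid 2 ((Wk.single hxW hcW hc).trans (Wk.single hcW (hw.1 i hid) (hs _ _ hic)))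
  -- the facts at the end `y`
  have G1 : ∀ c, A y c → c ≠ w (d - 1) → ∀ i, i ≤ d → w i ≠ c := by
    intro c hc hc1 i hid hic
    have h3 : A (w d) (w i) := by rw [hwd, hic]; exact hc
    have h4 := (hind d le_rfl i hid h3).1
    have h5 : i = d ∨ i = d - 1 := by omega
    rcases h5 with h5 | h5
    · rw [h5] at h3
      exact hi _ h3
    · rw [h5] at hic
      exact hc1 hic.symm
  have G2 : ∀ c ∈ W, A y c → ∀ i, i ≤ d → A (w i) c → d ≤ i + 2 := by
    intro c hcW hc i hid hic
    have := h2 i hid 2 ((Wk.single (hw.1 i hid) hcW hic).trans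
      (Wk.single hcW hyW (hs _ _ hc)))
    omega
  have H1 : ∀ c ∈ W, A x c → ∀ c', A y c' → c ≠ c' := by
    intro c hcW hc c' hc' hcc
    rw [← hcc] at hc'
    have := hmin 2 ((Wk.single hxW hcW hc).trans (Wk.single hcW hyW (hs _ _ hc')))
    omega
  have H2 : ∀ c ∈ W, A x c → ∀ c' ∈ W, A y c' → ¬ A c c' := by
    intro c hcW hc c' hcW' hc' hcc
    have := hmin 3 (((Wk.single hxW hcW hc).trans (Wk.single hcW hcW' hcc)).trans
      (Wk.single hcW' hyW (hs _ _ hc')))
    omega
  refine ⟨d, (Finset.range (d + 1)).image w ∪ {a, b, a', b'}, hBd, ?_, w, a, b, a', b', ?_, hinj,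
    hw.2, hind, fun i hid => ⟨F1 a hxa ha1 i hid, F1 b hxb hb1 i hid, G1 a' hya ha1' i hid,
      G1 b' hyb hb1' i hid⟩, hab, hab', H1 a ha hxa a' hya, H1 a ha hxa b' hyb,
    H1 b hb hxb a' hya, H1 b hb hxb b' hyb, ?_, ?_, ?_, ?_, ?_, ?_, H2 a ha hxa a' ha' hya,
    H2 a ha hxa b' hb' hyb, H2 b hb hxb a' ha' hya, H2 b hb hxb b' hb' hyb⟩
  · intro z hz
    rw [Finset.mem_coe, Finset.mem_union] at hz
    rcases hz with hz | hz
    · obtain ⟨i, hi', rfl⟩ := Finset.mem_image.1 hz
      exact hw.1 i (by have := Finset.mem_range.1 hi'; omega)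
    · simp only [Finset.mem_insert, Finset.mem_singleton] at hz
      rcases hz with rfl | rfl | rfl | rfl
      · exact ha
      · exact hb
      · exact ha'
      · exact hb'
  · intro z
    rw [Finset.mem_union, Finset.mem_image]
    simp only [Finset.mem_range, Finset.mem_insert, Finset.mem_singleton, Nat.lt_succ_iff]
  · rw [hw0]; exact hxa
  · rw [hw0]; exact hxb
  · rw [hwd]; exact hya
  · rw [hwd]; exact hyb
  · intro i hid h
    rcases h with h | h
    · exact F2 a ha hxa i hid h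
    · exact F2 b hb hxb i hid h
  · intro i hid h
    rcases h with h | h
    · exact G2 a' ha' hya i hid h
    · exact G2 b' hb' hyb i hid h

theorem dist_bound {A : V → V → Prop} (hs : ∀ x y, A x y → A y x) (hi : ∀ x, ¬ A x x)
    {X : Set V} (hG : GWqo A X) :
    ∃ B : ℕ, ∀ W : Set V, W ⊆ X → ∀ x y, Deg3 A W x → Deg3 A W y → Linked A W x y →
      ∃ n, n ≤ B ∧ Wk A W n x y := by
  by_contra hcon
  push Not at hcon
  have key : ∀ B : ℕ, ∃ (d : ℕ) (Z : Finset V), B < d ∧ 10 ≤ d ∧ (Z : Set V) ⊆ X ∧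
      Dumb A d Z := by
    intro B
    obtain ⟨W, hWX, x, y, hx, hy, hl, hno⟩ := hcon (max B 10)
    obtain ⟨d, Z, hd, hZ, hD⟩ := exists_dumb hs hi hx hy hl (le_max_right B 10)
      (fun n hn => hno n hn)
    have h1 := le_max_left B 10
    have h2 := le_max_right B 10
    exact ⟨d, Z, by omega, by omega, hZ.trans hWX, hD⟩
  choose D Z hD hD10 hZX hdumb using key
  -- the arguments
  let arg : ℕ → ℕ := fun n => Nat.rec 10 (fun _ m => D m + 4) n
  have harg : ∀ n, arg (n + 1) = D (arg n) + 4 := fun n => rfl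
  have hstep : ∀ n, D (arg n) + 4 < D (arg (n + 1)) := by
    intro n
    have := hD (arg (n + 1))
    rw [harg n] at this ⊢
    exact this
  have hlt : ∀ i k, D (arg i) + 4 < D (arg (i + 1 + k)) := by
    intro i k
    induction k with
    | zero => exact hstep i
    | succ k ih =>
      have := hstep (i + 1 + k)
      have e : i + 1 + (k + 1) = i + 1 + k + 1 := by omega
      rw [e]
      omega
  obtain ⟨i, j, hij, f, hf, hfZ, hfA⟩ := hG (fun n => Z (arg n)) (fun n => hZX (arg n))
  have h1 := dumb_le hs hi (hdumb (arg i)) (hdumb (arg j)) (hD10 (arg i)) f hf hfZ hfA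
  obtain ⟨k, rfl⟩ : ∃ k, j = i + 1 + k := ⟨j - (i + 1), by omega⟩
  have h2 := hlt i k
  omega

end Pool.Agent.Lib.MP_4fb322_lc_h21
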