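import Mathlib
import Pool.Agent.Lib.MP_4fb322_lc_h21.Basic

set_option autoImplicit false

/-!
# Row W09

Star lemma (pure graph theory). PROOF. Let `b` be the least number such that for some `h ∈ W` the set
`{u ∈ U | ∃ n ≤ b, Wk A W n h u}` is infinite (`b ≤ B` exists: take any `h ∈ U`). Let `U1` be this set
minus `{h}`. For `u ∈ U1` choose a shortest walk from `h` to `u` (`exists_shortest`): `p u`, `ℓ u ≤ b`,
`1 ≤ ℓ u`, injective on `[0, ℓ u]`, so `p u i ≠ h` for `1 ≤ i ≤ ℓ u`. For every `x ∈ W` only finitely many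
`u ∈ U1` have `x = p u i` with `1 ≤ i ≤ ℓ u`: such `u` satisfies `Wk A W (ℓ u - i) x u` with
`ℓ u - i ≤ b - 1` (`IsWalk.wk`), minimality of `b`. (If `b = 0`: `U1` would be empty: impossible since
`U1` is infinite.) Say that `u, v` conflict if `p u i = p v j` for some `i, j ≥ 1` in range; every `u`
conflicts with finitely many `v`; so there is an infinite subset `U'` of `U1` without conflicts
(recursively choose `u_n ∈ U1` outside the finite set of previous points and points in conflict with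
them; or Zorn: a maximal conflict free subset is infinite). (About 120 lines.)
-/

namespace Pool.Agent.Lib.MP_4fb322_lc_h21

open Set Pool.Agent.Lib.MP_4fb322_lc_h70 Pool.Agent.Lib.MP_4fb322_lc_h91

variable {I : Type} {ar : I → ℕ} {V : Type}

theorem star_lemma {A : V → V → Prop} (hs : ∀ x y, A x y → A y x) {W U : Set V}
    (hU : U.Infinite) (hUW : U ⊆ W) {B : ℕ}
    (hB : ∀ x ∈ U, ∀ y ∈ U, ∃ n, n ≤ B ∧ Wk A W n x y) :
    ∃ h ∈ W, ∃ U' : Set V, U' ⊆ U ∧ U'.Infinite ∧ h ∉ U' ∧ ∃ (p : V → ℕ → V) (ℓ : V → ℕ),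
      (∀ u ∈ U', 1 ≤ ℓ u ∧ ℓ u ≤ B ∧ IsWalk A W (ℓ u) (p u) ∧ p u 0 = h ∧ p u (ℓ u) = u) ∧
      (∀ u ∈ U', ∀ v ∈ U', u ≠ v → ∀ i j, 1 ≤ i → i ≤ ℓ u → 1 ≤ j → j ≤ ℓ v →
        p u i ≠ p v j) ∧
      ∀ u ∈ U', ∀ i, 1 ≤ i → i ≤ ℓ u → p u i ≠ h := by
  classical
  have hex : ∃ b : ℕ, ∃ h ∈ W, {u | u ∈ U ∧ ∃ n, n ≤ b ∧ Wk A W n h u}.Infinite := by
    obtain ⟨h, hh⟩ := hU.nonempty
    refine ⟨B, h, hUW hh, ?_⟩
    refine hU.mono ?_
    intro u hu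
    exact ⟨hu, hB h hh u hu⟩
  obtain ⟨b, ⟨h, hhW, hinf⟩, hmin⟩ : ∃ b : ℕ,
      (∃ h ∈ W, {u | u ∈ U ∧ ∃ n, n ≤ b ∧ Wk A W n h u}.Infinite) ∧
      ∀ b', b' < b → ∀ x ∈ W, {u | u ∈ U ∧ ∃ n, n ≤ b' ∧ Wk A W n x u}.Finite := by
    refine ⟨Nat.find hex, Nat.find_spec hex, ?_⟩
    intro b' hb' x hx
    by_contra hcon
    exact Nat.find_min hex hb' ⟨x, hx, hcon⟩
  have hbB : b ≤ B := by
    by_contra hcon
    push Not at hcon
    obtain ⟨x, hx⟩ := hU.nonempty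
    have h1 := hmin B hcon x (hUW hx)
    exact hU (h1.subset fun u hu => ⟨hu, hB x hx u hu⟩)
  set U1 : Set V := {u | u ∈ U ∧ ∃ n, n ≤ b ∧ Wk A W n h u} \ {h} with hU1
  have hU1inf : U1.Infinite := hinf.diff (Set.finite_singleton h)
  have hsp : ∀ u ∈ U1, ∃ (n : ℕ) (w : ℕ → V), 1 ≤ n ∧ n ≤ b ∧ IsWalk A W n w ∧ w 0 = h ∧
      w n = u ∧ ∀ i, i ≤ n → ∀ j, j ≤ n → w i = w j → i = j := by
    rintro u ⟨⟨huU, m, hmb, hwk⟩, huh⟩
    obtain ⟨n, w, hw, hw0, hwn, hmn, -, -, hinj, -⟩ := exists_shortest hs ⟨m, hwk⟩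
    refine ⟨n, w, ?_, (hmn m hwk).trans hmb, hw, hw0, hwn, hinj⟩
    rcases Nat.eq_zero_or_pos n with h0 | h0
    · exfalso
      apply huh
      rw [h0, hw0] at hwn
      exact hwn.symm
    · exact h0
  choose! ℓ p hℓ1 hℓb hwalk hp0 hpℓ hpinj using hsp
  have hb1 : 1 ≤ b := by
    obtain ⟨u, hu⟩ := hU1inf.nonempty
    exact (hℓ1 u hu).trans (hℓb u hu)
  have hfin : ∀ x : V, {v | v ∈ U1 ∧ ∃ j, 1 ≤ j ∧ j ≤ ℓ v ∧ p v j = x}.Finite := by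
    intro x
    by_cases hxW : x ∈ W
    · refine (hmin (b - 1) (by omega) x hxW).subset ?_
      rintro v ⟨hv, j, hj1, hjℓ, hjx⟩
      refine ⟨hv.1.1, ℓ v - j, ?_, ?_⟩
      · have := hℓb v hv
        omega
      · have h1 := (hwalk v hv).wk hjℓ le_rfl
        rw [hjx, hpℓ v hv] at h1
        exact h1
    · convert Set.finite_empty
      rw [Set.eq_empty_iff_forall_notMem]
      rintro v ⟨hv, j, -, hjℓ, hjx⟩
      apply hxW
      rw [← hjx]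
      exact (hwalk v hv).1 j hjℓ
  have hconf : ∀ u : V, {v | v ∈ U1 ∧ ∃ i j, 1 ≤ i ∧ i ≤ ℓ u ∧ 1 ≤ j ∧ j ≤ ℓ v ∧
      p u i = p v j}.Finite := by
    intro u
    have h1 : (⋃ i ∈ Finset.Icc 1 (ℓ u), {v | v ∈ U1 ∧ ∃ j, 1 ≤ j ∧ j ≤ ℓ v ∧
        p v j = p u i}).Finite :=
      Set.Finite.biUnion (Finset.finite_toSet _) fun i _ => hfin (p u i)
    refine h1.subset ?_
    rintro v ⟨hv, i, j, hi1, hi, hj1, hj, hij⟩
    simp only [Set.mem_iUnion]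
    exact ⟨i, Finset.mem_Icc.2 ⟨hi1, hi⟩, hv, j, hj1, hj, hij.symm⟩
  let r : V → V → Prop := fun u v => u ≠ v ∧ ∀ i j, 1 ≤ i → i ≤ ℓ u → 1 ≤ j → j ≤ ℓ v →
    p u i ≠ p v j
  haveI hr : Std.Symm r := ⟨fun u v huv => ⟨huv.1.symm, fun i j hi1 hi hj1 hj hij =>
    huv.2 j i hj1 hj hi1 hi hij.symm⟩⟩
  obtain ⟨f, hf1, hf2⟩ := exists_seq_of_forall_finset_exists' (fun u => u ∈ U1) r (by
    intro s _
    have h1 : ((s : Set V) ∪ ⋃ u ∈ s, {v | v ∈ U1 ∧ ∃ i j, 1 ≤ i ∧ i ≤ ℓ u ∧ 1 ≤ j ∧ j ≤ ℓ v ∧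
        p u i = p v j}).Finite :=
      (s.finite_toSet).union (Set.Finite.biUnion (Finset.finite_toSet _) fun u _ => hconf u)
    obtain ⟨y, hy, hyn⟩ := (hU1inf.diff h1).nonempty
    refine ⟨y, hy, ?_⟩
    intro x hx
    refine ⟨?_, ?_⟩
    · rintro rfl
      exact hyn (Or.inl hx)
    · intro i j hi1 hi hj1 hj hij
      apply hyn
      right
      simp only [Set.mem_iUnion]
      exact ⟨x, hx, hy, i, j, hi1, hi, hj1, hj, hij⟩)
  have hfinj : Function.Injective f := by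
    intro m n hmn
    by_contra hne
    exact (hf2 hne).1 hmn
  refine ⟨h, hhW, Set.range f, ?_, Set.infinite_range_of_injective hfinj, ?_, p, ℓ, ?_, ?_, ?_⟩
  · rintro _ ⟨n, rfl⟩
    exact (hf1 n).1.1
  · rintro ⟨n, hn⟩
    exact (hf1 n).2 hn
  · rintro _ ⟨n, rfl⟩
    have h1 := hf1 n
    exact ⟨hℓ1 _ h1, (hℓb _ h1).trans hbB, hwalk _ h1, hp0 _ h1, hpℓ _ h1⟩
  · rintro _ ⟨m, rfl⟩ _ ⟨n, rfl⟩ hne i j hi1 hi hj1 hj
    have hmn : m ≠ n := fun h1 => hne (by rw [h1])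
    exact (hf2 hmn).2 i j hi1 hi hj1 hj
  · rintro _ ⟨n, rfl⟩ i hi1 hi hih
    have h1 := hf1 n
    have h2 := hpinj _ h1 i hi 0 (Nat.zero_le _) (by rw [hih, hp0 _ h1])
    omega

end Pool.Agent.Lib.MP_4fb322_lc_h21
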