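import Mathlib
import Pool.Agent.Lib.MP_4fb322_lc_h21.Basic
import Pool.Agent.Lib.MP_4fb322_lc_h21.W09

set_option autoImplicit false

/-!
# Row W10

Iterated star lemma (pure graph theory). PROOF. State: a finite `T` with `T0 ⊆ T ⊆ P` and an infinite set
`U` of vertices of infinite degree. STEP: by hfc get `T'`; `U \ T'` is infinite. Some `u0 ∈ U \ T'` is
linked in `T'ᶜ` to infinitely many `u ∈ U \ T'`: otherwise choose recursively `κ n ∈ U \ T'` not linked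
in `T'ᶜ` to any earlier `κ m` (each excludes only finitely many points), all `κ n ∈ P` by hP,
contradicting hfc (use symmetry of Linked). Let `U1` be this infinite set; any two points of `U1` are
linked in `T'ᶜ` (through `u0`), so hB gives walks of length `≤ B`. `star_lemma` with `W = T'ᶜ` gives the
hub `h ∉ T'`, an infinite `U' ⊆ U1 ⊆ U`, paths `p`, lengths `ℓ`. `h` has infinitely many neighbours (the
points `p u 1`, `u ∈ U'`, are distinct), so `h ∈ P` by hP. New state: `T' ∪ {h}`, `U'`. ITERATE (dependent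
recursion: define the sequence of states and outputs by choice, e.g. with a function `step` on the
subtype of states, starting with `T0` and `U = {x | InfDeg A x}`). `h` is injective since
`h r ∈ T (r+1) ⊆ T s` and `h s ∉ T s`-ish for `r < s`. Walks inside `T'ᶜ ⊆ T0ᶜ`. (About 130 lines.)
-/

namespace Pool.Agent.Lib.MP_4fb322_lc_h21

open Set Pool.Agent.Lib.MP_4fb322_lc_h70 Pool.Agent.Lib.MP_4fb322_lc_h91

variable {I : Type} {ar : I → ℕ} {V : Type}

theorem exists_hubs {A : V → V → Prop} (hs : ∀ x y, A x y → A y x) {P T0 : Set V}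
    (hT0 : T0.Finite) (hT0P : T0 ⊆ P) (hP : ∀ x, InfDeg A x → x ∈ P)
    (hfc : ∀ T : Set V, T.Finite → T ⊆ P → ∃ T' : Set V, T'.Finite ∧ T ⊆ T' ∧ T' ⊆ P ∧
      ∀ κ : ℕ → V, (∀ n, κ n ∈ P ∧ κ n ∉ T') → ∃ m n, m ≠ n ∧ Linked A T'ᶜ (κ m) (κ n))
    {B : ℕ} (hB : ∀ T : Set V, T.Finite → T0 ⊆ T → ∀ x y, InfDeg A x → InfDeg A y →
      Linked A Tᶜ x y → ∃ n, n ≤ B ∧ Wk A Tᶜ n x y)
    (hU : {x | InfDeg A x}.Infinite) :
    ∃ (h : ℕ → V) (U : ℕ → Set V) (p : ℕ → V → ℕ → V) (ℓ : ℕ → V → ℕ),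
      Hubs A T0ᶜ B h U p ℓ := by
  classical
  have step : ∀ (T U : Set V), T.Finite → T0 ⊆ T → T ⊆ P → U.Infinite →
      (∀ x ∈ U, InfDeg A x) →
      ∃ (T' U' : Set V) (h : V) (p : V → ℕ → V) (ℓ : V → ℕ), T'.Finite ∧ T ⊆ T' ∧ T' ⊆ P ∧
        U'.Infinite ∧ U' ⊆ U ∧ h ∉ T ∧ h ∈ T' ∧
        (∀ u ∈ U', 1 ≤ ℓ u ∧ ℓ u ≤ B ∧ IsWalk A T0ᶜ (ℓ u) (p u) ∧ p u 0 = h ∧
          p u (ℓ u) = u) ∧
        (∀ u ∈ U', ∀ v ∈ U', u ≠ v → ∀ i j, 1 ≤ i → i ≤ ℓ u → 1 ≤ j → j ≤ ℓ v →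
          p u i ≠ p v j) ∧
        ∀ u ∈ U', ∀ i, 1 ≤ i → i ≤ ℓ u → p u i ≠ h := by
    intro T U hT hT0T hTP hUi hUd
    obtain ⟨T', hT'f, hTT', hT'P, hlink⟩ := hfc T hT hTP
    have hdiff : (U \ T').Infinite := hUi.sdiff hT'f
    have hex : ∃ u0 ∈ U \ T', {u | u ∈ U \ T' ∧ Linked A T'ᶜ u0 u}.Infinite := by
      by_contra hno
      push Not at hno
      obtain ⟨κ, hκ1, hκ2⟩ := exists_seq_of_forall_finset_exists (fun x => x ∈ U \ T')
        (fun x y => ¬ Linked A T'ᶜ x y) (by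
          intro s hs'
          have hfin : (⋃ x ∈ s, {u | u ∈ U \ T' ∧ Linked A T'ᶜ x u}).Finite := by
            apply Set.Finite.biUnion s.finite_toSet
            intro x hx
            have := hno x (hs' x hx)
            exact Set.not_infinite.1 (by simpa using this)
          obtain ⟨y, hy, hy2⟩ := hdiff.exists_notMem_finite hfin
          refine ⟨y, hy, fun x hx hl => hy2 ?_⟩
          simp only [Set.mem_iUnion]
          exact ⟨x, hx, hy, hl⟩)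
      obtain ⟨m, n, hmn, hl⟩ := hlink κ fun n => ⟨hP _ (hUd _ (hκ1 n).1), (hκ1 n).2⟩
      rcases lt_or_gt_of_ne hmn with h | h
      · exact hκ2 m n h hl
      · exact hκ2 n m h (hl.symm hs)
    obtain ⟨u0, hu0, hU1⟩ := hex
    obtain ⟨h, hh, U', hU'sub, hU'inf, -, p, ℓ, h1, h2, h3⟩ :=
      star_lemma hs (W := T'ᶜ) hU1 (fun u hu => hu.1.2) (B := B) (by
        intro x hx y hy
        exact hB T' hT'f (hT0T.trans hTT') x y (hUd _ hx.1.1) (hUd _ hy.1.1)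
          ((hx.2.symm hs).trans hy.2))
    have hinf : InfDeg A h := by
      refine Set.infinite_of_injOn_mapsTo (f := fun u => p u 1) (s := U') ?_ ?_ hU'inf
      · intro u hu v hv huv
        by_contra hne
        exact h2 u hu v hv hne 1 1 le_rfl (h1 u hu).1 le_rfl (h1 v hv).1 huv
      · intro u hu
        have h4 := (h1 u hu).2.2.1.2 0 (h1 u hu).1
        rw [(h1 u hu).2.2.2.1] at h4
        exact h4
    refine ⟨insert h T', U', h, p, ℓ, hT'f.insert h, hTT'.trans (Set.subset_insert _ _), ?_,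
      hU'inf, fun x hx => (hU'sub hx).1.1, fun hhT => hh (hTT' hhT), Set.mem_insert _ _, ?_, h2,
      h3⟩
    · intro x hx
      rcases hx with rfl | hx
      · exact hP _ hinf
      · exact hT'P hx
    · intro u hu
      obtain ⟨a1, a2, a3, a4, a5⟩ := h1 u hu
      exact ⟨a1, a2, a3.mono (Set.compl_subset_compl.2 (hT0T.trans hTT')), a4, a5⟩
  -- the iteration
  let St := {s : Set V × Set V // s.1.Finite ∧ T0 ⊆ s.1 ∧ s.1 ⊆ P ∧ s.2.Infinite ∧
    ∀ x ∈ s.2, InfDeg A x}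
  have step' : ∀ s : St, ∃ (s' : St) (h : V) (p : V → ℕ → V) (ℓ : V → ℕ), s.1.1 ⊆ s'.1.1 ∧
        s'.1.2 ⊆ s.1.2 ∧ h ∉ s.1.1 ∧ h ∈ s'.1.1 ∧
        (∀ u ∈ s'.1.2, 1 ≤ ℓ u ∧ ℓ u ≤ B ∧ IsWalk A T0ᶜ (ℓ u) (p u) ∧ p u 0 = h ∧
          p u (ℓ u) = u) ∧
        (∀ u ∈ s'.1.2, ∀ v ∈ s'.1.2, u ≠ v → ∀ i j, 1 ≤ i → i ≤ ℓ u → 1 ≤ j → j ≤ ℓ v →
          p u i ≠ p v j) ∧
        ∀ u ∈ s'.1.2, ∀ i, 1 ≤ i → i ≤ ℓ u → p u i ≠ h := by
    rintro ⟨⟨T, U⟩, b1, b2, b3, b4, b5⟩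
    obtain ⟨T', U', h, p, ℓ, c1, c2, c3, c4, c5, c6, c7, c8, c9, c10⟩ := step T U b1 b2 b3 b4 b5
    exact ⟨⟨⟨T', U'⟩, c1, b2.trans c2, c3, c4, fun x hx => b5 x (c5 hx)⟩, h, p, ℓ, c2, c5, c6,
      c7, c8, c9, c10⟩
  choose nx hf pf ℓf d1 d2 d3 d4 d5 d6 d7 using step'
  let s0 : St := ⟨⟨T0, {x | InfDeg A x}⟩, hT0, subset_rfl, hT0P, hU, fun x hx => hx⟩
  let st : ℕ → St := fun n => nx^[n] s0
  have hst : ∀ n, st (n + 1) = nx (st n) := fun n => Function.iterate_succ_apply' nx n s0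
  have hTm : ∀ m n, m ≤ n → (st m).1.1 ⊆ (st n).1.1 := by
    intro m n hmn
    induction n, hmn using Nat.le_induction with
    | base => exact subset_rfl
    | succ n _ ih =>
      rw [hst]
      exact ih.trans (d1 _)
  refine ⟨fun n => hf (st n), fun n => (st (n + 1)).1.2, fun n => pf (st n),
    fun n => ℓf (st n), ?_, ?_, ?_, ?_, ?_, ?_, ?_⟩
  · have key : ∀ m n, m < n → hf (st m) ≠ hf (st n) := by
      intro m n hmn he
      apply d3 (st n)
      rw [← he]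
      apply hTm (m + 1) n hmn
      rw [hst]
      exact d4 _
    intro m n he
    rcases lt_trichotomy m n with h | h | h
    · exact absurd he (key m n h)
    · exact h
    · exact absurd he.symm (key n m h)
  · intro r
    exact (st (r + 1)).2.2.2.2.1
  · intro r
    rw [hst (r + 1)]
    exact d2 _
  · intro r u hu
    rw [hst] at hu
    exact ⟨(d5 _ u hu).1, (d5 _ u hu).2.1⟩
  · intro r u hu
    rw [hst] at hu
    exact (d5 _ u hu).2.2
  · intro r u hu v hv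
    rw [hst] at hu hv
    exact d6 _ u hu v hv
  · intro r u hu
    rw [hst] at hu
    exact d7 _ u hu

end Pool.Agent.Lib.MP_4fb322_lc_h21
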