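import Mathlib
import Pool.Agent.Lib.MP_4fb322_lc_h21.Basic

set_option autoImplicit false

/-!
# Row W11

Two ultrafilter lemmas. (1) ev_nonadj: if the maps `φ, φ'` go to infinity along `U` and the graph has no
`K_{t,t}`, then `∀ᶠ k, ∀ᶠ k', φ k ≠ φ' k' ∧ ¬ A (φ k) (φ' k')`. PROOF: the first part is hφ'. Suppose
not `∀ᶠ k, ∀ᶠ k', ¬ A (φ k) (φ' k')`; for an ultrafilter this means `∀ᶠ k, ∀ᶠ k', A (φ k) (φ' k')`
(`Ultrafilter.eventually_not`, Filter.not_eventually..). By induction one finds for every `n` points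
`k_1..k_n` in this set with distinct `φ k_i` (each new one avoids finitely many values by hφ), then
`k'_1..k'_n` in the intersection of the finitely many sets `{k' | A (φ k_i) (φ' k')}` with distinct
values: `K_{n,n}`. (2) generic: PROOF by induction on `m` for all `S`, `R`: choose `x 0` satisfying `S 0`
and `∀ j, 0 < j < m+1 → ∀ᶠ y, R 0 j (x 0) y`; apply the induction hypothesis to
`S' j y = S (j+1) y ∧ R 0 (j+1) (x 0) y` and `R' i j = R (i+1) (j+1)`.
-/

namespace Pool.Agent.Lib.MP_4fb322_lc_h21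

open Set Pool.Agent.Lib.MP_4fb322_lc_h70 Pool.Agent.Lib.MP_4fb322_lc_h91

variable {I : Type} {ar : I → ℕ} {V : Type}

private theorem w11_generic {α : Type} [Nonempty α] (U : Filter α) [U.NeBot] (m : ℕ) :
    ∀ (S : ℕ → α → Prop) (R : ℕ → ℕ → α → α → Prop), (∀ i, i < m → ∀ᶠ x in U, S i x) →
    (∀ i j, i < j → j < m → ∀ᶠ x in U, ∀ᶠ y in U, R i j x y) →
    ∃ x : ℕ → α, (∀ i, i < m → S i (x i)) ∧ ∀ i j, i < j → j < m → R i j (x i) (x j) := by
  induction m with
  | zero =>
    intro S R _ _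
    exact ⟨fun _ => Classical.arbitrary α, fun i hi => absurd hi (Nat.not_lt_zero i),
      fun i j _ hj => absurd hj (Nat.not_lt_zero j)⟩
  | succ m ih =>
    intro S R hS hR
    have h1 : ∀ᶠ x in U, ∀ j ∈ Finset.range (m + 1), 0 < j → ∀ᶠ y in U, R 0 j x y := by
      rw [Filter.eventually_all_finset]
      intro j hj
      by_cases hj0 : 0 < j
      · filter_upwards [hR 0 j hj0 (Finset.mem_range.1 hj)] with x hx _
        exact hx
      · exact Filter.Eventually.of_forall fun x h => absurd h hj0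
    obtain ⟨x0, h2, h3⟩ := ((hS 0 (Nat.succ_pos m)).and h1).exists
    obtain ⟨x', h4, h5⟩ := ih (fun j y => S (j + 1) y ∧ R 0 (j + 1) x0 y)
      (fun i j => R (i + 1) (j + 1))
      (fun i hi => (hS (i + 1) (by omega)).and
        (h3 (i + 1) (Finset.mem_range.2 (by omega)) (Nat.succ_pos i)))
      (fun i j hij hj => hR (i + 1) (j + 1) (by omega) (by omega))
    refine ⟨fun n => Nat.casesOn n x0 x', ?_, ?_⟩
    · intro i hi
      cases i with
      | zero => exact h2
      | succ i => exact (h4 i (by omega)).1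
    · intro i j hij hj
      cases j with
      | zero => omega
      | succ j =>
        cases i with
        | zero => exact (h4 j (by omega)).2
        | succ i => exact h5 i j (by omega) (by omega)

/-- many points of a large set with different values -/
private theorem w11_many {α : Type} (U : Ultrafilter α) (φ : α → V)
    (hφ : ∀ x, ∀ᶠ k in (U : Filter α), φ k ≠ x) {S : α → Prop}
    (hS : ∀ᶠ k in (U : Filter α), S k) (t : ℕ) :
    ∃ f : Fin t → α, (∀ i, S (f i)) ∧ Function.Injective fun i => φ (f i) := by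
  have : Nonempty α := hS.exists.nonempty
  obtain ⟨x, h1, h2⟩ := w11_generic (U : Filter α) t (fun _ => S) (fun _ _ k l => φ l ≠ φ k)
    (fun _ _ => hS) (fun _ _ _ _ => Filter.Eventually.of_forall fun k => hφ (φ k))
  refine ⟨fun i => x i, fun i => h1 i i.2, ?_⟩
  intro i j hij
  by_contra hne
  rcases lt_or_gt_of_ne (fun e => hne (Fin.ext e) : (i : ℕ) ≠ j) with h | h
  · exact h2 i j h j.2 hij.symm
  · exact h2 j i h i.2 hij

theorem ev_nonadj {α : Type} {A : V → V → Prop} {t : ℕ} (hK : Sparse A t)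
    (U U' : Ultrafilter α) (φ φ' : α → V)
    (hφ : ∀ x, ∀ᶠ k in (U : Filter α), φ k ≠ x)
    (hφ' : ∀ x, ∀ᶠ k in (U' : Filter α), φ' k ≠ x) :
    ∀ᶠ k in (U : Filter α), ∀ᶠ k' in (U' : Filter α), φ k ≠ φ' k' ∧ ¬ A (φ k) (φ' k') := by
  have h1 : ∀ᶠ k in (U : Filter α), ∀ᶠ k' in (U' : Filter α), ¬ A (φ k) (φ' k') := by
    by_contra hno
    rw [← Ultrafilter.eventually_not] at hno
    have hno' : ∀ᶠ k in (U : Filter α), ∀ᶠ k' in (U' : Filter α), A (φ k) (φ' k') := by
      filter_upwards [hno] with k hk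
      rw [← Ultrafilter.eventually_not] at hk
      filter_upwards [hk] with k' hk'
      exact not_not.1 hk'
    obtain ⟨f, hf1, hf2⟩ := w11_many U φ hφ hno' t
    have h2 : ∀ᶠ k' in (U' : Filter α), ∀ i, A (φ (f i)) (φ' k') :=
      Filter.eventually_all.2 hf1
    obtain ⟨g, hg1, hg2⟩ := w11_many U' φ' hφ' h2 t
    exact hK ⟨fun i => φ (f i), fun j => φ' (g j), hf2, hg2, fun i j => hg1 j i⟩
  filter_upwards [h1] with k hk
  filter_upwards [hk, hφ' (φ k)] with k' hk' hk2
  exact ⟨fun e => hk2 e.symm, hk'⟩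

theorem generic {α : Type} [Nonempty α] (U : Filter α) [U.NeBot] (m : ℕ) (S : ℕ → α → Prop)
    (R : ℕ → ℕ → α → α → Prop) (hS : ∀ i, i < m → ∀ᶠ x in U, S i x)
    (hR : ∀ i j, i < j → j < m → ∀ᶠ x in U, ∀ᶠ y in U, R i j x y) :
    ∃ x : ℕ → α, (∀ i, i < m → S i (x i)) ∧ ∀ i j, i < j → j < m → R i j (x i) (x j) := by
  exact w11_generic U m S R hS hR

end Pool.Agent.Lib.MP_4fb322_lc_h21
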