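import Mathlib
import Pool.Agent.Lib.MP_4fb322_lc_h21.Basic
import Pool.Agent.Lib.MP_4fb322_lc_h21.W11

set_option autoImplicit false

/-!
# Row W12

From hubs to rings (graph theory with ultrafilters). PROOF. Let `D` be an ultrafilter on `V` containing
all `U r` and all cofinite sets (the sets `U r \ E`, `E` finite, have the finite intersection property
because `U r` is a decreasing sequence of infinite sets; use `Ultrafilter.of` of the infimum of the
filter generated, or `Ultrafilter.exists_ultrafilter_of_finite_inter_nonempty`) and `U0` a hyperfilter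
on `ℕ`. For `r` and `1 ≤ k ≤ B` let `q r k u = p r u (min k (ℓ r u))`. Along `D` the map `q r k` goes to
infinity (by `disj` it is injective on `U r`). (1) For fixed `r, k` there are fewer than `t` indices `s`
with `∀ᶠ u in D, A (h s) (q r k u)` (otherwise `t` of the `h s` and `t` different `u` in a set of `D` form
`K_{t,t}`); so `Bad r = {s | ∃ k, 1 ≤ k ≤ B, ∀ᶠ u in D, A (h s) (q r k u)}` is finite with at most
`t * B` elements. (2) `∀ᶠ r, ∀ᶠ s` in `U0`: `h r ≠ h s`, `¬ A (h r) (h s)` (ev_nonadj), `s ∉ Bad r`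
(finite), `r ∉ Bad s` (otherwise `∀ᶠ r, ∀ᶠ s, r ∈ Bad s`, choose `t*B+1` different such `r` and a
common `s`). (3) `generic` gives `r_0, ..., r_{m-1}` such that for `i < j` all these hold for `(r_i, r_j)`;
so for `i ≠ j`: `r_j ∉ Bad r_i`, `h r_i, h r_j` distinct, non adjacent. Put `c i = h r_i`. (4) For
`i < m` let `i' = (i+1) % m`, `Q i` = all `q r_i k u_i`, `q r_{i'} k u_i`, `1 ≤ k ≤ B`. Choose
`u_0, ..., u_{m-1}` by `generic` for the filter `D`: `S i u`: `u ∈ U r` for the finitely many `r = r_j`;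
`q r_j k u ≠ h r_l` for all `j, k, l` (goes to infinity); `¬ A (h r_l) (q r_i k u)` and
`¬ A (h r_l) (q r_{i'} k u)` for all `l` with `l ≠ i`, `l ≠ i'` [because `r_l ∉ Bad r_i`, `Bad r_{i'}`
and D is an ultrafilter]. `R i j u u'`: `q r_a k u ≠ q r_b k' u'` and not adjacent for all
`a ∈ {i,i'}`, `b ∈ {j,j'}`, `k, k'` (ev_nonadj). (5) link: the walk `p r_i u_i` from `c i` to `u_i` and the
reversed walk `p r_{i'} u_i` from `u_i` to `c i'` stay in `{c i} ∪ {c i'} ∪ Q i`. (About 250 lines; the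
condition `3 ≤ m` guarantees `i ≠ i'`; for `cQ` use that `q r k u ≠ h s` for the chosen indices.)
-/

namespace Pool.Agent.Lib.MP_4fb322_lc_h21

open Set Pool.Agent.Lib.MP_4fb322_lc_h70 Pool.Agent.Lib.MP_4fb322_lc_h91

variable {I : Type} {ar : I → ℕ} {V : Type}

private def qq (p : ℕ → V → ℕ → V) (ℓ : ℕ → V → ℕ) (r k : ℕ) (u : V) : V :=
  p r u (min k (ℓ r u))

private theorem exists_D {U : ℕ → Set V} (hinf : ∀ r, (U r).Infinite)
    (hanti : ∀ r, U (r + 1) ⊆ U r) :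
    ∃ D : Ultrafilter V, (∀ r, ∀ᶠ u in (D : Filter V), u ∈ U r) ∧
      ∀ x, ∀ᶠ u in (D : Filter V), u ≠ x := by
  classical
  obtain ⟨f, hf1, hf2⟩ := exists_seq_of_forall_finset_exists (α := ℕ × V)
    (fun a => a.2 ∈ U a.1) (fun a b => a.1 < b.1 ∧ a.2 ≠ b.2) (by
      intro s _
      have h1 : ((U (s.sup Prod.fst + 1)) \ (s.image Prod.snd : Set V)).Infinite :=
        (hinf _).sdiff (Finset.finite_toSet _)
      obtain ⟨v, hv1, hv2⟩ := h1.nonempty
      refine ⟨(s.sup Prod.fst + 1, v), hv1, fun a ha => ⟨?_, ?_⟩⟩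
      · have := Finset.le_sup (f := Prod.fst) ha
        exact Nat.lt_succ_of_le this
      · intro h
        exact hv2 (Finset.mem_coe.2 (Finset.mem_image.2 ⟨a, ha, h⟩)))
  have hmono : ∀ m n, m ≤ n → U n ⊆ U m := by
    intro m n hmn
    induction n, hmn using Nat.le_induction with
    | base => exact subset_rfl
    | succ n _ ih => exact (hanti n).trans ih
  have hge : ∀ n, n ≤ (f n).1 := by
    intro n
    induction n with
    | zero => exact Nat.zero_le _
    | succ n ih =>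
      have := (hf2 n (n + 1) (Nat.lt_succ_self n)).1
      omega
  refine ⟨(Filter.hyperfilter ℕ).map (fun n => (f n).2), ?_, ?_⟩
  · intro r
    rw [Ultrafilter.coe_map, Filter.eventually_map]
    apply Filter.hyperfilter_le_cofinite
    rw [Nat.cofinite_eq_atTop]
    filter_upwards [Filter.eventually_ge_atTop r] with n hn
    exact hmono r _ (hn.trans (hge n)) (hf1 n)
  · intro x
    rw [Ultrafilter.coe_map, Filter.eventually_map]
    apply Filter.hyperfilter_le_cofinite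
    change {n | ¬ (f n).2 ≠ x}.Finite
    apply Set.Subsingleton.finite
    intro a ha b hb
    by_contra hab
    simp only [ne_eq, not_not, mem_ofPred_eq] at ha hb
    rcases lt_or_gt_of_ne hab with h | h
    · exact (hf2 a b h).2 (ha.trans hb.symm)
    · exact (hf2 b a h).2 (hb.trans ha.symm)

private theorem ev_ball {α : Type} {F : Filter α} {Q : ℕ → α → Prop} (n : ℕ)
    (h : ∀ i, i ≤ n → ∀ᶠ x in F, Q i x) : ∀ᶠ x in F, ∀ i, i ≤ n → Q i x := by
  have := (Filter.eventually_all_finite (Set.finite_Iic n) (l := F) (p := Q)).2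
    (fun i hi => h i hi)
  exact this.mono fun x hx i hi => hx i hi

section

variable {A : V → V → Prop} {t B : ℕ} {Z : Set V} {h : ℕ → V} {U : ℕ → Set V}
  {p : ℕ → V → ℕ → V} {ℓ : ℕ → V → ℕ}

private theorem qq_idx (hH : Hubs A Z B h U p ℓ) {r k : ℕ} (hk : 1 ≤ k) {u : V}
    (hu : u ∈ U r) : 1 ≤ min k (ℓ r u) ∧ min k (ℓ r u) ≤ ℓ r u := by
  have := (hH.len r u hu).1
  omega

private theorem qq_inf (hH : Hubs A Z B h U p ℓ) (D : Ultrafilter V)
    (hD : ∀ r, ∀ᶠ u in (D : Filter V), u ∈ U r) (hD' : ∀ x, ∀ᶠ u in (D : Filter V), u ≠ x)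
    (r k : ℕ) (hk : 1 ≤ k) (x : V) : ∀ᶠ u in (D : Filter V), qq p ℓ r k u ≠ x := by
  by_cases hex : ∃ u0 ∈ U r, qq p ℓ r k u0 = x
  · obtain ⟨u0, hu0, h0⟩ := hex
    filter_upwards [hD r, hD' u0] with u hu hne
    rw [← h0]
    exact hH.disj r u hu u0 hu0 hne _ _ (qq_idx hH hk hu).1 (qq_idx hH hk hu).2
      (qq_idx hH hk hu0).1 (qq_idx hH hk hu0).2
  · push Not at hex
    filter_upwards [hD r] with u hu
    exact hex u hu

/-- the generic choice of the hubs -/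
private theorem choose_hubs (hs : ∀ x y, A x y → A y x) (hK : Sparse A t)
    (hH : Hubs A Z B h U p ℓ) (D : Ultrafilter V)
    (hD : ∀ r, ∀ᶠ u in (D : Filter V), u ∈ U r) (hD' : ∀ x, ∀ᶠ u in (D : Filter V), u ≠ x)
    (m : ℕ) : ∃ r : ℕ → ℕ, ∀ i j, i < m → j < m → i ≠ j →
      h (r i) ≠ h (r j) ∧ ¬ A (h (r i)) (h (r j)) ∧
      ∀ k, 1 ≤ k → k ≤ B → ∀ᶠ u in (D : Filter V), ¬ A (h (r j)) (qq p ℓ (r i) k u) := by
  classical
  have h0 : ∀ x, ∀ᶠ r in ((Filter.hyperfilter ℕ : Ultrafilter ℕ) : Filter ℕ), h r ≠ x := by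
    intro x
    apply Filter.hyperfilter_le_cofinite
    change {n | ¬ h n ≠ x}.Finite
    apply Set.Subsingleton.finite
    intro a ha b hb
    simp only [ne_eq, not_not, mem_ofPred_eq] at ha hb
    exact hH.inj (ha.trans hb.symm)
  have h0' : ∀ x, ∀ᶠ y in (((Filter.hyperfilter ℕ).map h : Ultrafilter V) : Filter V),
      y ≠ x := by
    intro x
    rw [Ultrafilter.coe_map, Filter.eventually_map]
    exact h0 x
  have h1 := ev_nonadj hK (Filter.hyperfilter ℕ) (Filter.hyperfilter ℕ) h h h0 h0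
  -- r fixed, s generic: `h s` is not adjacent to the paths at `h r`
  have h2 : ∀ r k, 1 ≤ k → ∀ᶠ s in ((Filter.hyperfilter ℕ : Ultrafilter ℕ) : Filter ℕ),
      ∀ᶠ u in (D : Filter V), ¬ A (h s) (qq p ℓ r k u) := by
    intro r k hk
    have h3 := ev_nonadj hK ((Filter.hyperfilter ℕ).map h) D id (qq p ℓ r k) h0'
      (qq_inf hH D hD hD' r k hk)
    rw [Ultrafilter.coe_map, Filter.eventually_map] at h3
    exact h3.mono fun s hs' => hs'.mono fun u hu => hu.2
  -- r generic, then s generic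
  have h4 : ∀ k, 1 ≤ k → ∀ᶠ r in ((Filter.hyperfilter ℕ : Ultrafilter ℕ) : Filter ℕ),
      ∀ᶠ s in ((Filter.hyperfilter ℕ : Ultrafilter ℕ) : Filter ℕ),
      ∀ᶠ u in (D : Filter V), ¬ A (h r) (qq p ℓ s k u) := by
    intro k hk
    have hbind : ∀ (P : V → Prop), (∀ᶠ y in (((Filter.hyperfilter ℕ).bind
        fun s => D.map (qq p ℓ s k) : Ultrafilter V) : Filter V), P y) ↔
        ∀ᶠ s in ((Filter.hyperfilter ℕ : Ultrafilter ℕ) : Filter ℕ),
          ∀ᶠ u in (D : Filter V), P (qq p ℓ s k u) := by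
      intro P
      exact Iff.rfl
    have h5 := ev_nonadj hK ((Filter.hyperfilter ℕ).map h) ((Filter.hyperfilter ℕ).bind
        fun s => D.map (qq p ℓ s k)) id id h0' (by
      intro x
      rw [hbind]
      exact Filter.Eventually.of_forall fun s => qq_inf hH D hD hD' s k hk x)
    rw [Ultrafilter.coe_map, Filter.eventually_map] at h5
    refine h5.mono fun r hr => ?_
    rw [hbind] at hr
    exact hr.mono fun s hs' => hs'.mono fun u hu => hu.2
  obtain ⟨r, -, hr⟩ := generic (α := ℕ)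
    ((Filter.hyperfilter ℕ : Ultrafilter ℕ) : Filter ℕ) m (fun _ _ => True)
    (fun _ _ r s => (h r ≠ h s ∧ ¬ A (h r) (h s)) ∧
      (∀ k, k ≤ B → 1 ≤ k → ∀ᶠ u in (D : Filter V), ¬ A (h s) (qq p ℓ r k u)) ∧
      ∀ k, k ≤ B → 1 ≤ k → ∀ᶠ u in (D : Filter V), ¬ A (h r) (qq p ℓ s k u))
    (fun _ _ => Filter.Eventually.of_forall fun _ => trivial) (by
      intro _ _ _ _
      have h4' : ∀ᶠ r in ((Filter.hyperfilter ℕ : Ultrafilter ℕ) : Filter ℕ), ∀ k, k ≤ B →
          1 ≤ k → ∀ᶠ s in ((Filter.hyperfilter ℕ : Ultrafilter ℕ) : Filter ℕ),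
          ∀ᶠ u in (D : Filter V), ¬ A (h r) (qq p ℓ s k u) :=
        ev_ball B fun k _ => by
          by_cases hk : 1 ≤ k
          · exact (h4 k hk).mono fun _ hx _ => hx
          · exact Filter.Eventually.of_forall fun _ hx => absurd hx hk
      filter_upwards [h1, h4'] with r hr1 hr2
      have h6 : ∀ᶠ s in ((Filter.hyperfilter ℕ : Ultrafilter ℕ) : Filter ℕ), ∀ k, k ≤ B →
          1 ≤ k → ∀ᶠ u in (D : Filter V), ¬ A (h s) (qq p ℓ r k u) :=
        ev_ball B fun k _ => by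
          by_cases hk : 1 ≤ k
          · exact (h2 r k hk).mono fun _ hx _ => hx
          · exact Filter.Eventually.of_forall fun _ hx => absurd hx hk
      have h7 : ∀ᶠ s in ((Filter.hyperfilter ℕ : Ultrafilter ℕ) : Filter ℕ), ∀ k, k ≤ B →
          1 ≤ k → ∀ᶠ u in (D : Filter V), ¬ A (h r) (qq p ℓ s k u) :=
        ev_ball B fun k hkB => by
          by_cases hk : 1 ≤ k
          · exact (hr2 k hkB hk).mono fun _ hx _ => hx
          · exact Filter.Eventually.of_forall fun _ hx => absurd hx hk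
      filter_upwards [hr1, h6, h7] with s hs1 hs2 hs3
      exact ⟨hs1, hs2, hs3⟩)
  refine ⟨r, fun i j hi hj hij => ?_⟩
  rcases lt_or_gt_of_ne hij with h8 | h8
  · obtain ⟨⟨a1, a2⟩, a3, -⟩ := hr i j h8 hj
    exact ⟨a1, a2, fun k hk1 hk2 => a3 k hk2 hk1⟩
  · obtain ⟨⟨a1, a2⟩, -, a3⟩ := hr j i h8 hi
    exact ⟨a1.symm, fun hA => a2 (hs _ _ hA), fun k hk1 hk2 => a3 k hk2 hk1⟩

end

theorem exists_ring {A : V → V → Prop} (hs : ∀ x y, A x y → A y x) (hi : ∀ x, ¬ A x x)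
    {t B : ℕ} (hK : Sparse A t) {Z : Set V} {h : ℕ → V} {U : ℕ → Set V} {p : ℕ → V → ℕ → V}
    {ℓ : ℕ → V → ℕ} (hH : Hubs A Z B h U p ℓ) (m : ℕ) (hm : 3 ≤ m) :
    ∃ (c : ℕ → V) (Q : ℕ → Finset V), Ring A Z m c Q := by
  classical
  obtain ⟨D, hD, hD'⟩ := exists_D hH.inf hH.anti
  obtain ⟨r, hr⟩ := choose_hubs hs hK hH D hD hD' m
  have hinf := qq_inf hH D hD hD'
  have hmod : ∀ i, (i + 1) % m < m := fun i => Nat.mod_lt _ (by omega)
  have : Nonempty V := ⟨h 0⟩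
  -- the first family of conditions
  obtain ⟨u, hu1, hu2⟩ := generic (D : Filter V) m
    (fun i u => (∀ j, j ≤ m → u ∈ U (r j)) ∧
      (∀ j, j ≤ m → ∀ k, k ≤ B → ∀ l, l ≤ m → 1 ≤ k → qq p ℓ (r j) k u ≠ h (r l)) ∧
      ∀ j, j ≤ m → ∀ k, k ≤ B → ∀ l, l ≤ m → j < m → l < m → j ≠ l → 1 ≤ k →
        ¬ A (h (r l)) (qq p ℓ (r j) k u))
    (fun _ _ u u' => ∀ a, a ≤ m → ∀ b, b ≤ m → ∀ k, k ≤ B → ∀ k', k' ≤ B → 1 ≤ k → 1 ≤ k' →
      qq p ℓ (r a) k u ≠ qq p ℓ (r b) k' u' ∧ ¬ A (qq p ℓ (r a) k u) (qq p ℓ (r b) k' u'))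
    (by
      intro i hi'
      refine Filter.Eventually.and (ev_ball m fun j _ => hD _) (Filter.Eventually.and ?_ ?_)
      · refine ev_ball m fun j _ => ev_ball B fun k _ => ev_ball m fun l _ => ?_
        by_cases hk : 1 ≤ k
        · exact (hinf (r j) k hk (h (r l))).mono fun _ hx _ => hx
        · exact Filter.Eventually.of_forall fun _ hx => absurd hx hk
      · refine ev_ball m fun j _ => ev_ball B fun k hkB => ev_ball m fun l _ => ?_
        by_cases hk : j < m ∧ l < m ∧ j ≠ l ∧ 1 ≤ k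
        · obtain ⟨k1, k2, k3, k4⟩ := hk
          exact ((hr j l k1 k2 k3).2.2 k k4 hkB).mono fun _ hx _ _ _ _ => hx
        · exact Filter.Eventually.of_forall fun _ h1 h2 h3 h4 => absurd ⟨h1, h2, h3, h4⟩ hk)
    (by
      intro i j _ _
      have hA : ∀ a b k k', 1 ≤ k → 1 ≤ k' → ∀ᶠ u in (D : Filter V), ∀ᶠ u' in (D : Filter V),
          qq p ℓ (r a) k u ≠ qq p ℓ (r b) k' u' ∧
            ¬ A (qq p ℓ (r a) k u) (qq p ℓ (r b) k' u') := fun a b k k' hk hk' =>
        ev_nonadj hK D D _ _ (hinf (r a) k hk) (hinf (r b) k' hk')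
      have hB : ∀ᶠ u in (D : Filter V), ∀ a, a ≤ m → ∀ b, b ≤ m → ∀ k, k ≤ B → ∀ k', k' ≤ B →
          1 ≤ k → 1 ≤ k' → ∀ᶠ u' in (D : Filter V),
          qq p ℓ (r a) k u ≠ qq p ℓ (r b) k' u' ∧
            ¬ A (qq p ℓ (r a) k u) (qq p ℓ (r b) k' u') := by
        refine ev_ball m fun a _ => ev_ball m fun b _ => ev_ball B fun k _ =>
          ev_ball B fun k' _ => ?_
        by_cases hk : 1 ≤ k ∧ 1 ≤ k'
        · exact (hA a b k k' hk.1 hk.2).mono fun _ hx _ _ => hx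
        · exact Filter.Eventually.of_forall fun _ h1 h2 => absurd ⟨h1, h2⟩ hk
      refine hB.mono fun u hu => ?_
      refine ev_ball m fun a ha => ev_ball m fun b hb => ev_ball B fun k hkB =>
        ev_ball B fun k' hkB' => ?_
      by_cases hk : 1 ≤ k ∧ 1 ≤ k'
      · exact (hu a ha b hb k hkB k' hkB' hk.1 hk.2).mono fun _ hx _ _ => hx
      · exact Filter.Eventually.of_forall fun _ h1 h2 => absurd ⟨h1, h2⟩ hk)
  -- the blocks
  set Q : ℕ → Finset V := fun i =>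
    (Finset.Icc 1 B).image (fun k => qq p ℓ (r i) k (u i)) ∪
      (Finset.Icc 1 B).image (fun k => qq p ℓ (r ((i + 1) % m)) k (u i)) with hQ
  have hQmem : ∀ i, i < m → ∀ x, x ∈ Q i ↔ ∃ a, (a = i ∨ a = (i + 1) % m) ∧ ∃ k, 1 ≤ k ∧
      k ≤ B ∧ qq p ℓ (r a) k (u i) = x := by
    intro i _ x
    simp only [hQ, Finset.mem_union, Finset.mem_image, Finset.mem_Icc]
    constructor
    · rintro (⟨k, ⟨h1, h2⟩, h3⟩ | ⟨k, ⟨h1, h2⟩, h3⟩)
      · exact ⟨i, Or.inl rfl, k, h1, h2, h3⟩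
      · exact ⟨_, Or.inr rfl, k, h1, h2, h3⟩
    · rintro ⟨a, rfl | rfl, k, h1, h2, h3⟩
      · exact Or.inl ⟨k, ⟨h1, h2⟩, h3⟩
      · exact Or.inr ⟨k, ⟨h1, h2⟩, h3⟩
  have hlt : ∀ i, i < m → ∀ a, (a = i ∨ a = (i + 1) % m) → a < m := by
    rintro i hi' a (rfl | rfl)
    · exact hi'
    · exact hmod _
  have hQQ : ∀ i, i < m → ∀ j, j < m → i < j → ∀ x ∈ Q i, ∀ y ∈ Q j, x ≠ y ∧ ¬ A x y := by
    intro i hi' j hj hij x hx y hy
    obtain ⟨a, ha, k, hk1, hk2, rfl⟩ := (hQmem i hi' x).1 hx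
    obtain ⟨b, hb, k', hk1', hk2', rfl⟩ := (hQmem j hj y).1 hy
    exact hu2 i j hij hj a (hlt i hi' a ha).le b (hlt j hj b hb).le k hk2 k' hk2' hk1 hk1'
  have hZ0 : ∀ i, i < m → h (r i) ∈ Z := by
    intro i hi'
    have h1 := (hH.walk (r i) (u i) ((hu1 i hi').1 i hi'.le))
    rw [← h1.2.1]
    exact h1.1.1 0 (Nat.zero_le _)
  -- the half paths
  have hhalf : ∀ i, i < m → ∀ a, (a = i ∨ a = (i + 1) % m) →
      Linked A (insert (h (r i)) (insert (h (r ((i + 1) % m))) (Q i : Set V)))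
        (h (r a)) (u i) := by
    intro i hi' a ha
    have hui := (hu1 i hi').1 a (hlt i hi' a ha).le
    obtain ⟨h1, h2, h3⟩ := hH.walk (r a) (u i) hui
    refine ⟨ℓ (r a) (u i), p (r a) (u i), ⟨?_, h1.2⟩, h2, h3⟩
    intro k hk
    by_cases hk0 : k = 0
    · subst hk0
      rw [h2]
      rcases ha with rfl | rfl
      · exact Set.mem_insert _ _
      · exact Set.mem_insert_of_mem _ (Set.mem_insert _ _)
    · refine Set.mem_insert_of_mem _ (Set.mem_insert_of_mem _ ?_)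
      rw [Finset.mem_coe, hQmem i hi']
      have hB := (hH.len (r a) (u i) hui).2
      refine ⟨a, ha, k, Nat.one_le_iff_ne_zero.2 hk0, hk.trans hB, ?_⟩
      change p (r a) (u i) (min k (ℓ (r a) (u i))) = _
      rw [min_eq_left hk]
  refine ⟨fun i => h (r i), Q, ?_⟩
  refine
    { cZ := hZ0
      QZ := ?_
      inj := ?_
      cc := ?_
      cQ := ?_
      QQ := ?_
      Qc := ?_
      link := ?_ }
  · intro i hi' x hx
    rw [Finset.mem_coe] at hx
    obtain ⟨a, ha, k, hk1, hk2, rfl⟩ := (hQmem i hi' x).1 hx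
    have hui := (hu1 i hi').1 a (hlt i hi' a ha).le
    exact (hH.walk (r a) (u i) hui).1.1 _ (min_le_right _ _)
  · intro i hi' j hj hij
    by_contra hne
    exact (hr i j hi' hj hne).1 hij
  · intro i hi' j hj hA
    by_cases hij : i = j
    · subst hij
      exact hi _ hA
    · exact (hr i j hi' hj hij).2.1 hA
  · intro i hi' j hj hmem
    obtain ⟨a, ha, k, hk1, hk2, h1⟩ := (hQmem i hi' _).1 hmem
    exact (hu1 i hi').2.1 a (hlt i hi' a ha).le k hk2 j hj.le hk1 h1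
  · intro i hi' j hj hij x hx y hy
    rcases lt_or_gt_of_ne hij with h1 | h1
    · exact hQQ i hi' j hj h1 x hx y hy
    · obtain ⟨h2, h3⟩ := hQQ j hj i hi' h1 y hy x hx
      exact ⟨h2.symm, fun hA => h3 (hs _ _ hA)⟩
  · intro i hi' j hj hji hji' x hx hA
    obtain ⟨a, ha, k, hk1, hk2, rfl⟩ := (hQmem i hi' x).1 hx
    have haj : a ≠ j := by
      rintro rfl
      rcases ha with h1 | h1
      · exact hji h1
      · exact hji' h1
    exact (hu1 i hi').2.2 a (hlt i hi' a ha).le k hk2 j hj.le (hlt i hi' a ha) hj haj hk1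
      (hs _ _ hA)
  · intro i hi'
    exact (hhalf i hi' i (Or.inl rfl)).trans ((hhalf i hi' _ (Or.inr rfl)).symm hs)

end Pool.Agent.Lib.MP_4fb322_lc_h21
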