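import Mathlib
import Pool.Agent.Lib.MP_4fb322_lc_h21.Basic

set_option autoImplicit false

/-!
# Row W13

From rings to induced cycles (graph theory). PROOF. For `i < m`, `i' = (i+1) % m` (`≠ i` as `m ≥ 3`),
`exists_shortest` applied to `link i` gives an induced path `w i 0 = c i, ..., w i (n i) = c i'` inside
`{c i, c i'} ∪ Q i`; `n i ≥ 2` since `c i ≠ c i'` are not adjacent; interior points `w i k`
(`0 < k < n i`) lie in `Q i` (injectivity). Let `S` = all `w i k`, `i < m`, `k ≤ n i`. Members of `S`: the
centres `c i` (`i < m`) and the interior points. Neighbours in `S` of an interior point `w i k`: other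
centres `c j` (`j ≠ i, i'`) and other blocks are not adjacent (Qc, QQ), and inside the path only
`w i (k-1)`, `w i (k+1)` (induced). Neighbours in `S` of `c i`: no centres (cc), only blocks `Q i` and
`Q j` with `j' = i` (Qc), and there only `w i 1` and `w j (n j - 1)`; they differ because `Q i`, `Q j` are
disjoint. Connectedness (Cn): a nonempty `R ⊆ S` closed under adjacency contains some `w i k`, hence
(steps along the path in both directions) all `w i k`, in particular `c i` and `c i'`, hence the path
of `i'`, ..., all. `m ≤ S.card`: `S` contains the distinct `c 0, ..., c (m-1)`. (About 200 lines.)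
-/

namespace Pool.Agent.Lib.MP_4fb322_lc_h21

open Set Pool.Agent.Lib.MP_4fb322_lc_h70 Pool.Agent.Lib.MP_4fb322_lc_h91

variable {I : Type} {ar : I → ℕ} {V : Type}

private theorem W13_inj {m p j : ℕ} (hp : p < m) (hj : j < m) (h : (p + 1) % m = (j + 1) % m) :
    p = j := by
  have h1 : p + 1 ≡ j + 1 [MOD m] := h
  have h2 : p ≡ j [MOD m] := Nat.ModEq.add_right_cancel' 1 h1
  have h3 : p % m = j % m := h2
  rwa [Nat.mod_eq_of_lt hp, Nat.mod_eq_of_lt hj] at h3

private theorem W13_ne {m i : ℕ} (hm : 3 ≤ m) (hi : i < m) : (i + 1) % m ≠ i := by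
  intro h
  by_cases h1 : i + 1 < m
  · rw [Nat.mod_eq_of_lt h1] at h
    omega
  · have h2 : i + 1 = m := by omega
    rw [h2, Nat.mod_self] at h
    omega

private theorem W13_pre {m i : ℕ} (hm : 3 ≤ m) (hi : i < m) : ∃ j, j < m ∧ (j + 1) % m = i := by
  by_cases h : i = 0
  · refine ⟨m - 1, by omega, ?_⟩
    have : m - 1 + 1 = m := by omega
    rw [this, Nat.mod_self, h]
  · refine ⟨i - 1, by omega, ?_⟩
    have : i - 1 + 1 = i := by omega
    rw [this, Nat.mod_eq_of_lt hi]

theorem cyc_of_ring {A : V → V → Prop} (hs : ∀ x y, A x y → A y x) (hi : ∀ x, ¬ A x x)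
    {Z : Set V} {m : ℕ} (hm : 3 ≤ m) {c : ℕ → V} {Q : ℕ → Finset V} (hR : Ring A Z m c Q) :
    ∃ S : Finset V, (S : Set V) ⊆ Z ∧ m ≤ S.card ∧ CycSet A S := by
  classical
  have hnx : ∀ i, (i + 1) % m < m := fun i => Nat.mod_lt _ (by omega)
  have key : ∀ i, ∃ (n : ℕ) (w : ℕ → V), i < m →
      IsWalk A (insert (c i) (insert (c ((i + 1) % m)) (Q i : Set V))) n w ∧ w 0 = c i ∧
      w n = c ((i + 1) % m) ∧
      (∀ a, a ≤ n → ∀ b, b ≤ n → w a = w b → a = b) ∧
      (∀ a, a ≤ n → ∀ b, b ≤ n → A (w a) (w b) → a ≤ b + 1 ∧ b ≤ a + 1) := by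
    intro i
    by_cases him : i < m
    · obtain ⟨n, w, h1, h2, h3, -, -, -, h4, h5⟩ := exists_shortest hs (hR.link i him)
      exact ⟨n, w, fun _ => ⟨h1, h2, h3, h4, h5⟩⟩
    · exact ⟨0, fun _ => c i, fun h => absurd h him⟩
  choose n w hw using key
  have hne : ∀ i, i < m → c i ≠ c ((i + 1) % m) := by
    intro i him h
    exact W13_ne hm him (hR.inj i him _ (hnx i) h).symm
  have hn2 : ∀ i, i < m → 2 ≤ n i := by
    intro i him
    obtain ⟨h1, h2, h3, -, -⟩ := hw i him
    by_contra hlt
    have h4 : n i = 0 ∨ n i = 1 := by omega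
    rcases h4 with h4 | h4
    · rw [h4, h2] at h3
      exact hne i him h3
    · have h5 := h1.2 0 (by omega)
      rw [h2, show (0 : ℕ) + 1 = n i by omega, h3] at h5
      exact hR.cc i him _ (hnx i) h5
  have hint : ∀ i, i < m → ∀ k, 0 < k → k < n i → w i k ∈ Q i := by
    intro i him k hk hkn
    obtain ⟨h1, h2, h3, h4, -⟩ := hw i him
    rcases h1.1 k hkn.le with h | h | h
    · rw [← h2] at h
      have := h4 k hkn.le 0 (Nat.zero_le _) h
      omega
    · rw [← h3] at h
      have := h4 k hkn.le (n i) le_rfl h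
      omega
    · exact h
  let S : Finset V := (Finset.range m).biUnion fun i => (Finset.range (n i + 1)).image (w i)
  have hS : ∀ x, x ∈ S ↔ ∃ i, i < m ∧ ∃ k, k ≤ n i ∧ w i k = x := by
    intro x
    simp only [S, Finset.mem_biUnion, Finset.mem_range, Finset.mem_image]
    constructor
    · rintro ⟨i, h1, k, h2, h3⟩
      exact ⟨i, h1, k, by omega, h3⟩
    · rintro ⟨i, h1, k, h2, h3⟩
      exact ⟨i, h1, k, by omega, h3⟩
  have hcS : ∀ i, i < m → c i ∈ S := fun i him => (hS _).2 ⟨i, him, 0, Nat.zero_le _, (hw i him).2.1⟩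
  -- members of `S`: centres and interior points
  have hcase : ∀ x, x ∈ S → (∃ i, i < m ∧ x = c i) ∨
      ∃ i, i < m ∧ ∃ k, 0 < k ∧ k < n i ∧ x = w i k := by
    intro x hx
    obtain ⟨i, him, k, hk, rfl⟩ := (hS x).1 hx
    by_cases h0 : k = 0
    · left
      exact ⟨i, him, by rw [h0, (hw i him).2.1]⟩
    · by_cases h1 : k = n i
      · left
        exact ⟨(i + 1) % m, hnx i, by rw [h1, (hw i him).2.2.1]⟩
      · right
        exact ⟨i, him, k, by omega, by omega, rfl⟩
  -- neighbours of interior points
  have hnbI : ∀ i, i < m → ∀ k, 0 < k → k < n i → ∀ y, y ∈ S → A (w i k) y →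
      y = w i (k - 1) ∨ y = w i (k + 1) := by
    intro i him k hk hkn y hy hA
    obtain ⟨h1, h2, h3, h4, h5⟩ := hw i him
    have hQ := hint i him k hk hkn
    have hy' : ∃ a, a ≤ n i ∧ y = w i a := by
      rcases hcase y hy with ⟨p, hp, rfl⟩ | ⟨p, hp, l, hl, hln, rfl⟩
      · by_cases hpi : p = i
        · exact ⟨0, Nat.zero_le _, by rw [hpi, h2]⟩
        · by_cases hpn : p = (i + 1) % m
          · exact ⟨n i, le_rfl, by rw [hpn, h3]⟩
          · exact absurd hA (hR.Qc i him p hp hpi hpn _ hQ)
      · by_cases hpi : p = i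
        · subst hpi
          exact ⟨l, hln.le, rfl⟩
        · exact absurd hA (hR.QQ i him p hp (Ne.symm hpi) _ hQ _ (hint p hp l hl hln)).2
    obtain ⟨a, ha, rfl⟩ := hy'
    have h6 := h5 k hkn.le a ha hA
    have h7 : a ≠ k := by
      intro h
      rw [h] at hA
      exact hi _ hA
    have h8 : a = k - 1 ∨ a = k + 1 := by omega
    rcases h8 with h8 | h8
    · left; rw [h8]
    · right; rw [h8]
  -- neighbours of centres
  have hnbC : ∀ i, i < m → ∀ j, j < m → (j + 1) % m = i → ∀ y, y ∈ S → A (c i) y →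
      y = w i 1 ∨ y = w j (n j - 1) := by
    intro i him j hjm hji y hy hA
    rcases hcase y hy with ⟨p, hp, rfl⟩ | ⟨p, hp, l, hl, hln, rfl⟩
    · exact absurd hA (hR.cc i him p hp)
    · have hQ := hint p hp l hl hln
      by_cases hpi : i = p
      · left
        subst hpi
        obtain ⟨h1, h2, h3, h4, h5⟩ := hw i him
        rw [← h2] at hA
        have h6 := h5 0 (Nat.zero_le _) l hln.le hA
        have h7 : l = 1 := by omega
        rw [h7]
      · right
        by_cases hpn : i = (p + 1) % m
        · have h8 : p = j := W13_inj hp hjm (by rw [← hpn, hji])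
          subst h8
          obtain ⟨h1, h2, h3, h4, h5⟩ := hw p hp
          rw [hpn, ← h3] at hA
          have h6 := h5 (n p) le_rfl l hln.le hA
          have h7 : l = n p - 1 := by omega
          rw [h7]
        · exact absurd (hs _ _ hA) (hR.Qc p hp i him hpi hpn _ hQ)
  refine ⟨S, ?_, ?_, ?_, ?_⟩
  · intro x hx
    rcases hcase x hx with ⟨p, hp, rfl⟩ | ⟨p, hp, l, hl, hln, rfl⟩
    · exact hR.cZ p hp
    · exact hR.QZ p hp (hint p hp l hl hln)
  · have h1 : ((Finset.range m).image c).card = m := by
      rw [Finset.card_image_of_injOn, Finset.card_range]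
      intro a ha b hb hab
      rw [Finset.coe_range, Set.mem_Iio] at ha hb
      exact hR.inj a ha b hb hab
    rw [← h1]
    apply Finset.card_le_card
    intro x hx
    obtain ⟨i, him, rfl⟩ := Finset.mem_image.1 hx
    exact hcS i (Finset.mem_range.1 him)
  · intro x hx
    rcases hcase x hx with ⟨p, hp, rfl⟩ | ⟨p, hp, l, hl, hln, rfl⟩
    · obtain ⟨j, hj, hjp⟩ := W13_pre hm hp
      have hp2 := hn2 p hp
      have hj2 := hn2 j hj
      have hjne : j ≠ p := by
        intro h
        rw [h] at hjp
        exact W13_ne hm hp hjp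
      refine ⟨w p 1, (hS _).2 ⟨p, hp, 1, by omega, rfl⟩, w j (n j - 1),
        (hS _).2 ⟨j, hj, n j - 1, by omega, rfl⟩, ?_, ?_, ?_, hnbC p hp j hj hjp⟩
      · exact fun h => (hR.QQ p hp j hj (Ne.symm hjne) _ (hint p hp 1 (by omega) (by omega)) _
          (hint j hj (n j - 1) (by omega) (by omega))).1 h
      · have h1 := (hw p hp).1.2 0 (by omega)
        rw [(hw p hp).2.1] at h1
        exact h1
      · have h1 := (hw j hj).1.2 (n j - 1) (by omega)
        rw [show n j - 1 + 1 = n j by omega, (hw j hj).2.2.1, hjp] at h1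
        exact hs _ _ h1
    · refine ⟨w p (l - 1), (hS _).2 ⟨p, hp, l - 1, by omega, rfl⟩, w p (l + 1),
        (hS _).2 ⟨p, hp, l + 1, by omega, rfl⟩, ?_, ?_, ?_, hnbI p hp l hl hln⟩
      · intro h
        have := (hw p hp).2.2.2.1 (l - 1) (by omega) (l + 1) (by omega) h
        omega
      · have h1 := (hw p hp).1.2 (l - 1) (by omega)
        rw [show l - 1 + 1 = l by omega] at h1
        exact hs _ _ h1
      · exact (hw p hp).1.2 l hln
  · intro R hRS hRne hcl
    -- a block which meets `R` is in `R`
    have hblock : ∀ i, i < m → ∀ k, k ≤ n i → w i k ∈ R → ∀ a, a ≤ n i → w i a ∈ R := by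
      intro i him k hk hkR
      have hup : ∀ a, k ≤ a → a ≤ n i → w i a ∈ R := by
        intro a hka
        induction a, hka using Nat.le_induction with
        | base => exact fun _ => hkR
        | succ a hka ih =>
          intro han
          exact hcl _ (ih (by omega)) _ (by
            rw [Finset.mem_coe]
            exact (hS _).2 ⟨i, him, a + 1, han, rfl⟩) ((hw i him).1.2 a (by omega))
      have hdown : ∀ d, d ≤ k → w i (k - d) ∈ R := by
        intro d
        induction d with
        | zero => exact fun _ => hkR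
        | succ d ih =>
          intro hd
          have h1 := (hw i him).1.2 (k - (d + 1)) (by omega)
          rw [show k - (d + 1) + 1 = k - d by omega] at h1
          exact hcl _ (ih (by omega)) _ (by
            rw [Finset.mem_coe]
            exact (hS _).2 ⟨i, him, k - (d + 1), by omega, rfl⟩) (hs _ _ h1)
      intro a ha
      by_cases hka : k ≤ a
      · exact hup a hka ha
      · have h1 := hdown (k - a) (by omega)
        rwa [show k - (k - a) = a by omega] at h1
    obtain ⟨x, hx⟩ := hRne
    obtain ⟨i, him, k, hk, rfl⟩ := (hS x).1 (by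
      have := hRS hx
      rwa [Finset.mem_coe] at this)
    have hall : ∀ t, ∀ a, a ≤ n ((i + t) % m) → w ((i + t) % m) a ∈ R := by
      intro t
      induction t with
      | zero =>
        rw [Nat.add_zero, Nat.mod_eq_of_lt him]
        exact hblock i him k hk hx
      | succ t ih =>
        have h1 := ih (n ((i + t) % m)) le_rfl
        have h2 : (i + t) % m < m := Nat.mod_lt _ (by omega)
        rw [(hw _ h2).2.2.1] at h1
        have h3 : ((i + t) % m + 1) % m = (i + (t + 1)) % m := by
          rw [Nat.mod_add_mod, Nat.add_assoc]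
        rw [h3] at h1
        have h4 : (i + (t + 1)) % m < m := Nat.mod_lt _ (by omega)
        refine hblock _ h4 0 (Nat.zero_le _) ?_
        rw [(hw _ h4).2.1]
        exact h1
    refine Set.Subset.antisymm hRS ?_
    intro y hy
    rw [Finset.mem_coe] at hy
    obtain ⟨j, hj, a, ha, rfl⟩ := (hS y).1 hy
    have h1 := hall (j + m - i)
    have h2 : (i + (j + m - i)) % m = j := by
      rw [show i + (j + m - i) = j + m by omega, Nat.add_mod_right, Nat.mod_eq_of_lt hj]
    rw [h2] at h1
    exact h1 a ha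

end Pool.Agent.Lib.MP_4fb322_lc_h21
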