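import Mathlib
import Pool.Agent.Lib.MP_4fb322_lc_h21.Basic

set_option autoImplicit false

/-!
# Row W14

Cycles in a well-quasi-ordered graph have bounded length. PROOF. Otherwise choose cycle sets `S n ⊆ X` with
strictly increasing cardinalities, all nonempty. GWqo gives `i < j` and `f : S i → S j`. Let
`R = f '' S i ⊆ S j`. `R` is closed under adjacency in `S j`: for `x ∈ S i` with the two neighbours
`a ≠ b` in `S i`, the points `f a ≠ f b` are two neighbours of `f x` in `S j`, and `f x` has exactly two
neighbours in `S j`, so every neighbour of `f x` in `S j` is `f a` or `f b`. By `Cn`, `R = S j`, so the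
cardinalities agree: contradiction. (About 60 lines.)
-/

namespace Pool.Agent.Lib.MP_4fb322_lc_h21

open Set Pool.Agent.Lib.MP_4fb322_lc_h70 Pool.Agent.Lib.MP_4fb322_lc_h91

variable {I : Type} {ar : I → ℕ} {V : Type}

theorem cyc_bounded {A : V → V → Prop} {X : Set V} (hG : GWqo A X) :
    ∃ m : ℕ, ∀ S : Finset V, (S : Set V) ⊆ X → CycSet A S → S.card < m := by
  classical
  by_contra hno
  push Not at hno
  choose F hFX hFc hFm using hno
  let k : ℕ → ℕ := fun n => Nat.rec 1 (fun _ r => (F r).card + 1) n
  have hk0 : k 0 = 1 := rfl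
  have hk1 : ∀ n, k (n + 1) = (F (k n)).card + 1 := fun _ => rfl
  have hlt : ∀ n, (F (k n)).card < (F (k (n + 1))).card := by
    intro n
    have h1 := hFm (k (n + 1))
    have h2 := hk1 n
    omega
  have hmono : StrictMono fun n => (F (k n)).card := strictMono_nat_of_lt_succ hlt
  have hpos : ∀ n, 1 ≤ (F (k n)).card := by
    intro n
    have h1 := hFm (k 0)
    rw [hk0] at h1
    have h2 := hmono.monotone (Nat.zero_le n)
    simp only [hk0] at h2
    omega
  obtain ⟨i, j, hij, f, hinj, hmap, hadj⟩ := hG (fun n => F (k n)) (fun n => hFX _)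
  have hc := (hFc (k j)).2 (((F (k i)).image f : Finset V) : Set V) ?_ ?_ ?_
  · have h1 : (F (k i)).image f = F (k j) := by
      exact_mod_cast hc
    have h2 := congrArg Finset.card h1
    rw [Finset.card_image_of_injOn hinj] at h2
    have h3 := hmono hij
    simp only at h3
    omega
  · intro y hy
    rw [Finset.mem_coe, Finset.mem_image] at hy
    obtain ⟨x, hx, rfl⟩ := hy
    exact hmap x hx
  · have h1 : (F (k i)).Nonempty := Finset.card_pos.1 (hpos i)
    obtain ⟨x, hx⟩ := h1
    exact ⟨f x, by rw [Finset.mem_coe]; exact Finset.mem_image_of_mem f hx⟩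
  · intro y hy z hz hyz
    rw [Finset.mem_coe, Finset.mem_image] at hy
    obtain ⟨x, hx, rfl⟩ := hy
    obtain ⟨a, ha, b, hb, hab, hxa, hxb, -⟩ := (hFc (k i)).1 x hx
    obtain ⟨a', ha', b', hb', -, -, -, hall⟩ := (hFc (k j)).1 (f x) (hmap x hx)
    have h1 := hall (f a) (hmap a ha) ((hadj x hx a ha).2 hxa)
    have h2 := hall (f b) (hmap b hb) ((hadj x hx b hb).2 hxb)
    have h3 := hall z hz hyz
    have h4 : f a ≠ f b := fun h => hab (hinj ha hb h)
    rw [Finset.mem_coe, Finset.mem_image]
    have h5 : z = f a ∨ z = f b := by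
      rcases h1 with h1 | h1 <;> rcases h2 with h2 | h2 <;> rcases h3 with h3 | h3
      · exact absurd (h1.trans h2.symm) h4
      · exact absurd (h1.trans h2.symm) h4
      · left; rw [h3, h1]
      · right; rw [h3, h2]
      · right; rw [h3, h2]
      · left; rw [h3, h1]
      · exact absurd (h1.trans h2.symm) h4
      · exact absurd (h1.trans h2.symm) h4
    rcases h5 with h5 | h5
    · exact ⟨a, ha, h5.symm⟩
    · exact ⟨b, hb, h5.symm⟩

end Pool.Agent.Lib.MP_4fb322_lc_h21
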