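import Mathlib
import Pool.Agent.Lib.MP_4fb322_lc_h21.Basic
import Pool.Agent.Lib.MP_4fb322_lc_h21.W01
import Pool.Agent.Lib.MP_4fb322_lc_h21.W04
import Pool.Agent.Lib.MP_4fb322_lc_h21.W05
import Pool.Agent.Lib.MP_4fb322_lc_h21.W06
import Pool.Agent.Lib.MP_4fb322_lc_h21.W08
import Pool.Agent.Lib.MP_4fb322_lc_h21.W10
import Pool.Agent.Lib.MP_4fb322_lc_h21.W12
import Pool.Agent.Lib.MP_4fb322_lc_h21.W13
import Pool.Agent.Lib.MP_4fb322_lc_h21.W14
import Pool.Agent.Lib.MP_4fb322_lc_h21.W16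

set_option autoImplicit false

/-!
# Row W15

Only finitely many points of infinite degree (assembly). PROOF. Let `A = Adj M δ` (adj_symm, adj_irrefl,
sparse_adj). Suppose the set is infinite. `hP`: InfDeg points are in `P` (n_fin_deg). `kernel_pins`: `T0`;
`gwqo_of_noAntichain` : GWqo A T0ᶜ; `dist_bound` : `B`. hB: `T ⊇ T0` finite, `x, y` InfDeg, linked in `Tᶜ`:
they have infinitely many neighbours, so three in `Tᶜ`: Deg3 A Tᶜ. hfc: given `T ⊆ P` finite, `recog`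
(hnon: for `x ∉ P` and `Y` finite: the map `shift {x}` embeds everything into `{x}ᶜ`) gives
`T' ⊇ T`, `F`; `fin_comps`. `exists_hubs` gives hubs in `Z = T0ᶜ`; `cyc_bounded` gives `m`;
`exists_ring` and `cyc_of_ring` for `max m 3` give a cycle set that is too large. (About 60 lines.)
-/

namespace Pool.Agent.Lib.MP_4fb322_lc_h21

open Set Pool.Agent.Lib.MP_4fb322_lc_h70 Pool.Agent.Lib.MP_4fb322_lc_h91

variable {I : Type} {ar : I → ℕ} {V : Type}

theorem fin_infDeg (har : ∀ i, ar i ≤ 2) {M : (i : I) → Set (Fin (ar i) → V)} {δ : I → Prop}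
    {t : ℕ} {P : Set V} {pc : V → ℕ} {a : ℕ → Finset V} (hC : Core M δ t P pc a) :
    {x | InfDeg (Adj M δ) x}.Finite := by
  by_contra hinf
  have hU : {x | InfDeg (Adj M δ) x}.Infinite := hinf
  have hs : ∀ x y : V, Adj M δ x y → Adj M δ y x := adj_symm
  have hi : ∀ x : V, ¬ Adj M δ x x := adj_irrefl
  have hP : ∀ x, InfDeg (Adj M δ) x → x ∈ P := by
    intro x hx
    by_contra hxP
    exact n_fin_deg hC hxP hx
  obtain ⟨T0, hT0, hT0P, hNA⟩ := kernel_pins hC.wf hC.sparse hC.shift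
  have hG : GWqo (Adj M δ) T0ᶜ := gwqo_of_noAntichain har hNA
  obtain ⟨B, hB⟩ := dist_bound hs hi hG
  have hdeg3 : ∀ T : Set V, T.Finite → ∀ x, InfDeg (Adj M δ) x → Deg3 (Adj M δ) Tᶜ x := by
    intro T hT x hx
    have h1 : ({y | Adj M δ x y} \ T).Infinite := Set.Infinite.sdiff hx hT
    obtain ⟨a, ha⟩ := h1.nonempty
    have h2 : (({y | Adj M δ x y} \ T) \ {a}).Infinite :=
      Set.Infinite.sdiff h1 (Set.finite_singleton a)
    obtain ⟨b, hb⟩ := h2.nonempty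
    have h3 : ((({y | Adj M δ x y} \ T) \ {a}) \ {b}).Infinite :=
      Set.Infinite.sdiff h2 (Set.finite_singleton b)
    obtain ⟨c, hc⟩ := h3.nonempty
    exact ⟨a, ha.2, b, hb.1.2, c, hc.1.1.2, fun e => hb.2 e.symm, fun e => hc.1.2 e.symm,
      fun e => hc.2 e.symm, ha.1, hb.1.1, hc.1.1.1⟩
  have hnon : ∀ x, x ∉ P → ∀ Y : Set V, Y.Finite → VE M Y {x}ᶜ := by
    intro x hx Y _
    obtain ⟨f, hf1, hf2, hf3⟩ := hC.shift {x} (Set.finite_singleton x)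
    refine ⟨f, PE_mono hf1 (Set.subset_univ _), fun y _ => ?_⟩
    by_cases hyP : y ∈ P
    · intro h
      rw [hf2 y hyP] at h
      exact hx (by rw [← Set.mem_singleton_iff.1 h]; exact hyP)
    · exact (hf3 y hyP).2
  have hfc : ∀ T : Set V, T.Finite → T ⊆ P → ∃ T' : Set V, T'.Finite ∧ T ⊆ T' ∧ T' ⊆ P ∧
      ∀ κ : ℕ → V, (∀ n, κ n ∈ P ∧ κ n ∉ T') →
        ∃ m n, m ≠ n ∧ Linked (Adj M δ) T'ᶜ (κ m) (κ n) := by
    intro T hT hTP
    obtain ⟨T', F, h1, h2, h3, h4, h5, h6⟩ := recog hC.pin hnon hT hTP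
    exact ⟨T', h1, h3, h4, fun κ hκ => fin_comps hC.wf hC.pin h1 h5 h2 h6 κ hκ⟩
  obtain ⟨h, U, p, ℓ, hH⟩ := exists_hubs hs hT0 hT0P hP hfc (B := B) (by
    intro T hT hT0T x y hx hy hl
    exact hB Tᶜ (Set.compl_subset_compl.2 hT0T) x y (hdeg3 T hT x hx) (hdeg3 T hT y hy) hl) hU
  obtain ⟨m, hm⟩ := cyc_bounded hG
  obtain ⟨c, Q, hR⟩ := exists_ring hs hi (sparse_adj hC.sparse) hH (max m 3) (le_max_right _ _)
  obtain ⟨S, hS1, hS2, hS3⟩ := cyc_of_ring hs hi (le_max_right m 3) hR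
  have h7 := hm S hS1 hS3
  have h8 := le_max_left m 3
  omega

end Pool.Agent.Lib.MP_4fb322_lc_h21
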