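import Mathlib
import Pool.Agent.Lib.MP_4fb322_lc_h21.Basic
import Pool.Agent.Lib.MP_4fb322_lc_h21.W03

set_option autoImplicit false

/-!
# Row W17

Nash-Williams: a bad sequence of finite subsets of `Pᶜ` yields one of connected sets. `Rel M δ (T ∪ Z)` is
adjacency witnessed inside `T ∪ Z`. PROOF. Suppose `Z : ℕ → Finset V` has values inside `Pᶜ` and
`¬ RE M T (Z i) (Z j)` for all `i < j`. Use `Set.PartiallyWellOrderedOn.exists_min_bad_of_exists_bad`
(see its use in h70 Ages.lean, noAntichain_of_sumClosed) for the relation `r Y Z = RE M T Y Z` on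
Finset V, rank = card, set = finsets inside `Pᶜ`: a minimal bad sequence `f`. All `f n` are nonempty
(RE of the empty set into anything: identity is an embedding of `T ∪ ∅`). Claim: all but finitely many
`f n` are connected in the sense `Cn (Rel M δ (T ∪ f n)) (f n)`. Otherwise infinitely many `n_0 < n_1 < ..`
with a decomposition `f n = Y n ∪ Y' n`, disjoint, both nonempty, no `Rel M δ (T ∪ f n)`-adjacency
between them (`Y n` = the subset R of a failure of Cn; use symmetry of Rel). The set of all proper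
subsets `{Y ⊂ f n}` is well-quasi-ordered by `r` (minimality, standard: a bad sequence of proper
subsets, spliced behind `f 0, .., f (n-1)` where `n` is the least index used, is bad and smaller at
`n`; `Y ⊆ f n` gives RE M T Y (f n)); so after passing to a subsequence the `Y (n_k)` are increasing for
`r` (`exists_increasing_or_nonincreasing_subseq`, transitivity RE.trans) and then some `i < j` has
`RE (Y' n_i) (Y' n_j)`. glue_rooted then gives `RE M T (f n_i) (f n_j)` (images lie in
`Y (n_j)` and `Y' (n_j)`, disjoint and not Rel-adjacent inside `T ∪ f n_j`, use Rel.mono), a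
contradiction. Drop the finitely many exceptions. (About 200 lines.)
-/

namespace Pool.Agent.Lib.MP_4fb322_lc_h21

open Set Pool.Agent.Lib.MP_4fb322_lc_h70 Pool.Agent.Lib.MP_4fb322_lc_h91

variable {I : Type} {ar : I → ℕ} {V : Type}

/-- one gluing step -/
private theorem W17_glue {M : (i : I) → Set (Fin (ar i) → V)} {δ : I → Prop} {P T : Set V}
    (hTP : T ⊆ P) {A B A1 A2 B1 B2 : Set V} (hA : A ⊆ Pᶜ) (hA12 : A1 ∪ A2 = A)
    (hB12 : B1 ∪ B2 = B) (hdA : Disjoint A1 A2) (hdB : Disjoint B1 B2)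
    (hnA : ∀ x ∈ A1, ∀ y ∈ A2, ¬ Rel M δ (T ∪ A) x y)
    (hnB : ∀ x ∈ B1, ∀ y ∈ B2, ¬ Rel M δ (T ∪ B) x y)
    (h1 : RE M T A1 B1) (h2 : RE M T A2 B2) : RE M T A B := by
  obtain ⟨f, hf, hfT, hfB⟩ := h1
  obtain ⟨g, hg, hgT, hgB⟩ := h2
  have hTA : ∀ C : Set V, C ⊆ A → Disjoint T C := by
    intro C hC
    rw [Set.disjoint_left]
    intro x hx hxC
    exact hA (hC hxC) (hTP hx)
  have hA1 : A1 ⊆ A := hA12 ▸ Set.subset_union_left
  have hA2 : A2 ⊆ A := hA12 ▸ Set.subset_union_right
  have hB1 : B1 ⊆ B := hB12 ▸ Set.subset_union_left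
  have hB2 : B2 ⊆ B := hB12 ▸ Set.subset_union_right
  obtain ⟨h, hh, hhT, hh1, hh2⟩ := glue_rooted (δ := δ) hf hfT hg hgT hdA (hTA _ hA1)
    (hTA _ hA2) (by rw [hA12]; exact hnA) (by
      intro x hx y hy
      refine ⟨fun e => ?_, fun hr => ?_⟩
      · exact Set.disjoint_left.1 hdB (hfB x hx) (e ▸ hgB y hy)
      · refine hnB _ (hfB x hx) _ (hgB y hy) (hr.mono ?_)
        refine Set.union_subset_union_right _ (Set.union_subset ?_ ?_)
        · rintro _ ⟨z, hz, rfl⟩
          exact hB1 (hfB z hz)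
        · rintro _ ⟨z, hz, rfl⟩
          exact hB2 (hgB z hz))
  rw [hA12] at hh
  refine ⟨h, hh, hhT, fun y hy => ?_⟩
  rw [← hA12] at hy
  rcases hy with hy | hy
  · rw [hh1 y hy]
    exact hB1 (hfB y hy)
  · rw [hh2 y hy]
    exact hB2 (hgB y hy)

theorem exists_bad_connected {M : (i : I) → Set (Fin (ar i) → V)} {δ : I → Prop}
    {P T : Set V} (hTP : T ⊆ P)
    (hbad : ∃ Z : ℕ → Finset V, (∀ n, (Z n : Set V) ⊆ Pᶜ) ∧
      ∀ i j, i < j → ¬ RE M T (Z i : Set V) (Z j : Set V)) :
    ∃ Z : ℕ → Finset V, (∀ n, (Z n : Set V) ⊆ Pᶜ) ∧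
      (∀ i j, i < j → ¬ RE M T (Z i : Set V) (Z j : Set V)) ∧
      ∀ n, (Z n).Nonempty ∧ Cn (Rel M δ (T ∪ (Z n : Set V))) (Z n : Set V) := by
  classical
  obtain ⟨Z, hZ, hZbad⟩ := hbad
  set r : Finset V → Finset V → Prop := fun Y X => RE M T (Y : Set V) (X : Set V) with hr
  set S : Set (Finset V) := {Y | (Y : Set V) ⊆ Pᶜ} with hS
  have hex : ∃ f : ℕ → Finset V, Set.PartiallyWellOrderedOn.IsBadSeq r S f :=
    ⟨Z, hZ, hZbad⟩
  obtain ⟨f, hf, hmin⟩ := Set.PartiallyWellOrderedOn.exists_min_bad_of_exists_bad r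
    Finset.card S hex
  obtain ⟨hfS, hfbad⟩ := hf
  -- the proper subsets of the terms are well-quasi-ordered
  have hprop : ∀ g : ℕ → Finset V, (∀ k, ∃ n, g k ⊆ f n ∧ (g k).card < (f n).card) →
      ∃ m n, m < n ∧ r (g m) (g n) := by
    intro g hg
    by_contra hbad
    push Not at hbad
    choose N hN1 hN2 using hg
    set k0 := Function.argmin N with hk0
    have hk : ∀ k, N k0 ≤ N k := fun k => Function.argmin_le N k
    set n0 := N k0 with hn0
    refine hmin n0 (fun k => if k < n0 then f k else g (k0 + (k - n0))) ?_ ?_ ⟨?_, ?_⟩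
    · intro m hm
      simp [hm]
    · have h1 : (if n0 < n0 then f n0 else g (k0 + (n0 - n0))) = g k0 := by simp
      change (if n0 < n0 then f n0 else g (k0 + (n0 - n0))).card < (f n0).card
      rw [h1]
      exact hN2 k0
    · intro n
      change (if n < n0 then f n else g (k0 + (n - n0))) ∈ S
      split_ifs with h
      · exact hfS n
      · exact fun x hx => hfS (N (k0 + (n - n0))) (hN1 _ hx)
    · intro m n hmn
      change ¬ r (if m < n0 then f m else g (k0 + (m - n0)))
        (if n < n0 then f n else g (k0 + (n - n0)))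
      split_ifs with h1 h2 h2
      · exact hfbad m n hmn
      · intro h
        exact hfbad m _ (lt_of_lt_of_le h1 (hk _))
          (RE.mono h (le_refl _) (Finset.coe_subset.2 (hN1 _)))
      · omega
      · exact hbad _ _ (by omega)
  have hne : ∀ n, (f n).Nonempty := by
    intro n
    rw [Finset.nonempty_iff_ne_empty]
    intro h0
    refine hfbad n (n + 1) (Nat.lt_succ_self n) ?_
    change RE M T (f n : Set V) (f (n + 1) : Set V)
    rw [h0]
    exact ⟨id, PE_id _, fun _ _ => rfl, fun y hy => by simp at hy⟩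
  -- only finitely many terms are disconnected
  have hdec : ∃ K, ∀ n, K ≤ n → Cn (Rel M δ (T ∪ (f n : Set V))) (f n : Set V) := by
    by_contra hno
    have hno' : ∀ N, ∃ n > N, ∃ R : Set V, R ⊆ (f n : Set V) ∧ R.Nonempty ∧
        (∀ x ∈ R, ∀ y ∈ (f n : Set V), Rel M δ (T ∪ (f n : Set V)) x y → y ∈ R) ∧
        R ≠ (f n : Set V) := by
      intro N
      by_contra h
      apply hno
      refine ⟨N + 1, fun n hn R h1 h2 h3 => ?_⟩
      by_contra h4
      exact h ⟨n, by omega, R, h1, h2, h3, h4⟩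
    obtain ⟨φ, hφ, hφ2⟩ := Nat.exists_strictMono_subsequence hno'
    choose R hR1 hR2 hR3 hR4 using hφ2
    set Y : ℕ → Finset V := fun n => (f (φ n)).filter (fun x => x ∈ R n) with hY
    set Y' : ℕ → Finset V := fun n => (f (φ n)).filter (fun x => x ∉ R n) with hY'
    have hYc : ∀ n, Y n ⊆ f (φ n) ∧ (Y n).card < (f (φ n)).card := by
      intro n
      refine ⟨Finset.filter_subset _ _, Finset.card_lt_card ?_⟩
      rw [Finset.ssubset_iff_of_subset (Finset.filter_subset _ _)]
      by_contra hcon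
      push Not at hcon
      apply hR4 n
      refine Set.Subset.antisymm (hR1 n) fun x hx => ?_
      have := hcon x hx
      exact (Finset.mem_filter.1 this).2
    have hY'c : ∀ n, Y' n ⊆ f (φ n) ∧ (Y' n).card < (f (φ n)).card := by
      intro n
      refine ⟨Finset.filter_subset _ _, Finset.card_lt_card ?_⟩
      rw [Finset.ssubset_iff_of_subset (Finset.filter_subset _ _)]
      obtain ⟨x, hx⟩ := hR2 n
      exact ⟨x, hR1 n hx, fun h => (Finset.mem_filter.1 h).2 hx⟩
    have hU : ∀ n, ((Y n : Set V) ∪ (Y' n : Set V)) = (f (φ n) : Set V) := by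
      intro n
      ext x
      simp only [hY, hY', Finset.coe_filter, Set.mem_union, Set.mem_ofPred_eq,
        Finset.mem_coe]
      tauto
    have hD : ∀ n, Disjoint (Y n : Set V) (Y' n : Set V) := by
      intro n
      rw [Set.disjoint_left]
      intro x hx hx'
      exact (Finset.mem_filter.1 hx').2 (Finset.mem_filter.1 hx).2
    have hN : ∀ n, ∀ x ∈ (Y n : Set V), ∀ y ∈ (Y' n : Set V),
        ¬ Rel M δ (T ∪ (f (φ n) : Set V)) x y := by
      intro n x hx y hy hxy
      exact (Finset.mem_filter.1 hy).2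
        (hR3 n x (Finset.mem_filter.1 hx).2 y (Finset.mem_filter.1 hy).1 hxy)
    have : IsTrans (Finset V) r := ⟨fun _ _ _ h1 h2 => RE.trans h1 h2⟩
    obtain ⟨g, hg⟩ := exists_increasing_or_nonincreasing_subseq r Y
    have hg1 : ∀ m n : ℕ, m < n → r (Y (g m)) (Y (g n)) := by
      rcases hg with hg | hg
      · exact hg
      · exfalso
        obtain ⟨m, n, hmn, h⟩ := hprop (fun n => Y (g n)) (fun n => ⟨φ (g n), hYc (g n)⟩)
        exact hg m n hmn h
    obtain ⟨m, n, hmn, h⟩ := hprop (fun n => Y' (g n)) (fun n => ⟨φ (g n), hY'c (g n)⟩)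
    refine hfbad (φ (g m)) (φ (g n)) (hφ (g.strictMono hmn)) ?_
    exact W17_glue hTP (hfS _) (hU (g m)) (hU (g n)) (hD _) (hD _) (hN _) (hN _)
      (hg1 m n hmn) h
  obtain ⟨K, hK⟩ := hdec
  exact ⟨fun n => f (K + n), fun n => hfS _, fun i j hij => hfbad _ _ (by omega),
    fun n => ⟨hne _, hK _ (by omega)⟩⟩

end Pool.Agent.Lib.MP_4fb322_lc_h21
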