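import Mathlib
import Pool.Agent.Lib.MP_4fb322_lc_h21.Basic
import Pool.Agent.Lib.MP_4fb322_lc_h21.W02
import Pool.Agent.Lib.MP_4fb322_lc_h21.W17

set_option autoImplicit false

/-!
# Row W18

Rooted well-quasi-order of the finite subsets of `N = Pᶜ`. PROOF. Otherwise `exists_bad_connected` gives
`Z`. COPIES: for `s : ℕ` let `i(s) = (Nat.unpair s).1`. Choose recursively shifts `f_s` (Core.shift) with
`f_s x ∉ P`, `f_s x ∉ E_s` for `x ∉ P`, where `E_s` is the finite set of all points `y ∉ P` whose piece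
number `pc y` occurs among `F ∪ ⋃ s' < s, f_{s'} '' Z (i(s'))`. Put `C s = f_s '' Z (i(s))`. Then: the
`C s` are pairwise disjoint, in different pieces, so not adjacent (piece), disjoint from `F`;
`RE M T (Z (i s)) (C s)` and `RE M T (C s) (Z (i s))` (inverse of `f_s` on `C s`; T ⊆ P is fixed), and
`C s` is again connected over `T`. Let `X k = (F \ T) ∪ ⋃ {C s | k ≤ i(s)}`: decreasing, contains
`F \ T`, disjoint from `T`. `wf_rooted` gives `k`. Let `m = (F \ T).ncard + 1` and take `m` different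
numbers `s` with `i(s) = k` (Nat.pair k n): `Y` = union of their `C s`, finite, inside `X k`; so there is a
rooted embedding `g` of `Y` into `X (k+1)`. By pigeonhole (injectivity) one `C s` has
`g '' C s ∩ (F \ T) = ∅`, so `g '' C s ⊆ ⋃ {C s' | k+1 ≤ i(s')}`; as `C s` is connected over `T`
(`Cn (Rel M δ (T ∪ C s)) (C s)`, transported by Rel.map; different `C s'` are not adjacent), its image
lies in a single `C s'`, `i(s') ≥ k+1`. Hence `RE M T (Z k) (Z (i s'))` with `k < i(s')`: contradiction.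
(About 200 lines.)
-/

namespace Pool.Agent.Lib.MP_4fb322_lc_h21

open Set Pool.Agent.Lib.MP_4fb322_lc_h70 Pool.Agent.Lib.MP_4fb322_lc_h91

variable {I : Type} {ar : I → ℕ} {V : Type}

private theorem w18_inv {M : (i : I) → Set (Fin (ar i) → V)} {T Z : Set V} {f : V → V}
    (hf : PE M Set.univ f) (hT : ∀ x ∈ T, f x = x) (hV : Nonempty V) :
    RE M T (f '' Z) Z := by
  have hinj : Function.Injective f := fun x y h => hf.1 (mem_univ x) (mem_univ y) h
  have hli : ∀ x, Function.invFun f (f x) = x := fun x => Function.leftInverse_invFun hinj x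
  have hTi : ∀ x ∈ T, Function.invFun f x = x := by
    intro x hx
    have := hli x
    rwa [hT x hx] at this
  have hr : ∀ y ∈ T ∪ f '' Z, f (Function.invFun f y) = y := by
    intro y hy
    rcases hy with hy | ⟨z, -, rfl⟩
    · rw [hTi y hy, hT y hy]
    · rw [hli z]
  refine ⟨Function.invFun f, ⟨fun x hx y hy h => ?_, fun i s hs => ?_⟩, hTi, ?_⟩
  · rw [← hr x hx, ← hr y hy, h]
  · have h1 : f ∘ (Function.invFun f ∘ s) = s := by
      funext l
      exact hr (s l) (hs l)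
    rw [hf.2 i (Function.invFun f ∘ s) (fun _ => mem_univ _), h1]
  · rintro y ⟨z, hz, rfl⟩
    rw [hli z]
    exact hz

private theorem w18_copies {M : (i : I) → Set (Fin (ar i) → V)} {P : Set V} {pc : V → ℕ}
    (hshift : ∀ X : Set V, X.Finite → ∃ f : V → V, PE M Set.univ f ∧ (∀ p ∈ P, f p = p) ∧
      ∀ x, x ∉ P → f x ∉ P ∧ f x ∉ X)
    (hpf : ∀ n : ℕ, {x | x ∉ P ∧ pc x = n}.Finite) {F : Set V} (hF : F.Finite)
    (Z : ℕ → Finset V) (hZ : ∀ n, (Z n : Set V) ⊆ Pᶜ) :
    ∃ f : ℕ → V → V, (∀ s, PE M Set.univ (f s)) ∧ (∀ s, ∀ p ∈ P, f s p = p) ∧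
      (∀ s, ∀ x ∈ Z s, f s x ∉ P ∧ f s x ∉ F) ∧
      ∀ s s', s ≠ s' → ∀ x ∈ Z s, ∀ y ∈ Z s', pc (f s x) ≠ pc (f s' y) := by
  classical
  have hfin : ∀ X : Set V, X.Finite → {y | y ∉ P ∧ ∃ x ∈ X, pc y = pc x}.Finite := by
    intro X hX
    refine (hX.biUnion fun x _ => hpf (pc x)).subset ?_
    rintro y ⟨hy, x, hx, hxy⟩
    exact mem_biUnion hx ⟨hy, hxy⟩
  let g : {X : Set V // X.Finite} → V → V := fun E => Classical.choose (hshift E.1 E.2)
  have hg : ∀ E : {X : Set V // X.Finite}, PE M Set.univ (g E) ∧ (∀ p ∈ P, g E p = p) ∧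
      ∀ x, x ∉ P → g E x ∉ P ∧ g E x ∉ E.1 := fun E => Classical.choose_spec (hshift E.1 E.2)
  let step : ℕ → {X : Set V // X.Finite} → {X : Set V // X.Finite} := fun n E =>
    ⟨E.1 ∪ {y | y ∉ P ∧ ∃ x ∈ g E '' (Z n : Set V), pc y = pc x},
      E.2.union (hfin _ ((Finset.finite_toSet (Z n)).image _))⟩
  let E : ℕ → {X : Set V // X.Finite} := fun n => Nat.rec
    ⟨F, hF⟩ (fun n E => step n E) n
  have hE0 : (E 0).1 = F := rfl
  have hES : ∀ n, (E (n + 1)).1 = (E n).1 ∪ {y | y ∉ P ∧ ∃ x ∈ g (E n) '' (Z n : Set V),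
    pc y = pc x} := fun n => rfl
  have hmono : ∀ m n, m ≤ n → (E m).1 ⊆ (E n).1 := by
    intro m n hmn
    induction n, hmn using Nat.le_induction with
    | base => exact Subset.rfl
    | succ n _ ih => exact ih.trans (by rw [hES]; exact subset_union_left)
  have hlt : ∀ s s', s < s' → ∀ x ∈ Z s, ∀ y ∈ Z s',
      pc (g (E s) x) ≠ pc (g (E s') y) := by
    intro s s' hss x hx y hy hpc
    have h1 := (hg (E s')).2.2 y (hZ s' hy)
    apply h1.2
    apply hmono (s + 1) s' hss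
    rw [hES]
    exact Or.inr ⟨h1.1, g (E s) x, ⟨x, hx, rfl⟩, hpc.symm⟩
  refine ⟨fun s => g (E s), fun s => (hg (E s)).1, fun s => (hg (E s)).2.1,
    fun s x hx => ?_, ?_⟩
  · have h1 := (hg (E s)).2.2 x (hZ s hx)
    exact ⟨h1.1, fun h => h1.2 (hmono 0 s (Nat.zero_le _) h)⟩
  · intro s s' hss x hx y hy hpc
    rcases lt_or_gt_of_ne hss with h | h
    · exact hlt s s' h x hx y hy hpc
    · exact hlt s' s h y hy x hx hpc.symm

theorem rooted_wqo {M : (i : I) → Set (Fin (ar i) → V)} {δ : I → Prop} {t : ℕ} {P : Set V}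
    {pc : V → ℕ} {a : ℕ → Finset V} (hC : Core M δ t P pc a) {T F : Set V} (hT : T.Finite)
    (hTF : T ⊆ F) (hF : F.Finite) (hTP : T ⊆ P)
    (hrec : ∀ f : V → V, PE M F f → f '' T = T) (Z : ℕ → Finset V)
    (hZ : ∀ n, (Z n : Set V) ⊆ Pᶜ) :
    ∃ i j, i < j ∧ RE M T (Z i : Set V) (Z j : Set V) := by
  classical
  by_contra hno
  push Not at hno
  obtain ⟨Y, hYP, hYbad, hYc⟩ := exists_bad_connected (δ := δ) hTP ⟨Z, hZ, hno⟩
  obtain ⟨f, hf, hfP, hfZ, hfpc⟩ := w18_copies hC.shift hC.piece_fin hF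
    (fun s => Y (Nat.unpair s).1) (fun s => hYP _)
  set C : ℕ → Set V := fun s => f s '' (Y (Nat.unpair s).1 : Set V) with hCdef
  have hCfin : ∀ s, (C s).Finite := fun s => (Finset.finite_toSet _).image _
  have hCP : ∀ s, ∀ x ∈ C s, x ∉ P := by
    rintro s x ⟨z, hz, rfl⟩
    exact (hfZ s z hz).1
  have hCF : ∀ s, ∀ x ∈ C s, x ∉ F := by
    rintro s x ⟨z, hz, rfl⟩
    exact (hfZ s z hz).2
  have hCpc : ∀ s s', ∀ x ∈ C s, ∀ y ∈ C s', pc x = pc y → s = s' := by
    rintro s s' x ⟨z, hz, rfl⟩ y ⟨w, hw, rfl⟩ h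
    by_contra hss
    exact hfpc s s' hss z hz w hw h
  set X : ℕ → Set V := fun k => (F \ T) ∪ ⋃ s ∈ {s : ℕ | k ≤ (Nat.unpair s).1}, C s with hX
  have hXmem : ∀ k x, x ∈ X k ↔ (x ∈ F ∧ x ∉ T) ∨ ∃ s, k ≤ (Nat.unpair s).1 ∧ x ∈ C s := by
    intro k x
    simp only [hX, mem_union, mem_sdiff, mem_iUnion, mem_ofPred_eq, exists_prop]
  obtain ⟨k, hk⟩ := wf_rooted (T := T) (F := F) hC.wf hT hTF hF hrec X
    (fun n x hx => by
      rw [hXmem] at hx ⊢
      rcases hx with h | ⟨s, hs, hx⟩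
      · exact Or.inl h
      · exact Or.inr ⟨s, by omega, hx⟩)
    (fun n x hx => by
      rw [hXmem]
      exact Or.inl hx)
    (fun n => by
      rw [Set.disjoint_left]
      intro x hx hxT
      rw [hXmem] at hx
      rcases hx with h | ⟨s, -, hx⟩
      · exact h.2 hxT
      · exact hCP s x hx (hTP hxT))
  set m := (F \ T).ncard + 1 with hm
  obtain ⟨g, hg, hgT, hgX⟩ := hk (⋃ n ∈ Finset.range m, C (Nat.pair k n))
    ((Finset.range m).finite_toSet.biUnion fun n _ => hCfin _)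
    (fun x hx => by
      simp only [mem_iUnion, exists_prop] at hx
      obtain ⟨n, -, hx⟩ := hx
      rw [hXmem]
      refine Or.inr ⟨_, ?_, hx⟩
      simp)
  -- pigeonhole
  have hpig : ∃ n, n < m ∧ ∀ x ∈ C (Nat.pair k n), g x ∉ F \ T := by
    by_contra hcon
    push Not at hcon
    have : Nonempty V := ⟨(hYc 0).1.choose⟩
    choose! x hxC hxF using hcon
    have h1 : Set.MapsTo (fun n => g (x n)) (Finset.range m : Set ℕ) (F \ T) := by
      intro n hn
      exact hxF n (by simpa using hn)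
    have h2 : Set.InjOn (fun n => g (x n)) (Finset.range m : Set ℕ) := by
      intro n hn n' hn' h
      have hn1 : n < m := by simpa using hn
      have hn2 : n' < m := by simpa using hn'
      have h3 : x n = x n' := by
        apply hg.1 _ _ h
        · refine Or.inr ?_
          simp only [mem_iUnion, exists_prop]
          exact ⟨n, by simpa using hn1, hxC n hn1⟩
        · refine Or.inr ?_
          simp only [mem_iUnion, exists_prop]
          exact ⟨n', by simpa using hn2, hxC n' hn2⟩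
      have h4 := hCpc _ _ _ (hxC n hn1) _ (hxC n' hn2) (by rw [h3])
      have h5 := congrArg (fun s => (Nat.unpair s).2) h4
      simpa using h5
    have h3 := Set.ncard_le_ncard_of_injOn _ h1 h2 (hF.subset sdiff_subset)
    rw [Set.ncard_coe_finset, Finset.card_range] at h3
    omega
  obtain ⟨n, hnm, hn⟩ := hpig
  have huk : (Nat.unpair (Nat.pair k n)).1 = k := by simp
  have hCk : C (Nat.pair k n) = f (Nat.pair k n) '' (Y k : Set V) := by
    rw [hCdef]
    simp only [huk]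
  have hCsub : C (Nat.pair k n) ⊆ ⋃ n ∈ Finset.range m, C (Nat.pair k n) := by
    intro x hx
    simp only [mem_iUnion, exists_prop]
    exact ⟨n, by simpa using hnm, hx⟩
  set φ := f (Nat.pair k n) with hφ
  have hφC : ∀ z ∈ Y k, φ z ∈ C (Nat.pair k n) := by
    intro z hz
    rw [hCk]
    exact ⟨z, hz, rfl⟩
  have hgC : ∀ z ∈ Y k, ∃ s, k + 1 ≤ (Nat.unpair s).1 ∧ g (φ z) ∈ C s := by
    intro z hz
    have h1 := hgX (φ z) (hCsub (hφC z hz))
    rw [hXmem] at h1
    rcases h1 with h1 | h1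
    · exact absurd h1 (hn _ (hφC z hz))
    · exact h1
  have hh : PE M (T ∪ (Y k : Set V)) (g ∘ φ) := by
    refine PE_comp (PE_mono (hf _) (subset_univ _)) hg ?_
    intro y hy
    rcases hy with hy | hy
    · left
      rw [hφ, hfP _ y (hTP hy)]
      exact hy
    · exact Or.inr (hCsub (hφC y hy))
  obtain ⟨⟨z0, hz0⟩, hcn⟩ := hYc k
  obtain ⟨s', hs', hgs'⟩ := hgC z0 hz0
  have hR := hcn {z | z ∈ Y k ∧ g (φ z) ∈ C s'} (fun z hz => hz.1) ⟨z0, hz0, hgs'⟩ (by
    rintro z ⟨hz, hzs⟩ w hw hzw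
    refine ⟨hw, ?_⟩
    obtain ⟨s'', -, hws⟩ := hgC w hw
    have h1 := (Rel.map hh hzw).adj
    have h2 := hC.piece _ (hCP _ _ hzs) _ (hCP _ _ hws) h1
    rw [hCpc _ _ _ hzs _ hws h2]
    exact hws)
  have hfinal : RE M T (Y k : Set V) (C s') := by
    refine ⟨g ∘ φ, hh, fun x hx => ?_, fun z hz => ?_⟩
    · rw [Function.comp_apply, hφ, hfP _ x (hTP hx), hgT x hx]
    · rw [← hR] at hz
      exact hz.2
  have hinv : RE M T (C s') (Y (Nat.unpair s').1 : Set V) :=
    w18_inv (hf s') (fun x hx => hfP s' x (hTP hx)) ⟨z0⟩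
  exact hYbad k _ (by omega) (hfinal.trans hinv)

end Pool.Agent.Lib.MP_4fb322_lc_h21
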