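import Mathlib
import Pool.Agent.Lib.MP_4fb322_lc_h21.Basic
import Pool.Agent.Lib.MP_4fb322_lc_h21.W01
import Pool.Agent.Lib.MP_4fb322_lc_h21.W15
import Pool.Agent.Lib.MP_4fb322_lc_h21.W18

set_option autoImplicit false

/-!
# Row W19

The contradiction. PROOF. `T1 = {x | InfDeg x}` finite (fin_infDeg), inside `P` (n_fin_deg); `recog` gives
`T ⊇ T1`, `F` (hnon as in W15). (a) Every `p ∈ P` lies in `a j` for all large `j`: otherwise
`VE M (a j) {p}ᶜ` (identity) for infinitely many `j`, so by `Core.min` every finite `Y` embeds into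
`{p}ᶜ`, contradicting `Core.pin`. (b) Let `A j = a j ∩ P`, `B j = a j \ P`. Choose a strictly increasing
sequence `j_0 < j_1 < ...` with `T ⊆ A j_0` and `A j_n ⊆ A j_{n+1}` (the finite set `A j_n` is contained
in `a j` for all large `j`). (c) `rooted_wqo` for `Z n = B j_n`: `m < n` and a rooted embedding `g` of
`B j_m` into `B j_n`. (d) Map: `id` on `A j_m`, `g` on `B j_m`: an embedding of `a j_m` into `a j_n`:
use glue_rooted with `Y1 = A j_m \ T`, `f = id`, `Y2 = B j_m`, and no adjacency between `Y1` and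
points outside `P`: a pin outside `T` has finite degree, so by light_nonadj it is not adjacent to
any point outside `P`. So VE M (a j_m) (a j_n) with `j_m ≠ j_n`: contradiction to `Core.anti`.
-/

namespace Pool.Agent.Lib.MP_4fb322_lc_h21

open Set Pool.Agent.Lib.MP_4fb322_lc_h70 Pool.Agent.Lib.MP_4fb322_lc_h91

variable {I : Type} {ar : I → ℕ} {V : Type}

private theorem w19_nonpin {M : (i : I) → Set (Fin (ar i) → V)} {δ : I → Prop}
    {t : ℕ} {P : Set V} {pc : V → ℕ} {a : ℕ → Finset V} (hC : Core M δ t P pc a) {x : V}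
    (hx : x ∉ P) (Y : Set V) : VE M Y {x}ᶜ := by
  obtain ⟨f, hf, hfP, hfx⟩ := hC.shift {x} (Set.finite_singleton x)
  refine ⟨f, PE_mono hf (Set.subset_univ _), fun y _ => ?_⟩
  by_cases hyP : y ∈ P
  · rw [hfP y hyP]
    intro h
    rw [Set.mem_singleton_iff] at h
    exact hx (h ▸ hyP)
  · exact (hfx y hyP).2

private theorem w19_event {M : (i : I) → Set (Fin (ar i) → V)} {δ : I → Prop}
    {t : ℕ} {P : Set V} {pc : V → ℕ} {a : ℕ → Finset V} (hC : Core M δ t P pc a) {p : V}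
    (hp : p ∈ P) : ∃ n, ∀ j, n ≤ j → p ∈ a j := by
  by_contra hno
  push Not at hno
  obtain ⟨Y, hY, hYp⟩ := hC.pin p hp
  apply hYp
  apply hC.min {p}ᶜ _ Y hY
  intro n
  obtain ⟨j, hj, hpj⟩ := hno n
  refine ⟨j, hj, id, PE_id _, fun y hy h => hpj ?_⟩
  have h' : y = p := h
  rw [← h']
  exact hy

private theorem w19_event_fin {M : (i : I) → Set (Fin (ar i) → V)} {δ : I → Prop}
    {t : ℕ} {P : Set V} {pc : V → ℕ} {a : ℕ → Finset V} (hC : Core M δ t P pc a)
    {S : Set V} (hS : S.Finite) : S ⊆ P → ∃ n, ∀ j, n ≤ j → ∀ x ∈ S, x ∈ a j := by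
  refine Set.Finite.induction_on (motive := fun S _ => S ⊆ P → ∃ n, ∀ j, n ≤ j →
    ∀ x ∈ S, x ∈ a j) S hS ?_ ?_
  · intro _
    exact ⟨0, fun j _ x hx => absurd hx (Set.notMem_empty x)⟩
  · intro y S' _ _ ih hS'
    obtain ⟨n, hn⟩ := ih fun x hx => hS' (Set.mem_insert_of_mem _ hx)
    obtain ⟨m, hm⟩ := w19_event hC (hS' (Set.mem_insert y S'))
    refine ⟨max n m, fun j hj x hx => ?_⟩
    rcases Set.mem_insert_iff.1 hx with rfl | hx
    · exact hm j (le_trans (le_max_right _ _) hj)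
    · exact hn j (le_trans (le_max_left _ _) hj) x hx

theorem core_false (har : ∀ i, ar i ≤ 2) {M : (i : I) → Set (Fin (ar i) → V)} {δ : I → Prop}
    {t : ℕ} {P : Set V} {pc : V → ℕ} {a : ℕ → Finset V} (hC : Core M δ t P pc a) : False := by
  classical
  have hT1 := fin_infDeg har hC
  have hT1P : {x | InfDeg (Adj M δ) x} ⊆ P := by
    intro x hx
    by_contra hxP
    exact n_fin_deg hC hxP hx
  obtain ⟨T, F, hT, hF, hT1T, hTP, hTF, hrec⟩ :=
    recog hC.pin (fun x hx Y _ => w19_nonpin hC hx Y) hT1 hT1P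
  obtain ⟨n0, hn0⟩ := w19_event_fin hC hT hTP
  -- the next index
  have hnext : ∀ j, ∃ k, j < k ∧ ∀ j', k ≤ j' → ∀ x ∈ a j, x ∈ P → x ∈ a j' := by
    intro j
    have hfin : {x | x ∈ a j ∧ x ∈ P}.Finite :=
      (Finset.finite_toSet (a j)).subset fun x hx => hx.1
    obtain ⟨n, hn⟩ := w19_event_fin hC hfin fun x hx => hx.2
    exact ⟨max n (j + 1), lt_of_lt_of_le (Nat.lt_succ_self j) (le_max_right _ _),
      fun j' hj' x hx hxP => hn j' (le_trans (le_max_left _ _) hj') x ⟨hx, hxP⟩⟩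
  choose next hlt hnx using hnext
  set J : ℕ → ℕ := fun n => Nat.rec n0 (fun _ j => next j) n with hJ
  have hJ0 : J 0 = n0 := rfl
  have hJs : ∀ n, J (n + 1) = next (J n) := fun n => rfl
  have hJmono : StrictMono J := by
    apply strictMono_nat_of_lt_succ
    intro n
    rw [hJs]
    exact hlt _
  have hJn0 : ∀ n, n0 ≤ J n := by
    intro n
    rw [← hJ0]
    exact hJmono.monotone (Nat.zero_le n)
  have hJP : ∀ m n, m < n → ∀ x ∈ a (J m), x ∈ P → x ∈ a (J n) := by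
    intro m n hmn x hx hxP
    refine hnx (J m) (J n) ?_ x hx hxP
    rw [← hJs]
    exact hJmono.monotone hmn
  obtain ⟨m, n, hmn, g, hg, hgT, hgZ⟩ := rooted_wqo hC hT hTF hF hTP hrec
    (fun n => (a (J n)).filter fun x => x ∉ P) (by
      intro n x hx
      exact (Finset.mem_filter.1 (Finset.mem_coe.1 hx)).2)
  -- pins outside `T` are not adjacent to points outside `P`
  have hna : ∀ x, x ∈ P → x ∉ T → ∀ y, y ∉ P → ¬ Adj M δ x y := by
    intro x hxP hxT y hyP hxy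
    exact hxT (hT1T (light_nonadj hC hxP hyP hxy))
  have hgm : ∀ y, y ∈ a (J m) → y ∉ P → g y ∈ a (J n) ∧ g y ∉ P := by
    intro y hy hyP
    have h1 := hgZ y (Finset.mem_coe.2 (Finset.mem_filter.2 ⟨hy, hyP⟩))
    exact Finset.mem_filter.1 (Finset.mem_coe.1 h1)
  obtain ⟨h, hh, hhT, hh1, hh2⟩ := glue_rooted (δ := δ) (T := T)
    (Y1 := {x | x ∈ a (J m) ∧ x ∈ P ∧ x ∉ T})
    (Y2 := (((a (J m)).filter fun x => x ∉ P : Finset V) : Set V)) (f := id) (g := g)
    (PE_id _) (fun _ _ => rfl) hg hgT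
    (by
      rw [Set.disjoint_left]
      rintro x ⟨_, hxP, _⟩ hx
      exact (Finset.mem_filter.1 (Finset.mem_coe.1 hx)).2 hxP)
    (by
      rw [Set.disjoint_left]
      rintro x hxT ⟨_, _, hx⟩
      exact hx hxT)
    (by
      rw [Set.disjoint_left]
      intro x hxT hx
      exact (Finset.mem_filter.1 (Finset.mem_coe.1 hx)).2 (hTP hxT))
    (by
      rintro x ⟨_, hxP, hxT⟩ y hy hR
      exact hna x hxP hxT y (Finset.mem_filter.1 (Finset.mem_coe.1 hy)).2 hR.adj)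
    (by
      rintro x ⟨_, hxP, hxT⟩ y hy
      obtain ⟨hy1, hy2⟩ := Finset.mem_filter.1 (Finset.mem_coe.1 hy)
      obtain ⟨_, hgP⟩ := hgm y hy1 hy2
      refine ⟨fun e => hgP ?_, fun hR => hna x hxP hxT (g y) hgP hR.adj⟩
      rw [← e]
      exact hxP)
  apply hC.anti (J m) (J n) (ne_of_lt (hJmono hmn))
  refine ⟨h, PE_mono hh ?_, ?_⟩
  · intro x hx
    by_cases hxT : x ∈ T
    · exact Or.inl hxT
    by_cases hxP : x ∈ P
    · exact Or.inr (Or.inl ⟨hx, hxP, hxT⟩)
    · exact Or.inr (Or.inr (Finset.mem_coe.2 (Finset.mem_filter.2 ⟨hx, hxP⟩)))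
  · intro x hx
    by_cases hxT : x ∈ T
    · rw [hhT x hxT]
      exact hn0 _ (hJn0 n) x hxT
    by_cases hxP : x ∈ P
    · rw [hh1 x ⟨hx, hxP, hxT⟩]
      exact hJP m n hmn x hx hxP
    · rw [hh2 x (Finset.mem_coe.2 (Finset.mem_filter.2 ⟨hx, hxP⟩))]
      exact (hgm x hx hxP).1

end Pool.Agent.Lib.MP_4fb322_lc_h21
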