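import Mathlib
import Pool.Agent.Lib.MP_4fb322_lc_h21.Basic

set_option autoImplicit false

/-!
# Row W20

A minimal age which is not wqo. PROOF. If no such minimal one exists then every non-wqo sub-age `ℬ` of `𝒜`
contains a strictly smaller non-wqo age; iterate (choice, Nat.rec on the subtype) to contradict
SubagesWF.
-/

namespace Pool.Agent.Lib.MP_4fb322_lc_h21

open Set Pool.Agent.Lib.MP_4fb322_lc_h70 Pool.Agent.Lib.MP_4fb322_lc_h91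

variable {I : Type} {ar : I → ℕ} {V : Type}

theorem exists_min_age {𝒜 : Set (Str ar)} (h𝒜 : IsAge 𝒜) (hwf : SubagesWF 𝒜)
    (hna : ¬ NoAntichain 𝒜) :
    ∃ ℬ : Set (Str ar), ℬ ⊆ 𝒜 ∧ IsAge ℬ ∧ ¬ NoAntichain ℬ ∧
      ∀ 𝒞 : Set (Str ar), 𝒞 ⊆ ℬ → IsAge 𝒞 → ¬ NoAntichain 𝒞 → 𝒞 = ℬ := by
  by_contra hno
  push Not at hno
  let S := {ℬ : Set (Str ar) // ℬ ⊆ 𝒜 ∧ IsAge ℬ ∧ ¬ NoAntichain ℬ}
  have hstep : ∀ ℬ : S, ∃ 𝒞 : S, 𝒞.1 ⊂ ℬ.1 := by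
    rintro ⟨ℬ, h1, h2, h3⟩
    obtain ⟨𝒞, h4, h5, h6, h7⟩ := hno ℬ h1 h2 h3
    exact ⟨⟨𝒞, h4.trans h1, h5, h6⟩, Set.ssubset_iff_subset_ne.2 ⟨h4, h7⟩⟩
  choose g hg using hstep
  let D : ℕ → S := fun n => Nat.rec ⟨𝒜, subset_rfl, h𝒜, hna⟩ (fun _ ℬ => g ℬ) n
  exact hwf ⟨fun n => (D n).1, fun k => ⟨(D k).2.1, (D k).2.2.1⟩, fun k => hg (D k)⟩

end Pool.Agent.Lib.MP_4fb322_lc_h21
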