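import Mathlib
import Pool.Agent.Lib.MP_4fb322_lc_h21.Basic

set_option autoImplicit false

/-!
# Row W22

Fusion. PROOF. `Y 0 = X`, `Y (n+1) = Y n \ {n}` if `Q (Y n \ {n})`, else `Y n` (classical). All `Y n`
satisfy `Q`. `P = {n | n ∈ X ∧ ¬ Q (Y n \ {n})}`. A point `x` can only be removed at step `x`, so
`x ∈ P` implies `x ∈ Y k` for all `k`; if `x ∉ P` then `x ∉ X` or it is removed at step `x`.
-/

namespace Pool.Agent.Lib.MP_4fb322_lc_h21

open Set Pool.Agent.Lib.MP_4fb322_lc_h70 Pool.Agent.Lib.MP_4fb322_lc_h91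

variable {I : Type} {ar : I → ℕ} {V : Type}

theorem fusion (Q : Set ℕ → Prop) {X : Set ℕ} (hX : Q X) :
    ∃ (Y : ℕ → Set ℕ) (P : Set ℕ), (∀ k, Q (Y k)) ∧ (∀ k l, k ≤ l → Y l ⊆ Y k) ∧
      (∀ k, P ⊆ Y k) ∧ (∀ x, x ∉ P → ∀ k, x < k → x ∉ Y k) ∧ ∀ p ∈ P, ¬ Q (Y p \ {p}) := by
  classical
  let Y : ℕ → Set ℕ := fun n => Nat.rec X (fun n Z => if Q (Z \ {n}) then Z \ {n} else Z) n
  have h0 : Y 0 = X := rfl
  have hs : ∀ n, Y (n + 1) = if Q (Y n \ {n}) then Y n \ {n} else Y n := fun n => rfl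
  have hQ : ∀ k, Q (Y k) := by
    intro k
    induction k with
    | zero => exact hX
    | succ k ih =>
      rw [hs k]
      by_cases h : Q (Y k \ {k})
      · rw [if_pos h]; exact h
      · rw [if_neg h]; exact ih
  have hsub : ∀ k, Y (k + 1) ⊆ Y k := by
    intro k
    rw [hs k]
    by_cases h : Q (Y k \ {k})
    · rw [if_pos h]; exact Set.sdiff_subset
    · rw [if_neg h]
  have hanti : ∀ k l, k ≤ l → Y l ⊆ Y k := by
    intro k l hkl
    induction l, hkl using Nat.le_induction with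
    | base => exact le_rfl
    | succ l _ ih => exact (hsub l).trans ih
  have hkeep : ∀ x k, x ≠ k → x ∈ Y k → x ∈ Y (k + 1) := by
    intro x k hxk hx
    rw [hs k]
    by_cases h : Q (Y k \ {k})
    · rw [if_pos h]; exact ⟨hx, hxk⟩
    · rw [if_neg h]; exact hx
  have hbefore : ∀ x, x ∈ X → ∀ k, k ≤ x → x ∈ Y k := by
    intro x hx k
    induction k with
    | zero => intro _; exact hx
    | succ k ih => intro hk; exact hkeep x k (by omega) (ih (by omega))
  refine ⟨Y, {n | n ∈ X ∧ ¬ Q (Y n \ {n})}, hQ, hanti, ?_, ?_, fun p hp => hp.2⟩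
  · rintro k x ⟨hx, hxQ⟩
    have hx1 : x ∈ Y (x + 1) := by
      rw [hs x, if_neg hxQ]
      exact hbefore x hx x le_rfl
    by_cases hk : k ≤ x
    · exact hbefore x hx k hk
    · have hk' : x + 1 ≤ k := by omega
      induction k, hk' using Nat.le_induction with
      | base => exact hx1
      | succ k hk2 ih => exact hkeep x k (by omega) (ih (by omega))
  · intro x hxP k hk hxk
    have hx1 : x ∈ Y (x + 1) := hanti (x + 1) k hk hxk
    have hxX : x ∈ X := hanti 0 k (Nat.zero_le _) hxk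
    by_cases h : Q (Y x \ {x})
    · rw [hs x, if_pos h] at hx1
      exact hx1.2 rfl
    · exact hxP ⟨hxX, h⟩

end Pool.Agent.Lib.MP_4fb322_lc_h21
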