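import Mathlib
import Pool.Agent.Lib.MP_4fb322_lc_h21.Basic
import Pool.Agent.Lib.MP_4fb322_lc_h21.W11

set_option autoImplicit false

/-!
# Row W23

Finite parts of the limit structure are realised in `M₀`. PROOF. List the finitely many pieces
`g_0, ..., g_{m-1} : ℕ × ℕ` occurring in `S` (values `some g` of `grp`). Use `generic` (W11) with `α = ℕ`,
filter `U`, to choose times `k_0, ..., k_{m-1}`: `S i k`: `K ≤ k` (U is contained in the cofinite filter:
hU); for all `x ∈ S` in piece `g_i`: `real ψ k x ∉ B`, `real ψ k x ≠ q` for all pins `q ∈ S` (hinf); for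
all `i' : I` and all tuples `s` with entries in `S`, all entries pins or in piece `g_i`:
`(real ψ k ∘ s ∈ M₀ i') ↔ s ∈ LM ...` (finitely many pairs (i', s); for OneGrp s membership in LM is
`∀ᶠ`, and for an ultrafilter either `∀ᶠ k, P k` or `∀ᶠ k, ¬ P k`). `R i j k k'`: for all `x ∈ S` in piece
`g_i` and `y ∈ S` in piece `g_j`: `real ψ k x ≠ real ψ k' y` and not adjacent in `M₀` (`ev_nonadj` with
hinf and sparseness). Define `h x = real ψ k_i x` for `x` in piece `g_i` and `h (inl p) = p` (pins alone: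
if `m = 0` use any single time for the tuples consisting of pins; it is convenient to add one dummy
piece). Tuples which are not OneGrp contain `x ∈ g_i`, `y ∈ g_j`, `i ≠ j`: membership in `LM` is `δ`, and
`h x ≠ h y` not adjacent gives `h ∘ s ∈ M₀ i' ↔ δ i'`. Injectivity on `S`: inside one piece by hinj
(`ψ j k` is injective), pins by definition, mixed by the choices. (About 250 lines.)
-/

namespace Pool.Agent.Lib.MP_4fb322_lc_h21

open Set Pool.Agent.Lib.MP_4fb322_lc_h70 Pool.Agent.Lib.MP_4fb322_lc_h91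

variable {I : Type} {ar : I → ℕ} {V : Type}

private theorem W23_real_inr {P : Set ℕ} {E : ℕ → Type} (ψ : (j : ℕ) → ℕ → E j → ℕ) (k : ℕ)
    (j n : ℕ) (e : E j) : real (P := P) ψ k (Sum.inr ⟨j, n, e⟩) = ψ j k e := rfl

private theorem W23_eventually_iff (U : Ultrafilter ℕ) (p : ℕ → Prop) :
    ∀ᶠ k in (U : Filter ℕ), ((∀ᶠ k' in (U : Filter ℕ), p k') ↔ p k) := by
  by_cases h : ∀ᶠ k' in (U : Filter ℕ), p k'
  · filter_upwards [h] with k hk
    exact ⟨fun _ => hk, fun _ => h⟩
  · have h2 : ∀ᶠ k' in (U : Filter ℕ), ¬ p k' := Ultrafilter.eventually_not.2 h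
    filter_upwards [h2] with k hk
    exact ⟨fun g => absurd g h, fun g => absurd g hk⟩

/-- a vertex which is not a pin goes to infinity -/
private theorem W23_inf {U : Ultrafilter ℕ} {P : Set ℕ} {E : ℕ → Type}
    {ψ : (j : ℕ) → ℕ → E j → ℕ} (hinf : ∀ j e x, ∀ᶠ k in (U : Filter ℕ), ψ j k e ≠ x)
    {x : LV P E} (hx : grp x ≠ none) (y : ℕ) : ∀ᶠ k in (U : Filter ℕ), real ψ k x ≠ y := by
  rcases x with p | ⟨j, n, e⟩
  · exact absurd rfl hx
  · exact hinf j e y

private theorem W23_pin {P : Set ℕ} {E : ℕ → Type} {ψ : (j : ℕ) → ℕ → E j → ℕ} {x : LV P E}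
    (hx : grp x = none) (k k' : ℕ) : real ψ k x = real ψ k' x := by
  rcases x with p | ⟨j, n, e⟩
  · rfl
  · exact absurd hx (by simp [grp])

/-- the good times -/
private def W23_Good (M₀ : (i : I) → Set (Fin (ar i) → ℕ)) (U : Ultrafilter ℕ) {P : Set ℕ}
    {E : ℕ → Type} (ψ : (j : ℕ) → ℕ → E j → ℕ) (S : Finset (LV P E)) (K : ℕ) (B : Set ℕ)
    (k : ℕ) : Prop :=
  K ≤ k ∧ (∀ x ∈ S, grp x ≠ none → (∀ b ∈ B, real ψ k x ≠ b) ∧
    ∀ q ∈ S, grp q = none → real ψ k x ≠ real ψ 0 q) ∧
  ∀ (i : I) (s : Fin (ar i) → {x // x ∈ S}),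
    ((∀ᶠ k' in (U : Filter ℕ), (real ψ k' ∘ fun l => (s l).1) ∈ M₀ i) ↔
      (real ψ k ∘ fun l => (s l).1) ∈ M₀ i)

private theorem W23_good [Finite I] {M₀ : (i : I) → Set (Fin (ar i) → ℕ)} (U : Ultrafilter ℕ)
    (hU : (U : Filter ℕ) ≤ Filter.cofinite) {P : Set ℕ} {E : ℕ → Type}
    {ψ : (j : ℕ) → ℕ → E j → ℕ} (hinf : ∀ j e x, ∀ᶠ k in (U : Filter ℕ), ψ j k e ≠ x)
    (S : Finset (LV P E)) (K : ℕ) (B : Set ℕ) (hB : B.Finite) :
    ∀ᶠ k in (U : Filter ℕ), W23_Good M₀ U ψ S K B k := by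
  have h1 : ∀ᶠ k in (U : Filter ℕ), K ≤ k := by
    refine Filter.Eventually.filter_mono hU ?_
    rw [Nat.cofinite_eq_atTop]
    exact Filter.eventually_ge_atTop K
  have h2 : ∀ᶠ k in (U : Filter ℕ), ∀ x ∈ S, grp x ≠ none → (∀ b ∈ B, real ψ k x ≠ b) ∧
      ∀ q ∈ S, grp q = none → real ψ k x ≠ real ψ 0 q := by
    rw [Filter.eventually_all_finset]
    intro x _
    by_cases hx : grp x = none
    · exact Filter.Eventually.of_forall fun k h => absurd hx h
    · have h3 : ∀ᶠ k in (U : Filter ℕ), ∀ b ∈ B, real ψ k x ≠ b :=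
        (Filter.eventually_all_finite hB).2 fun b _ => W23_inf hinf hx b
      have h4 : ∀ᶠ k in (U : Filter ℕ), ∀ q ∈ S, grp q = none → real ψ k x ≠ real ψ 0 q := by
        rw [Filter.eventually_all_finset]
        intro q _
        filter_upwards [W23_inf hinf hx (real ψ 0 q)] with k hk _ using hk
      filter_upwards [h3, h4] with k hk hk' _ using ⟨hk, hk'⟩
  have h3 : ∀ᶠ k in (U : Filter ℕ), ∀ (i : I) (s : Fin (ar i) → {x // x ∈ S}),
      ((∀ᶠ k' in (U : Filter ℕ), (real ψ k' ∘ fun l => (s l).1) ∈ M₀ i) ↔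
        (real ψ k ∘ fun l => (s l).1) ∈ M₀ i) := by
    rw [Filter.eventually_all]
    intro i
    rw [Filter.eventually_all]
    intro s
    exact W23_eventually_iff U _
  filter_upwards [h1, h2, h3] with k a b c using ⟨a, b, c⟩

/-- two times which are good for each other -/
private def W23_Rel (M₀ : (i : I) → Set (Fin (ar i) → ℕ)) (δ : I → Prop) {P : Set ℕ}
    {E : ℕ → Type} (ψ : (j : ℕ) → ℕ → E j → ℕ) (S : Finset (LV P E)) (k k' : ℕ) : Prop :=
  ∀ x ∈ S, ∀ y ∈ S, grp x ≠ none → grp y ≠ none →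
    real ψ k x ≠ real ψ k' y ∧ ¬ Adj M₀ δ (real ψ k x) (real ψ k' y)

private theorem W23_rel {M₀ : (i : I) → Set (Fin (ar i) → ℕ)} {δ : I → Prop} {t : ℕ}
    (hK : ¬ HasBiclique M₀ δ t) (U : Ultrafilter ℕ) {P : Set ℕ} {E : ℕ → Type}
    {ψ : (j : ℕ) → ℕ → E j → ℕ} (hinf : ∀ j e x, ∀ᶠ k in (U : Filter ℕ), ψ j k e ≠ x)
    (S : Finset (LV P E)) :
    ∀ᶠ k in (U : Filter ℕ), ∀ᶠ k' in (U : Filter ℕ), W23_Rel M₀ δ ψ S k k' := by
  have h2 : ∀ᶠ k in (U : Filter ℕ), ∀ x ∈ S, ∀ y ∈ S, ∀ᶠ k' in (U : Filter ℕ),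
      (grp x ≠ none → grp y ≠ none →
        real ψ k x ≠ real ψ k' y ∧ ¬ Adj M₀ δ (real ψ k x) (real ψ k' y)) := by
    rw [Filter.eventually_all_finset]
    intro x _
    rw [Filter.eventually_all_finset]
    intro y _
    by_cases hx : grp x = none
    · exact Filter.Eventually.of_forall fun k => Filter.Eventually.of_forall fun k' h =>
        absurd hx h
    · by_cases hy : grp y = none
      · exact Filter.Eventually.of_forall fun k => Filter.Eventually.of_forall fun k' _ h =>
          absurd hy h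
      · have := ev_nonadj (sparse_adj hK) U U (fun k => real ψ k x) (fun k => real ψ k y)
          (W23_inf hinf hx) (W23_inf hinf hy)
        filter_upwards [this] with k hk
        filter_upwards [hk] with k' hk' _ _ using hk'
  filter_upwards [h2] with k hk
  unfold W23_Rel
  rw [Filter.eventually_all_finset]
  intro x hx
  rw [Filter.eventually_all_finset]
  intro y hy
  exact hk x hx y hy

/-- a tuple which is not in one piece meets two pieces -/
private theorem W23_two {P : Set ℕ} {E : ℕ → Type} {n : ℕ} {s : Fin n → LV P E}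
    (h : ¬ OneGrp s) : ∃ l l' g g', grp (s l) = some g ∧ grp (s l') = some g' ∧ g ≠ g' := by
  by_contra hno
  push Not at hno
  apply h
  by_cases h1 : ∃ l g, grp (s l) = some g
  · obtain ⟨l, g, hl⟩ := h1
    refine ⟨g, fun l' => ?_⟩
    rcases hg : grp (s l') with _ | g'
    · exact Or.inl rfl
    · right
      rw [hno l l' g g' hl hg]
  · push Not at h1
    refine ⟨(0, 0), fun l' => ?_⟩
    rcases hg : grp (s l') with _ | g'
    · exact Or.inl rfl
    · exact absurd hg (h1 l' g')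

theorem LM_realize [Finite I] {M₀ : (i : I) → Set (Fin (ar i) → ℕ)} {δ : I → Prop} {t : ℕ}
    (hK : ¬ HasBiclique M₀ δ t) (U : Ultrafilter ℕ) (hU : (U : Filter ℕ) ≤ Filter.cofinite)
    {P : Set ℕ} {E : ℕ → Type} [∀ j, Finite (E j)] (ψ : (j : ℕ) → ℕ → E j → ℕ)
    (hinj : ∀ j k, Function.Injective (ψ j k))
    (hinf : ∀ j e x, ∀ᶠ k in (U : Filter ℕ), ψ j k e ≠ x)
    (Y : ℕ → Set ℕ) (hY : ∀ k l, k ≤ l → Y l ⊆ Y k) (hψY : ∀ j k e, ψ j k e ∈ Y k)
    (S : Finset (LV P E)) (K : ℕ) (B : Set ℕ) (hB : B.Finite) :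
    ∃ h : LV P E → ℕ, Set.InjOn h (S : Set (LV P E)) ∧
      (∀ (i : I) (s : Fin (ar i) → LV P E), (∀ l, s l ∈ S) →
        (s ∈ LM M₀ δ U ψ i ↔ h ∘ s ∈ M₀ i)) ∧
      (∀ p : P, h (Sum.inl p) = p.1) ∧
      ∀ x : (Σ j : ℕ, ℕ × E j), Sum.inr x ∈ S → h (Sum.inr x) ∈ Y K ∧ h (Sum.inr x) ∉ B := by
  classical
  -- the pieces and their numbers
  set G : Finset (ℕ × ℕ) := Finset.eraseNone (S.image grp) with hG
  have hGm : ∀ x ∈ S, ∀ g, grp x = some g → g ∈ G := fun x hx g hg => by
    rw [hG, Finset.mem_eraseNone, ← hg]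
    exact Finset.mem_image_of_mem _ hx
  let idx : ℕ × ℕ → ℕ := fun g => Nat.pair g.1 g.2
  have hidx : ∀ g g' : ℕ × ℕ, idx g = idx g' → g = g' := fun g g' h => by
    have := Nat.pair_eq_pair.1 h
    exact Prod.ext this.1 this.2
  have hlt : ∀ g ∈ G, idx g < G.sup idx + 1 := fun g hg =>
    Nat.lt_succ_of_le (Finset.le_sup (f := idx) hg)
  obtain ⟨τ, hτ, hτR⟩ := generic (U : Filter ℕ) (G.sup idx + 1)
    (fun _ k => W23_Good M₀ U ψ S K B k) (fun _ _ k k' => W23_Rel M₀ δ ψ S k k')
    (fun _ _ => W23_good U hU hinf S K B hB) (fun _ _ _ _ => W23_rel hK U hinf S)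
  -- the choice
  let h : LV P E → ℕ := fun x => match grp x with
    | none => real ψ 0 x
    | some g => real ψ (τ (idx g)) x
  have hnone : ∀ x, grp x = none → h x = real ψ 0 x := fun x hx => by
    change (match grp x with
      | none => real ψ 0 x
      | some g => real ψ (τ (idx g)) x) = _
    rw [hx]
  have hsome : ∀ x g, grp x = some g → h x = real ψ (τ (idx g)) x := fun x g hx => by
    change (match grp x with
      | none => real ψ 0 x
      | some g => real ψ (τ (idx g)) x) = _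
    rw [hx]
  -- different pieces
  have hdiff : ∀ x ∈ S, ∀ y ∈ S, ∀ g g', grp x = some g → grp y = some g' → g ≠ g' →
      h x ≠ h y ∧ ¬ Adj M₀ δ (h x) (h y) := by
    intro x hx y hy g g' hg hg' hne
    have hx0 : grp x ≠ none := by rw [hg]; exact Option.some_ne_none g
    have hy0 : grp y ≠ none := by rw [hg']; exact Option.some_ne_none g'
    rw [hsome x g hg, hsome y g' hg']
    rcases lt_trichotomy (idx g) (idx g') with hl | hl | hl
    · exact hτR _ _ hl (hlt g' (hGm y hy g' hg')) x hx y hy hx0 hy0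
    · exact absurd (hidx g g' hl) hne
    · have := hτR _ _ hl (hlt g (hGm x hx g hg)) y hy x hx hy0 hx0
      exact ⟨this.1.symm, fun e => this.2 (adj_symm _ _ e)⟩
  refine ⟨h, ?_, ?_, fun p => (hnone (Sum.inl p) rfl).trans rfl, ?_⟩
  · -- injectivity
    intro x hx y hy hxy
    have hx' : x ∈ S := hx
    have hy' : y ∈ S := hy
    rcases hgx : grp x with _ | g
    · rcases hgy : grp y with _ | g'
      · rw [hnone x hgx, hnone y hgy] at hxy
        rcases x with p | ⟨j, n, e⟩
        · rcases y with p' | ⟨j', n', e'⟩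
          · have : p = p' := Subtype.ext hxy
            rw [this]
          · exact absurd hgy (by simp [grp])
        · exact absurd hgx (by simp [grp])
      · exfalso
        have h1 := ((hτ _ (hlt g' (hGm y hy' g' hgy))).2.1 y hy'
          (by rw [hgy]; exact Option.some_ne_none g')).2 x hx' hgx
        rw [← hsome y g' hgy, ← hnone x hgx] at h1
        exact h1 hxy.symm
    · rcases hgy : grp y with _ | g'
      · exfalso
        have h1 := ((hτ _ (hlt g (hGm x hx' g hgx))).2.1 x hx'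
          (by rw [hgx]; exact Option.some_ne_none g)).2 y hy' hgy
        rw [← hsome x g hgx, ← hnone y hgy] at h1
        exact h1 hxy
      · by_cases hne : g = g'
        · subst hne
          rw [hsome x g hgx, hsome y g hgy] at hxy
          rcases x with p | ⟨j, n, e⟩
          · exact absurd hgx (by simp [grp])
          · rcases y with p' | ⟨j', n', e'⟩
            · exact absurd hgy (by simp [grp])
            · simp only [grp, Option.some.injEq] at hgx hgy
              rw [← hgx, Prod.mk.injEq] at hgy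
              obtain ⟨rfl, rfl⟩ := hgy
              have : e = e' := hinj _ _ hxy
              rw [this]
        · exact absurd hxy (hdiff x hx' y hy' g g' hgx hgy hne).1
  · -- tuples
    intro i s hs
    by_cases hone : OneGrp s
    · have h1 : s ∈ LM M₀ δ U ψ i ↔ ∀ᶠ k in (U : Filter ℕ), (real ψ k ∘ s) ∈ M₀ i := by
        constructor
        · rintro (⟨-, h2⟩ | ⟨h2, -⟩)
          · exact h2
          · exact absurd hone h2
        · exact fun h2 => Or.inl ⟨hone, h2⟩
      rw [h1]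
      obtain ⟨g, hg⟩ := hone
      by_cases h2 : ∃ l, grp (s l) = some g
      · obtain ⟨l, hl⟩ := h2
        have h3 : h ∘ s = real ψ (τ (idx g)) ∘ s := by
          funext l'
          rcases hg l' with h4 | h4
          · exact (hnone _ h4).trans (W23_pin h4 _ _)
          · exact hsome _ _ h4
        rw [h3]
        exact (hτ _ (hlt g (hGm _ (hs l) g hl))).2.2 i fun l => ⟨s l, hs l⟩
      · push Not at h2
        have h3 : ∀ l, grp (s l) = none := fun l => (hg l).resolve_right (h2 l)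
        have h4 : ∀ k, real ψ k ∘ s = h ∘ s := by
          intro k
          funext l'
          exact ((hnone _ (h3 l')).trans (W23_pin (h3 l') _ _)).symm
        simp only [h4]
        exact Filter.eventually_const
    · have h1 : s ∈ LM M₀ δ U ψ i ↔ δ i := by
        constructor
        · rintro (⟨h2, -⟩ | ⟨-, h2⟩)
          · exact absurd h2 hone
          · exact h2
        · exact fun h2 => Or.inr ⟨hone, h2⟩
      rw [h1]
      obtain ⟨l, l', g, g', hl, hl', hne⟩ := W23_two hone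
      have h2 := hdiff _ (hs l) _ (hs l') g g' hl hl' hne
      by_contra h3
      apply h2.2
      exact ⟨h2.1, i, h ∘ s, ⟨l, rfl⟩, ⟨l', rfl⟩, fun h4 => h3 h4.symm⟩
  · rintro ⟨j, n, e⟩ hx
    have hg : grp (Sum.inr ⟨j, n, e⟩ : LV P E) = some (j, n) := rfl
    rw [hsome _ _ hg]
    have h1 := hτ _ (hlt _ (hGm _ hx _ hg))
    constructor
    · rw [W23_real_inr]
      exact hY _ _ h1.1 (hψY _ _ _)
    · intro hb
      exact (h1.2.1 _ hx (by rw [hg]; exact Option.some_ne_none _)).1 _ hb rfl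

end Pool.Agent.Lib.MP_4fb322_lc_h21
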