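import Mathlib
import Pool.Agent.Lib.MP_4fb322_lc_h21.Basic

set_option autoImplicit false

/-!
# Row W24

Shifts and pieces of the limit structure. PROOF. (1) `f (inl p) = inl p`, `f (inr ⟨j, n, e⟩) =
inr ⟨j, n + c, e⟩` with `c` larger than all `n` occurring in the finite set `X`. `real ψ k ∘ f = real ψ k`,
OneGrp (f ∘ s) ↔ OneGrp s. (2) A tuple containing points of two different pieces is not OneGrp, so its
membership equals `δ`. (3) obvious. (4) copy of a structure: `G` on `Fin n`, embeddings `χ k` of `G` into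
`M₀`; `D` = the points `v` such that `χ k v` is eventually a constant pin `pv v`; the others form `E j`
(through an equivalence `ε : {v // v ∉ D} ≃ E j` with `ψ j k (ε v) = χ k v`). The map
`c v = inl (pv v)` on `D` and `inr ⟨j, 0, ε v⟩` otherwise is an embedding of `G` into `LM`: every tuple of
the image is OneGrp, and `real ψ k (c v) = χ k v` eventually (finitely many `v`), so
`c ∘ s ∈ LM i ↔ ∀ᶠ k, real ψ k ∘ c ∘ s ∈ M₀ i ↔ ∀ᶠ k, χ k ∘ s ∈ M₀ i ↔ s ∈ G.2 i`.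
-/

namespace Pool.Agent.Lib.MP_4fb322_lc_h21

open Set Pool.Agent.Lib.MP_4fb322_lc_h70 Pool.Agent.Lib.MP_4fb322_lc_h91

variable {I : Type} {ar : I → ℕ} {V : Type}

private theorem W24_grp_shift {P : Set ℕ} {E : ℕ → Type} (c : ℕ) (f : LV P E → LV P E)
    (hf1 : ∀ p, f (Sum.inl p) = Sum.inl p)
    (hf2 : ∀ j n e, f (Sum.inr ⟨j, n, e⟩) = Sum.inr ⟨j, n + c, e⟩) {m : ℕ}
    (s : Fin m → LV P E) : OneGrp (f ∘ s) ↔ OneGrp s := by
  constructor
  · rintro ⟨⟨j, n⟩, hg⟩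
    refine ⟨(j, n - c), fun l => ?_⟩
    have h := hg l
    rw [Function.comp_apply] at h
    rcases hs : s l with p | ⟨j', n', e⟩
    · left; rfl
    · right
      rw [hs, hf2] at h
      rcases h with h | h
      · exact absurd h (by simp [grp])
      · simp only [grp, Option.some.injEq, Prod.mk.injEq] at h ⊢
        omega
  · rintro ⟨⟨j, n⟩, hg⟩
    refine ⟨(j, n + c), fun l => ?_⟩
    have h := hg l
    rw [Function.comp_apply]
    rcases hs : s l with p | ⟨j', n', e⟩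
    · left; rw [hf1]; rfl
    · right
      rw [hs] at h
      rw [hf2]
      rcases h with h | h
      · exact absurd h (by simp [grp])
      · simp only [grp, Option.some.injEq, Prod.mk.injEq] at h ⊢
        omega

private def W24_f {P : Set ℕ} {E : ℕ → Type} (c : ℕ) : LV P E → LV P E
  | Sum.inl p => Sum.inl p
  | Sum.inr ⟨j, n, e⟩ => Sum.inr ⟨j, n + c, e⟩

private theorem W24_f_inj {P : Set ℕ} {E : ℕ → Type} (c : ℕ) :
    Function.Injective (W24_f c : LV P E → LV P E) := by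
  intro x y h
  rcases x with p | ⟨j, n, e⟩ <;> rcases y with q | ⟨j', n', e'⟩
  · exact h
  · simp [W24_f] at h
  · simp [W24_f] at h
  · simp only [W24_f, Sum.inr.injEq, Sigma.mk.injEq] at h
    obtain ⟨rfl, h⟩ := h
    simp only [heq_eq_eq, Prod.mk.injEq, Nat.add_right_cancel_iff] at h
    obtain ⟨rfl, rfl⟩ := h
    rfl

private theorem W24_real {P : Set ℕ} {E : ℕ → Type} (ψ : (j : ℕ) → ℕ → E j → ℕ) (c k : ℕ)
    (x : LV P E) : real ψ k (W24_f c x) = real ψ k x := by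
  rcases x with p | ⟨j, n, e⟩ <;> rfl

theorem LM_shift {M₀ : (i : I) → Set (Fin (ar i) → ℕ)} {δ : I → Prop} (U : Ultrafilter ℕ)
    {P : Set ℕ} {E : ℕ → Type} (ψ : (j : ℕ) → ℕ → E j → ℕ) (X : Set (LV P E))
    (hX : X.Finite) :
    ∃ f : LV P E → LV P E, PE (LM M₀ δ U ψ) Set.univ f ∧ (∀ p : P, f (Sum.inl p) = Sum.inl p) ∧
      ∀ x : (Σ j : ℕ, ℕ × E j), (∃ y, f (Sum.inr x) = Sum.inr y) ∧ f (Sum.inr x) ∉ X := by
  classical
  let ht : LV P E → ℕ := fun x => match x with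
    | Sum.inl _ => 0
    | Sum.inr ⟨_, n, _⟩ => n
  obtain ⟨c, hc⟩ : ∃ c : ℕ, ∀ x ∈ X, ht x < c := by
    obtain ⟨b, hb⟩ := (hX.image ht).bddAbove
    exact ⟨b + 1, fun x hx => Nat.lt_succ_of_le (hb ⟨x, hx, rfl⟩)⟩
  refine ⟨W24_f c, ⟨(W24_f_inj c).injOn, fun i s _ => ?_⟩, fun _ => rfl, ?_⟩
  · have h1 : OneGrp (W24_f c ∘ s) ↔ OneGrp s :=
      W24_grp_shift c (W24_f c) (fun _ => rfl) (fun _ _ _ => rfl) s
    have h2 : ∀ k, real ψ k ∘ (W24_f c ∘ s) = real ψ k ∘ s := by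
      intro k
      funext l
      exact W24_real ψ c k (s l)
    simp only [LM, Set.mem_ofPred_eq, h1, h2]
  · rintro ⟨j, n, e⟩
    refine ⟨⟨_, rfl⟩, fun hmem => ?_⟩
    have := hc _ hmem
    simp only [ht, W24_f] at this
    omega

theorem LM_piece {M₀ : (i : I) → Set (Fin (ar i) → ℕ)} {δ : I → Prop} (U : Ultrafilter ℕ)
    {P : Set ℕ} {E : ℕ → Type} (ψ : (j : ℕ) → ℕ → E j → ℕ) (x y : (Σ j : ℕ, ℕ × E j))
    (h : Adj (LM M₀ δ U ψ) δ (Sum.inr x : LV P E) (Sum.inr y)) :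
    x.1 = y.1 ∧ x.2.1 = y.2.1 := by
  obtain ⟨-, i, s, ⟨a, ha⟩, ⟨b, hb⟩, hn⟩ := h
  have hg : OneGrp s := by
    by_contra hg
    apply hn
    simp [LM, hg]
  obtain ⟨g, hg⟩ := hg
  obtain ⟨j, n, e⟩ := x
  obtain ⟨j', n', e'⟩ := y
  have h1 := hg a
  have h2 := hg b
  rw [ha] at h1
  rw [hb] at h2
  simp only [grp, reduceCtorEq, false_or, Option.some.injEq] at h1 h2
  rw [← h2] at h1
  simpa using h1

theorem LM_copy {M₀ : (i : I) → Set (Fin (ar i) → ℕ)} {δ : I → Prop} (U : Ultrafilter ℕ)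
    {P : Set ℕ} {E : ℕ → Type} (ψ : (j : ℕ) → ℕ → E j → ℕ) (j : ℕ) (G : Str ar)
    (χ : ℕ → Fin G.1 → ℕ) (hχ : ∀ k, Function.Injective (χ k))
    (hχr : ∀ k (i : I) (s : Fin (ar i) → Fin G.1), s ∈ G.2 i ↔ χ k ∘ s ∈ M₀ i)
    (c : Fin G.1 → LV P E) (hc : ∀ v, (∃ p, c v = Sum.inl p) ∨ ∃ e, c v = Sum.inr ⟨j, 0, e⟩)
    (hcr : ∀ v, ∀ᶠ k in (U : Filter ℕ), real ψ k (c v) = χ k v) :
    Function.Injective c ∧
      ∀ (i : I) (s : Fin (ar i) → Fin G.1), s ∈ G.2 i ↔ c ∘ s ∈ LM M₀ δ U ψ i := by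
  classical
  refine ⟨fun v w hvw => ?_, fun i s => ?_⟩
  · obtain ⟨k, h1, h2⟩ := ((hcr v).and (hcr w)).exists
    apply hχ k
    rw [← h1, ← h2, hvw]
  · have hone : OneGrp (c ∘ s) := by
      refine ⟨(j, 0), fun l => ?_⟩
      rw [Function.comp_apply]
      rcases hc (s l) with ⟨p, hp⟩ | ⟨e, he⟩
      · left; rw [hp]; rfl
      · right; rw [he]; rfl
    have hall : ∀ᶠ k in (U : Filter ℕ), ∀ v, real ψ k (c v) = χ k v :=
      Filter.eventually_all.2 hcr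
    have hev : ∀ᶠ k in (U : Filter ℕ), (real ψ k ∘ (c ∘ s) ∈ M₀ i ↔ s ∈ G.2 i) := by
      filter_upwards [hall] with k hk
      rw [hχr k i s]
      have : real ψ k ∘ (c ∘ s) = χ k ∘ s := by
        funext l
        exact hk (s l)
      rw [this]
    constructor
    · intro hs
      refine Or.inl ⟨hone, ?_⟩
      filter_upwards [hev] with k hk
      exact hk.2 hs
    · rintro (⟨-, h⟩ | ⟨h, -⟩)
      · obtain ⟨k, h1, h2⟩ := (h.and hev).exists
        exact h2.1 h1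
      · exact absurd hone h

end Pool.Agent.Lib.MP_4fb322_lc_h21
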