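import Mathlib
import Pool.Agent.Lib.MP_4fb322_lc_h21.Basic

set_option autoImplicit false

/-!
# Row W21

Every age in a finite signature is the age of a structure on (a subset of) ℕ. PROOF. `Str ar` is countable
(Finite I: each fibre over `n` is finite), so enumerate `ℬ` as `G 0, G 1, ...` (with repetition). Build a
chain `H 0, H 1, ...` in `ℬ` with `G n` embedding in `H n` and an embedding `H n → H (n+1)` (directedness).
Arrange that the embedding `H n → H (n+1)` is `Fin.castLE`: replace `H (n+1)` by an isomorphic copy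
(transport along a permutation of `Fin (H (n+1)).1` extending the embedding; the copy is again in `ℬ`
by downward closure; extension of an injection `Fin a → Fin b`, `a ≤ b`, to a permutation:
e.g. `Equiv.extendSubtype` or `Function.Embedding`/`Fintype` lemmas). Then let `M i` = tuples
`s : Fin (ar i) → ℕ` such that for some `n` all entries are `< (H n).1` and the tuple is in `(H n).2 i`
(independent of `n`), and `X = ⋃ n, {x | x < (H n).1}`. `ageOn M X = ℬ`: `⊆` a member has its finitely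
many values below some `(H n).1`, so it embeds in `H n`; `⊇` through `G n → H n`. (If `ar i = 0` the
condition on entries is empty: take `s ∈ M i` iff `∃ n, ...`; all members of the chain agree.)
(About 150 lines.)
-/

namespace Pool.Agent.Lib.MP_4fb322_lc_h21

open Set Pool.Agent.Lib.MP_4fb322_lc_h70 Pool.Agent.Lib.MP_4fb322_lc_h91

variable {I : Type} {ar : I → ℕ} {V : Type}

/-- an injection of a finite type into `ℕ` extends along an injection of finite types -/
private theorem extend_inj {a b : ℕ} {f : Fin a → Fin b} (hf : Function.Injective f)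
    {φ : Fin a → ℕ} (hφ : Function.Injective φ) :
    ∃ ψ : Fin b → ℕ, Function.Injective ψ ∧ ∀ x, ψ (f x) = φ x := by
  classical
  set B : ℕ := Finset.univ.sup φ + 1 with hB
  have hlt : ∀ x, φ x < B := fun x =>
    Nat.lt_succ_of_le (Finset.le_sup (f := φ) (Finset.mem_univ x))
  set ψ : Fin b → ℕ := fun y => if h : ∃ x, f x = y then φ h.choose else B + y with hψ
  have h1 : ∀ x, ψ (f x) = φ x := by
    intro x
    have h : ∃ x', f x' = f x := ⟨x, rfl⟩
    have h2 : h.choose = x := hf h.choose_spec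
    simp only [hψ]
    rw [dif_pos h, h2]
  have h3 : ∀ y, (¬ ∃ x, f x = y) → ψ y = B + y := by
    intro y h
    simp only [hψ]
    rw [dif_neg h]
  refine ⟨ψ, ?_, h1⟩
  intro y y' hyy
  by_cases hy : ∃ x, f x = y <;> by_cases hy' : ∃ x, f x = y'
  · obtain ⟨x, rfl⟩ := hy
    obtain ⟨x', rfl⟩ := hy'
    rw [h1, h1] at hyy
    rw [hφ hyy]
  · obtain ⟨x, rfl⟩ := hy
    rw [h1, h3 _ hy'] at hyy
    have := hlt x
    omega
  · obtain ⟨x', rfl⟩ := hy'
    rw [h1, h3 _ hy] at hyy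
    have := hlt x'
    omega
  · rw [h3 _ hy, h3 _ hy'] at hyy
    exact Fin.ext (by omega)

/-- a chain of finite structures is a chain of finite substructures of a structure on `ℕ` -/
private theorem chain_maps (H : ℕ → Str ar) (f : (n : ℕ) → Fin (H n).1 → Fin (H (n + 1)).1)
    (hf : ∀ n, IsEmb (H n) (H (n + 1)) (f n)) :
    ∃ φ : (n : ℕ) → Fin (H n).1 → ℕ, (∀ n, Function.Injective (φ n)) ∧
      ∀ n x, φ (n + 1) (f n x) = φ n x := by
  have step : ∀ (n : ℕ) (p : {φ : Fin (H n).1 → ℕ // Function.Injective φ}),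
      ∃ q : {φ : Fin (H (n + 1)).1 → ℕ // Function.Injective φ}, ∀ x, q.1 (f n x) = p.1 x := by
    intro n p
    obtain ⟨ψ, h1, h2⟩ := extend_inj (hf n).1 p.2
    exact ⟨⟨ψ, h1⟩, h2⟩
  choose g hg using step
  let Φ : (n : ℕ) → {φ : Fin (H n).1 → ℕ // Function.Injective φ} := fun n =>
    Nat.rec (motive := fun n => {φ : Fin (H n).1 → ℕ // Function.Injective φ})
      ⟨fun x => x.1, Fin.val_injective⟩ (fun n p => g n p) n
  refine ⟨fun n => (Φ n).1, fun n => (Φ n).2, fun n x => ?_⟩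
  exact hg n (Φ n) x

private theorem chain_emb {H : ℕ → Str ar} {f : (n : ℕ) → Fin (H n).1 → Fin (H (n + 1)).1}
    (hf : ∀ n, IsEmb (H n) (H (n + 1)) (f n)) {φ : (n : ℕ) → Fin (H n).1 → ℕ}
    (hφ : ∀ n x, φ (n + 1) (f n x) = φ n x) (m k : ℕ) :
    ∃ F : Fin (H m).1 → Fin (H (m + k)).1, IsEmb (H m) (H (m + k)) F ∧
      ∀ x, φ (m + k) (F x) = φ m x := by
  induction k with
  | zero => exact ⟨id, IsEmb.refl _, fun _ => rfl⟩
  | succ k ih =>
    obtain ⟨F, h1, h2⟩ := ih
    exact ⟨f (m + k) ∘ F, h1.trans (hf (m + k)), fun x => (hφ (m + k) (F x)).trans (h2 x)⟩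

private theorem chain_emb' {H : ℕ → Str ar} {f : (n : ℕ) → Fin (H n).1 → Fin (H (n + 1)).1}
    (hf : ∀ n, IsEmb (H n) (H (n + 1)) (f n)) {φ : (n : ℕ) → Fin (H n).1 → ℕ}
    (hφ : ∀ n x, φ (n + 1) (f n x) = φ n x) {m n : ℕ} (hmn : m ≤ n) :
    ∃ F : Fin (H m).1 → Fin (H n).1, IsEmb (H m) (H n) F ∧ ∀ x, φ n (F x) = φ m x := by
  obtain ⟨k, rfl⟩ := Nat.exists_eq_add_of_le hmn
  exact chain_emb hf hφ m k

private theorem exists_chain [Finite I] {ℬ : Set (Str ar)} (hℬ : IsAge ℬ) :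
    ∃ (H : ℕ → Str ar) (f : (n : ℕ) → Fin (H n).1 → Fin (H (n + 1)).1),
      (∀ n, H n ∈ ℬ) ∧ (∀ n, IsEmb (H n) (H (n + 1)) (f n)) ∧
      ∀ A ∈ ℬ, ∃ n, Emb A (H n) := by
  have : Nonempty ℬ := hℬ.1.to_subtype
  have : Countable (Str ar) := inferInstance
  obtain ⟨G, hG⟩ := exists_surjective_nat ℬ
  have step : ∀ (n : ℕ) (A : ℬ), ∃ C : ℬ, Emb A.1 C.1 ∧ Emb (G n).1 C.1 := by
    intro n A
    obtain ⟨C, hC, h1, h2⟩ := hℬ.2.2 A.1 A.2 (G n).1 (G n).2
    exact ⟨⟨C, hC⟩, h1, h2⟩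
  choose g hg1 hg2 using step
  let K : ℕ → ℬ := fun n => Nat.rec (motive := fun _ => ℬ) (G 0) (fun n A => g n A) n
  have hK : ∀ n, K (n + 1) = g n (K n) := fun n => rfl
  have h1 : ∀ n, Emb (K n).1 (K (n + 1)).1 := fun n => hg1 n (K n)
  choose f hf using h1
  refine ⟨fun n => (K n).1, f, fun n => (K n).2, hf, ?_⟩
  intro A hA
  obtain ⟨n, hn⟩ := hG ⟨A, hA⟩
  refine ⟨n + 1, ?_⟩
  have := hg2 n (K n)
  rw [hn] at this
  exact this

theorem exists_model [Finite I] {ℬ : Set (Str ar)} (hℬ : IsAge ℬ) :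
    ∃ (M : (i : I) → Set (Fin (ar i) → ℕ)) (X : Set ℕ), ageOn M X = ℬ := by
  classical
  obtain ⟨H, f, hH, hf, hall⟩ := exists_chain hℬ
  obtain ⟨φ, hφ, hφf⟩ := chain_maps H f hf
  set M : (i : I) → Set (Fin (ar i) → ℕ) := fun i =>
    {s | ∃ (n : ℕ) (t : Fin (ar i) → Fin (H n).1), t ∈ (H n).2 i ∧ φ n ∘ t = s} with hM
  have key : ∀ (n : ℕ) (i : I) (t : Fin (ar i) → Fin (H n).1),
      t ∈ (H n).2 i ↔ φ n ∘ t ∈ M i := by
    intro n i t
    constructor
    · intro h
      exact ⟨n, t, h, rfl⟩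
    · rintro ⟨m, t', h1, h2⟩
      obtain ⟨F, hF1, hF2⟩ := chain_emb' hf hφf (le_max_left n m)
      obtain ⟨F', hF1', hF2'⟩ := chain_emb' hf hφf (le_max_right n m)
      rw [hF1.2 i t]
      rw [hF1'.2 i t'] at h1
      have h3 : F ∘ t = F' ∘ t' := by
        funext j
        apply hφ (max n m)
        have h4 := congrFun h2 j
        simp only [Function.comp_apply] at h4 ⊢
        rw [hF2, hF2', h4]
      rwa [h3]
  refine ⟨M, {x | ∃ (n : ℕ) (y : Fin (H n).1), φ n y = x}, ?_⟩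
  apply Set.Subset.antisymm
  · rintro A ⟨e, he, heX, her⟩
    choose n y hy using heX
    set N : ℕ := Finset.univ.sup n with hN
    have hle : ∀ x, n x ≤ N := fun x => Finset.le_sup (f := n) (Finset.mem_univ x)
    have h1 : ∀ x, ∃ z : Fin (H N).1, φ N z = e x := by
      intro x
      obtain ⟨F, -, hF2⟩ := chain_emb' hf hφf (hle x)
      exact ⟨F (y x), by rw [hF2, hy]⟩
    choose g hg using h1
    have h2 : Emb A (H N) := by
      refine ⟨g, ?_, ?_⟩
      · intro x x' hxx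
        apply he
        rw [← hg x, ← hg x', hxx]
      · intro i t
        rw [her i t, key N i (g ∘ t)]
        have h3 : e ∘ t = φ N ∘ g ∘ t := by
          funext j
          exact (hg (t j)).symm
        rw [h3]
    exact hℬ.2.1 A (H N) (hH N) h2
  · intro A hA
    obtain ⟨n, g, hg⟩ := hall A hA
    refine ⟨φ n ∘ g, (hφ n).comp hg.1, fun x => ⟨n, g x, rfl⟩, fun i t => ?_⟩
    rw [hg.2 i t, key n i (g ∘ t)]
    rfl

end Pool.Agent.Lib.MP_4fb322_lc_h21
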