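import Mathlib
import Pool.Agent.Lib.MP_4fb322_lc_h21.Basic
import Pool.Agent.Lib.MP_4fb322_lc_h21.W21

set_option autoImplicit false

/-!
# Row W26

Sparseness is a property of the age. PROOF of noBiclique_lift: let `a, b : Fin t → V` be a biclique. Each
of the `t²` adjacencies is witnessed by some `i` and a tuple `s` with `¬ (s ∈ M i ↔ δ i)`, so by hX all
entries of `s` lie in `X`. Let `Y` be the finite set of all entries of the chosen witnesses (contains
all `a i`, `b j` if `t ≥ 1`). `indV M Y ∈ ageOn M X`, and it has a biclique (pull back the points and the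
witnessing tuples with `exists_indVMap`, `indVMap_rel`): contradiction. For `t = 0` every structure has
a biclique, so hK fails for `indV M ∅`. PROOF of exists_sparse_model: take `M₁, X` from `exists_model`
and `M i = {s | ((∀ l, s l ∈ X) ∧ s ∈ M₁ i) ∨ (¬ (∀ l, s l ∈ X) ∧ δ i)}`; `ageOn M X = ageOn M₁ X` since
only tuples inside `X` matter (if `ar i = 0` the condition holds trivially). (About 100 lines.)
-/

namespace Pool.Agent.Lib.MP_4fb322_lc_h21

open Set Pool.Agent.Lib.MP_4fb322_lc_h70 Pool.Agent.Lib.MP_4fb322_lc_h91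

variable {I : Type} {ar : I → ℕ} {V : Type}

theorem noBiclique_lift {M : (i : I) → Set (Fin (ar i) → V)} {δ : I → Prop} {t : ℕ} {X : Set V}
    (hK : ∀ C ∈ ageOn M X, ¬ HasBiclique C.2 δ t)
    (hX : ∀ (i : I) (s : Fin (ar i) → V), (¬ ∀ l, s l ∈ X) → (s ∈ M i ↔ δ i)) :
    ¬ HasBiclique M δ t := by
  classical
  rintro ⟨a, b, ha, hb, hab⟩
  have hne : ∀ i j, a i ≠ b j := fun i j => (hab i j).1
  choose k s hsa hsb hns using fun i j => (hab i j).2
  have hsX : ∀ i j l, s i j l ∈ X := by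
    intro i j
    by_contra h
    exact hns i j (hX (k i j) (s i j) h)
  set Y : Finset V := Finset.univ.biUnion fun p : Fin t × Fin t =>
    Finset.univ.image (s p.1 p.2) with hY
  have hsY : ∀ i j l, s i j l ∈ Y := fun i j l =>
    Finset.mem_biUnion.2 ⟨(i, j), Finset.mem_univ _, Finset.mem_image_of_mem _ (Finset.mem_univ l)⟩
  have haY : ∀ i, a i ∈ Y := by
    intro i
    obtain ⟨l, hl⟩ := hsa i i
    rw [← hl]
    exact hsY i i l
  have hbY : ∀ i, b i ∈ Y := by
    intro i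
    obtain ⟨l, hl⟩ := hsb i i
    rw [← hl]
    exact hsY i i l
  have hYX : ∀ y ∈ (Y : Set V), y ∈ X := by
    intro y hy
    obtain ⟨p, -, hp⟩ := Finset.mem_biUnion.1 (Finset.mem_coe.1 hy)
    obtain ⟨l, -, rfl⟩ := Finset.mem_image.1 hp
    exact hsX _ _ _
  have hC : indV M Y ∈ ageOn M X := indV_mem_ageOn M ⟨id, PE_id _, hYX⟩
  choose a' ha' using fun i => exists_indVMap M Y (haY i)
  choose b' hb' using fun i => exists_indVMap M Y (hbY i)
  choose s' hs' using fun i j l => exists_indVMap M Y (hsY i j l)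
  refine hK _ hC ⟨a', b', ?_, ?_, fun i j => ⟨?_, k i j, s' i j, ?_, ?_, ?_⟩⟩
  · intro i j hij
    apply ha
    rw [← ha' i, ← ha' j, hij]
  · intro i j hij
    apply hb
    rw [← hb' i, ← hb' j, hij]
  · intro h
    apply hne i j
    rw [← ha' i, ← hb' j, h]
  · obtain ⟨l, hl⟩ := hsa i j
    exact ⟨l, indVMap_inj M Y (by rw [hs', ha', hl])⟩
  · obtain ⟨l, hl⟩ := hsb i j
    exact ⟨l, indVMap_inj M Y (by rw [hs', hb', hl])⟩
  · rw [indVMap_rel]
    have h1 : indVMap M Y ∘ s' i j = s i j := by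
      funext l
      exact hs' i j l
    rw [h1]
    exact hns i j

theorem exists_sparse_model [Finite I] {δ : I → Prop} {t : ℕ} {ℬ : Set (Str ar)}
    (hℬ : IsAge ℬ) (hK : ∀ C ∈ ℬ, ¬ HasBiclique C.2 δ t) :
    ∃ (M : (i : I) → Set (Fin (ar i) → ℕ)) (X : Set ℕ), ageOn M X = ℬ ∧
      ¬ HasBiclique M δ t := by
  obtain ⟨M₁, X, hM₁⟩ := exists_model hℬ
  let M : (i : I) → Set (Fin (ar i) → ℕ) := fun i =>
    {s | ((∀ l, s l ∈ X) ∧ s ∈ M₁ i) ∨ (¬ (∀ l, s l ∈ X) ∧ δ i)}
  have hin : ∀ (i : I) (s : Fin (ar i) → ℕ), (∀ l, s l ∈ X) → (s ∈ M i ↔ s ∈ M₁ i) := by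
    intro i s hs
    constructor
    · rintro (h | h)
      · exact h.2
      · exact absurd hs h.1
    · exact fun h => Or.inl ⟨hs, h⟩
  have hout : ∀ (i : I) (s : Fin (ar i) → ℕ), (¬ ∀ l, s l ∈ X) → (s ∈ M i ↔ δ i) := by
    intro i s hs
    constructor
    · rintro (h | h)
      · exact absurd h.1 hs
      · exact h.2
    · exact fun h => Or.inr ⟨hs, h⟩
  have hage : ageOn M X = ageOn M₁ X := by
    ext A
    constructor
    · rintro ⟨f, hf, hfX, hr⟩
      exact ⟨f, hf, hfX, fun i s => by rw [hr i s, hin i (f ∘ s) fun l => hfX _]⟩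
    · rintro ⟨f, hf, hfX, hr⟩
      exact ⟨f, hf, hfX, fun i s => by rw [hr i s, hin i (f ∘ s) fun l => hfX _]⟩
  refine ⟨M, X, hage.trans hM₁, noBiclique_lift ?_ hout⟩
  intro C hC
  rw [hage, hM₁] at hC
  exact hK C hC

end Pool.Agent.Lib.MP_4fb322_lc_h21
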