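import Mathlib
import Pool.Agent.Lib.MP_4fb322_lc_h21.Basic
import Pool.Agent.Lib.MP_4fb322_lc_h21.W20
import Pool.Agent.Lib.MP_4fb322_lc_h21.W26
import Pool.Agent.Lib.MP_4fb322_lc_h21.W22
import Pool.Agent.Lib.MP_4fb322_lc_h21.W23
import Pool.Agent.Lib.MP_4fb322_lc_h21.W24

set_option autoImplicit false

/-!
# Row W25

Assembly of Part I. PROOF. `exists_min_age`: `ℬ`. `exists_sparse_model`: `M₀`, `X₀`. Choose an antichain `s 0, s 1, ...` of `ℬ` (¬ NoAntichain).
`Q Y := ageOn M₀ Y = ℬ`. `fusion` gives `Y k`, `P`. For every `j, k` an embedding `χ j k` of `s j` into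
`Y k`. `U = hyperfilter ℕ`. `D j = {v | ∃ p, ∀ᶠ k in U, χ j k v = p}`; such a value `p` lies in `P`
(otherwise `p ∉ Y k` for `k > p`). `E j = {v // v ∉ D j}` (finite), `ψ j k e = χ j k e`; hinf: for an
ultrafilter `¬ ∀ᶠ (= x)` gives `∀ᶠ (≠ x)`. `V = LV P E`, `M = LM M₀ δ U ψ`. For a `G : Str ar` in
`ageOn M Z`: `LM_realize` (S = the finite image) gives `G ∈ ageOn M₀ (Y 0) = ℬ`. So
`ageOn M univ ⊆ ℬ`; wf by `SubagesWF.mono` (h70 Ages). sparse: `noBiclique_lift` with X = univ.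
`a j` = image of the copy `c` (`LM_copy`), `indV M (a j)` and `s j` embed in each other, so `anti` holds
(`emb_of_VE`), and `min`: an `X` with infinitely many `VE M (a j) X` has `ageOn M X` a sub-age of `ℬ`
containing infinitely many `s j`, so `= ℬ`, which contains `indV M Y` for every finite `Y`
(`VE_of_indV`). pin: for `p ∈ P` `¬ Q (Y p \ {p})`, so some `G ∈ ℬ` is not in `ageOn M₀ (Y p \ {p})`;
`G ∈ ageOn M univ` (by min with X = univ; `VE_refl`), let `Y` be a finite set carrying `G`; if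
`VE M Y {inl p}ᶜ` then `LM_realize` with `K = p`, `B = {p}` realises `G` inside `Y p \ {p}`. shift:
`LM_shift`. piece: `pc (inr ⟨j,n,e⟩) = Nat.pair j n`, `LM_piece`; `P` as a subset of `V` is
`Set.range Sum.inl`. (About 250 lines.)
-/

namespace Pool.Agent.Lib.MP_4fb322_lc_h21

open Set Pool.Agent.Lib.MP_4fb322_lc_h70 Pool.Agent.Lib.MP_4fb322_lc_h91

variable {I : Type} {ar : I → ℕ} {V : Type}

theorem exists_core [Finite I] {δ : I → Prop} {t : ℕ} {𝒜 : Set (Str ar)} (h𝒜 : IsAge 𝒜)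
    (hK : ∀ C ∈ 𝒜, ¬ HasBiclique C.2 δ t) (hwf : SubagesWF 𝒜) (hna : ¬ NoAntichain 𝒜) :
    ∃ (V : Type) (M : (i : I) → Set (Fin (ar i) → V)) (P : Set V) (pc : V → ℕ)
      (a : ℕ → Finset V), Core M δ t P pc a := by
  classical
  obtain ⟨ℬ, hℬ𝒜, hℬ, hℬna, hmin⟩ := exists_min_age h𝒜 hwf hna
  obtain ⟨M₀, X₀, hM₀, hKM⟩ := exists_sparse_model (δ := δ) (t := t) hℬ
    (fun C hC => hK C (hℬ𝒜 hC))
  obtain ⟨s, hs, hanti⟩ := not_not.1 hℬna
  obtain ⟨Y, P, hYQ, hYanti, hPY, hnP, hPQ⟩ := fusion (fun Y => ageOn M₀ Y = ℬ) hM₀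
  have hχ : ∀ j k, ∃ f : Fin (s j).1 → ℕ, Function.Injective f ∧ (∀ x, f x ∈ Y k) ∧
      ∀ (i : I) (t : Fin (ar i) → Fin (s j).1), t ∈ (s j).2 i ↔ f ∘ t ∈ M₀ i := by
    intro j k
    have : s j ∈ ageOn M₀ (Y k) := by
      rw [hYQ k]
      exact hs j
    exact this
  choose χ hχi hχY hχr using hχ
  set U : Ultrafilter ℕ := Filter.hyperfilter ℕ with hUdef
  have hU : (U : Filter ℕ) ≤ Filter.cofinite := Filter.hyperfilter_le_cofinite
  have hUgt : ∀ n : ℕ, ∀ᶠ k in (U : Filter ℕ), n < k := by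
    intro n
    apply hU
    rw [Filter.mem_cofinite]
    refine (Set.finite_Iic n).subset ?_
    intro k hk
    simpa using hk
  let E : ℕ → Type := fun j => {v : Fin (s j).1 // ¬ ∃ p, ∀ᶠ k in (U : Filter ℕ), χ j k v = p}
  have hEfin : ∀ j, Finite (E j) := fun j => inferInstanceAs (Finite {v : Fin (s j).1 // _})
  let ψ : (j : ℕ) → ℕ → E j → ℕ := fun j k e => χ j k e.1
  have hinj : ∀ j k, Function.Injective (ψ j k) := fun j k e e' h =>
    Subtype.ext (hχi j k h)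
  have hinf : ∀ j e x, ∀ᶠ k in (U : Filter ℕ), ψ j k e ≠ x := by
    intro j e x
    have h1 : ¬ ∀ᶠ k in (U : Filter ℕ), ψ j k e = x := fun h => e.2 ⟨x, h⟩
    exact Ultrafilter.eventually_not.2 h1
  let M : (i : I) → Set (Fin (ar i) → LV P E) := LM M₀ δ U ψ
  -- realisation of members of the age
  have hreal : ∀ (G : Str ar) (f : Fin G.1 → LV P E), Function.Injective f →
      (∀ (i : I) (t : Fin (ar i) → Fin G.1), t ∈ G.2 i ↔ f ∘ t ∈ M i) →
      ∀ (K : ℕ) (B : Set ℕ), B.Finite → (∀ x, ∀ q : P, f x = Sum.inl q → q.1 ∉ B) →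
      G ∈ ageOn M₀ (Y K \ B) := by
    intro G f hf hr K B hB hq
    obtain ⟨h, h1, h2, h3, h4⟩ := LM_realize hKM U hU ψ hinj hinf Y hYanti
      (fun j k e => hχY j k e.1) (Finset.univ.image f) K B hB
    have hmem : ∀ x, f x ∈ Finset.univ.image f := fun x =>
      Finset.mem_image_of_mem f (Finset.mem_univ x)
    refine ⟨h ∘ f, ?_, ?_, ?_⟩
    · intro x y hxy
      exact hf (h1 (Finset.mem_coe.2 (hmem x)) (Finset.mem_coe.2 (hmem y)) hxy)
    · intro x
      rcases hfx : f x with q | y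
      · rw [Function.comp_apply, hfx, h3 q]
        exact ⟨hPY K q.2, hq x q hfx⟩
      · have h5 := h4 y (by rw [← hfx]; exact hmem x)
        rw [Function.comp_apply, hfx]
        exact h5
    · intro i t
      rw [hr i t]
      exact h2 i (f ∘ t) (fun l => hmem (t l))
  have hsub : ageOn M Set.univ ⊆ ℬ := by
    rintro G ⟨f, hf, -, hr⟩
    have := hreal G f hf hr 0 ∅ Set.finite_empty (fun _ _ _ => Set.notMem_empty _)
    rw [Set.sdiff_empty, hYQ 0] at this
    exact this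
  -- copies of the antichain
  have hpinval : ∀ j (v : Fin (s j).1) p, (∀ᶠ k in (U : Filter ℕ), χ j k v = p) → p ∈ P := by
    intro j v p h
    by_contra hp
    obtain ⟨k, hk1, hk2⟩ := (h.and (hUgt p)).exists
    exact hnP p hp k hk2 (hk1 ▸ hχY j k v)
  let c : (j : ℕ) → Fin (s j).1 → LV P E := fun j v =>
    if h : ∃ p, ∀ᶠ k in (U : Filter ℕ), χ j k v = p then
      Sum.inl ⟨h.choose, hpinval j v _ h.choose_spec⟩
    else Sum.inr ⟨j, 0, ⟨v, h⟩⟩
  have hc : ∀ j v, (∃ p, c j v = Sum.inl p) ∨ ∃ e, c j v = Sum.inr ⟨j, 0, e⟩ := by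
    intro j v
    by_cases h : ∃ p, ∀ᶠ k in (U : Filter ℕ), χ j k v = p
    · left
      exact ⟨_, dif_pos h⟩
    · right
      exact ⟨_, dif_neg h⟩
  have hcr : ∀ j v, ∀ᶠ k in (U : Filter ℕ), real ψ k (c j v) = χ j k v := by
    intro j v
    by_cases h : ∃ p, ∀ᶠ k in (U : Filter ℕ), χ j k v = p
    · have h1 : c j v = Sum.inl ⟨h.choose, hpinval j v _ h.choose_spec⟩ := dif_pos h
      rw [h1]
      filter_upwards [h.choose_spec] with k hk
      exact hk.symm
    · have h1 : c j v = Sum.inr ⟨j, 0, ⟨v, h⟩⟩ := dif_neg h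
      rw [h1]
      exact Filter.Eventually.of_forall fun k => rfl
  have hcopy := fun j => LM_copy (M₀ := M₀) (δ := δ) U ψ j (s j) (χ j) (hχi j) (hχr j)
    (c j) (hc j) (hcr j)
  let a : ℕ → Finset (LV P E) := fun j => Finset.univ.image (c j)
  have hE1 : ∀ j, Emb (s j) (indV M (a j)) := fun j =>
    emb_indV M (hcopy j).1 (fun x => Finset.mem_image_of_mem (c j) (Finset.mem_univ x))
      (hcopy j).2
  have hE2 : ∀ j, Emb (indV M (a j)) (s j) := by
    intro j
    apply (hE1 j).symm_of_size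
    change (s j).1 = (Finset.univ.image (c j)).card
    rw [Finset.card_image_of_injective _ (hcopy j).1]
    simp
  have hanti' : ∀ i j, i ≠ j → ¬ VE M (a i : Set (LV P E)) (a j : Set (LV P E)) := by
    intro i j hij h
    exact hanti i j hij (((hE1 i).trans (emb_of_VE M h)).trans (hE2 j))
  have hminV : ∀ X : Set (LV P E), (∀ n, ∃ j, n ≤ j ∧ VE M (a j : Set (LV P E)) X) →
      ageOn M X = ℬ := by
    intro X hX
    apply hmin _ ((ageOn_mono M (Set.subset_univ X)).trans hsub) (ageOn_isAge M X)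
    intro hno
    choose J hJ1 hJ2 using hX
    -- a strictly increasing sequence of indices
    let w : ℕ → ℕ := fun n => Nat.rec (J 0) (fun _ m => J (m + 1)) n
    have hw : StrictMono w := by
      apply strictMono_nat_of_lt_succ
      intro n
      exact Nat.lt_of_succ_le (hJ1 (w n + 1))
    have hwX : ∀ n, VE M (a (w n) : Set (LV P E)) X := by
      intro n
      cases n with
      | zero => exact hJ2 0
      | succ n => exact hJ2 (w n + 1)
    apply hno
    refine ⟨fun n => indV M (a (w n)), fun n => indV_mem_ageOn M (hwX n), ?_⟩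
    intro m k hmk h
    exact hanti' _ _ (fun e => hmk (hw.injective e)) (VE_of_emb h)
  have hfull : ageOn M Set.univ = ℬ := hminV _ fun n =>
    ⟨n, le_rfl, id, PE_id _, fun _ _ => Set.mem_univ _⟩
  refine ⟨LV P E, M, Set.range Sum.inl,
    Sum.elim (fun _ => 0) (fun x => Nat.pair x.1 x.2.1), a, ?_⟩
  refine ⟨hwf.mono (hsub.trans hℬ𝒜), ?_, ?_, ?_, ?_, ?_, hanti', ?_⟩
  · -- sparse
    exact noBiclique_lift (X := Set.univ) (fun C hC => hK C (hℬ𝒜 (hsub hC)))
      (fun i s h => absurd (fun l => Set.mem_univ _) h)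
  · -- pins
    rintro _ ⟨q, rfl⟩
    have h1 : ageOn M₀ (Y q.1 \ {q.1}) ⊆ ℬ := by
      rw [← hYQ q.1]
      exact ageOn_mono M₀ Set.sdiff_subset
    obtain ⟨G, hG, hG2⟩ : ∃ G ∈ ℬ, G ∉ ageOn M₀ (Y q.1 \ {q.1}) := by
      by_contra hno
      push Not at hno
      exact hPQ q.1 q.2 (Set.Subset.antisymm h1 hno)
    rw [← hfull] at hG
    obtain ⟨Z, -, hZ1, -⟩ := exists_indV_of_mem M hG
    refine ⟨(Z : Set (LV P E)), Finset.finite_toSet Z, fun hVE => hG2 ?_⟩
    have h2 : G ∈ ageOn M {(Sum.inl q : LV P E)}ᶜ :=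
      (ageOn_isAge M _).2.1 _ _ (indV_mem_ageOn M hVE) hZ1
    obtain ⟨f, hf, hfX, hr⟩ := h2
    refine hreal G f hf hr q.1 {q.1} (Set.finite_singleton _) ?_
    intro x q' hx hq'
    apply hfX x
    rw [hx, Set.mem_singleton_iff]
    exact congrArg Sum.inl (Subtype.ext hq')
  · -- shift
    intro X hX
    obtain ⟨f, hf, hfp, hfx⟩ := LM_shift (M₀ := M₀) (δ := δ) U ψ X hX
    refine ⟨f, hf, ?_, ?_⟩
    · rintro _ ⟨q, rfl⟩
      exact hfp q
    · intro x hx
      rcases x with q | y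
      · exact absurd ⟨q, rfl⟩ hx
      · obtain ⟨⟨z, hz⟩, h2⟩ := hfx y
        refine ⟨?_, h2⟩
        rintro ⟨q, hq⟩
        rw [hz] at hq
        exact Sum.inl_ne_inr hq
  · -- pieces
    intro x hx y hy h
    rcases x with q | x
    · exact absurd ⟨q, rfl⟩ hx
    rcases y with q | y
    · exact absurd ⟨q, rfl⟩ hy
    obtain ⟨h1, h2⟩ := LM_piece U ψ x y h
    exact congrArg₂ Nat.pair h1 h2
  · -- finiteness of the pieces
    intro n
    have hfin : (Set.range fun e : E (Nat.unpair n).1 =>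
        (Sum.inr ⟨(Nat.unpair n).1, (Nat.unpair n).2, e⟩ : LV P E)).Finite :=
      Set.finite_range _
    refine hfin.subset ?_
    rintro x ⟨hx, hxn⟩
    rcases x with q | ⟨j, m, e⟩
    · exact absurd ⟨q, rfl⟩ hx
    · change Nat.pair j m = n at hxn
      subst hxn
      simp only [Set.mem_range]
      rw [Nat.unpair_pair]
      exact ⟨e, rfl⟩
  · -- min
    intro X hX Z hZ
    have h1 := hminV X hX
    rw [← hfull] at h1
    exact ageOn_subset_iff.1 h1.symm.subset Z hZ ⟨id, PE_id _, fun _ _ => Set.mem_univ _⟩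

end Pool.Agent.Lib.MP_4fb322_lc_h21
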