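import Mathlib
import Pool.Agent.Lib.MP_4fb322_lc_h21.Basic
import Pool.Agent.Lib.MP_4fb322_lc_h21.W19
import Pool.Agent.Lib.MP_4fb322_lc_h21.W25

set_option autoImplicit false

/-!
# Row Final

Final theorem.
-/

namespace Pool.Agent.Lib.MP_4fb322_lc_h21

open Set Pool.Agent.Lib.MP_4fb322_lc_h70 Pool.Agent.Lib.MP_4fb322_lc_h91

variable {I : Type} {ar : I → ℕ} {V : Type}

theorem noAntichain_of_sparse [Finite I] (har : ∀ i, ar i ≤ 2) {δ : I → Prop} {t : ℕ}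
    {𝒜 : Set (Str ar)} (h𝒜 : IsAge 𝒜) (hK : ∀ C ∈ 𝒜, ¬ HasBiclique C.2 δ t)
    (hwf : SubagesWF 𝒜) : NoAntichain 𝒜 := by
  by_contra hna
  obtain ⟨V, M, P, pc, a, hC⟩ := exists_core h𝒜 hK hwf hna
  exact core_false har hC

end Pool.Agent.Lib.MP_4fb322_lc_h21
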