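import Mathlib
import Pool.Agent.Lib.MP_4fb322_lc_h21.Basic

set_option autoImplicit false

/-!
# Row W16

Degrees in a Core. (1) n_fin_deg: a point `x ∉ P` has finitely many neighbours. PROOF: neighbours outside
`P` lie in the piece of `x` (piece, piece_fin). Neighbours in `P`: fewer than `t`: otherwise take `t`
distinct neighbours `p_1..p_t ∈ P`; using `shift` repeatedly (each time with the finite set of the copies
found so far) get `t` distinct points `x_1, ..., x_t ∉ P` adjacent to all `p_i` (`adj_of_PE_univ`, the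
shift fixes `P`): a biclique. (2) light_nonadj: a pin `p` adjacent to some `x ∉ P` has infinitely many
neighbours: same construction (if the neighbour set `N` of `p` were finite, `shift` with `X = N` moves
`x` to a neighbour of `p` outside `N`).
-/

namespace Pool.Agent.Lib.MP_4fb322_lc_h21

open Set Pool.Agent.Lib.MP_4fb322_lc_h70 Pool.Agent.Lib.MP_4fb322_lc_h91

variable {I : Type} {ar : I → ℕ} {V : Type}

/-- copies of `x` outside a finite set with the same neighbours among the pins -/
private theorem W16_copy {M : (i : I) → Set (Fin (ar i) → V)} {δ : I → Prop} {t : ℕ}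
    {P : Set V} {pc : V → ℕ} {a : ℕ → Finset V} (hC : Core M δ t P pc a) {x : V} (hx : x ∉ P)
    {X : Set V} (hX : X.Finite) :
    ∃ y, y ∉ P ∧ y ∉ X ∧ ∀ p ∈ P, Adj M δ p x → Adj M δ p y := by
  obtain ⟨f, hf, hfP, hfx⟩ := hC.shift X hX
  refine ⟨f x, (hfx x hx).1, (hfx x hx).2, fun p hp h => ?_⟩
  have := adj_of_PE_univ hf h
  rwa [hfP p hp] at this

theorem n_fin_deg {M : (i : I) → Set (Fin (ar i) → V)} {δ : I → Prop} {t : ℕ} {P : Set V}
    {pc : V → ℕ} {a : ℕ → Finset V} (hC : Core M δ t P pc a) {x : V} (hx : x ∉ P) :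
    ¬ InfDeg (Adj M δ) x := by
  intro hinf
  have h1 : ({y | Adj M δ x y} ∩ Pᶜ).Finite := by
    refine (hC.piece_fin (pc x)).subset ?_
    rintro y ⟨hy, hyP⟩
    exact ⟨hyP, (hC.piece x hx y hyP hy).symm⟩
  have h2 : ({y | Adj M δ x y} ∩ P).Infinite := by
    intro h2
    apply hinf
    refine (h1.union h2).subset ?_
    intro y hy
    by_cases hyP : y ∈ P
    · exact Or.inr ⟨hy, hyP⟩
    · exact Or.inl ⟨hy, hyP⟩
  set e := h2.natEmbedding with he
  have hb : ∀ k : ℕ, ∃ b : Fin k → V, Function.Injective b ∧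
      ∀ j, b j ∉ P ∧ ∀ i : ℕ, Adj M δ (e i : V) (b j) := by
    intro k
    induction k with
    | zero => exact ⟨fun j => j.elim0, fun j => j.elim0, fun j => j.elim0⟩
    | succ k ih =>
      obtain ⟨b, hbi, hb⟩ := ih
      obtain ⟨y, hyP, hyX, hy⟩ := W16_copy hC hx (Set.finite_range b)
      refine ⟨Fin.cons y b, ?_, ?_⟩
      · rw [Fin.cons_injective_iff]
        exact ⟨hyX, hbi⟩
      · intro j
        refine Fin.cases ?_ ?_ j
        · rw [Fin.cons_zero]
          exact ⟨hyP, fun i => hy _ (e i).2.2 (Adj.symm (e i).2.1)⟩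
        · intro j
          rw [Fin.cons_succ]
          exact hb j
  obtain ⟨b, hbi, hb⟩ := hb t
  refine sparse_adj hC.sparse ⟨fun i => (e (i : ℕ) : V), b, ?_, hbi, fun i j => (hb j).2 i⟩
  intro i j hij
  exact Fin.ext (e.injective (Subtype.ext hij))

theorem light_nonadj {M : (i : I) → Set (Fin (ar i) → V)} {δ : I → Prop} {t : ℕ} {P : Set V}
    {pc : V → ℕ} {a : ℕ → Finset V} (hC : Core M δ t P pc a) {p x : V} (hp : p ∈ P)
    (hx : x ∉ P) (h : Adj M δ p x) : InfDeg (Adj M δ) p := by
  intro hfin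
  obtain ⟨y, -, hy, hy2⟩ := W16_copy hC hx hfin
  exact hy (hy2 p hp h)

end Pool.Agent.Lib.MP_4fb322_lc_h21
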